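import Pool.Agent.Lib.MP_8c9cbf_an.A1

/-! Task A2: norm of a sum of `n_J` members of an RIS, exact vectors. -/

namespace Pool.Agent.MP8c9cbf

open Finset Filter Topology

variable {T X : Type} [NormedAddCommGroup X] [NormedSpace ℝ X] (A : AHData T X)

theorem A2_mu_pos (J : ℕ) : (0 : ℝ) < (mm J : ℝ) / nn J := by
  have h1 : (0 : ℝ) < mm J := by exact_mod_cast mm_pos J
  have h2 : (0 : ℝ) < nn J := by exact_mod_cast nn_pos J
  positivity

theorem A2_mu_one (J : ℕ) : (mm J : ℝ) / nn J * ((mm J : ℝ)⁻¹ * nn J) = 1 := by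
  have h1 : (0 : ℝ) < mm J := by exact_mod_cast mm_pos J
  have h2 : (0 : ℝ) < nn J := by exact_mod_cast nn_pos J
  field_simp

theorem A2_mu_le (J : ℕ) : (mm J : ℝ) / nn J ≤ (mm J : ℝ)⁻¹ := by
  have h1 := mm_inv_pos J
  have h2 := A2_mu_one J
  have h3 := one_le_nn_mul_sq J
  have h4 := A2_mu_pos J
  have h5 : (mm J : ℝ) / nn J * 1 ≤
      (mm J : ℝ) / nn J * (((mm J : ℝ)⁻¹) ^ 2 * nn J) := mul_le_mul_of_nonneg_left h3 h4.le
  have h6 : (mm J : ℝ) / nn J * (((mm J : ℝ)⁻¹) ^ 2 * nn J) =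
      (mm J : ℝ)⁻¹ * ((mm J : ℝ) / nn J * ((mm J : ℝ)⁻¹ * nn J)) := by ring
  rw [h6, h2] at h5
  linarith

theorem A2_sum_le {I : Finset ℕ} {f : ℕ → ℝ} {c : ℝ} (hc : 0 ≤ c) (h1 : ∀ k ∈ I, |f k| ≤ c)
    (h2 : ∀ k ∈ I, ∀ l ∈ I, f k ≠ 0 → f l ≠ 0 → k = l) : |∑ k ∈ I, f k| ≤ c := by
  by_cases h : ∃ k ∈ I, f k ≠ 0
  · obtain ⟨k, hk, hfk⟩ := h
    rw [Finset.sum_eq_single k]
    · exact h1 k hk
    · intro l hl hlk
      by_contra hfl
      exact hlk (h2 l hl k hk hfl hfk)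
    · intro h'
      exact absurd hk h'
  · push Not at h
    rw [Finset.sum_eq_zero h, abs_zero]
    exact hc

namespace AHData

/-- every coordinate with a cut, on a sum of `n_J` members -/
theorem avg_all {C : ℝ} (hC : 0 ≤ C) {N : ℕ} {x : ℕ → X} {s t j : ℕ → ℕ}
    (h : A.RIS C N x s t j) {J : ℕ} {I : Finset ℕ} (hI : I ⊆ Finset.range N)
    (hc : I.card = nn J) (q : T × ℕ) (u : ℕ) :
    |A.ev q ((∑ k ∈ I, x k) - A.Q u (∑ k ∈ I, x k))| ≤ 12 * C * (mm J : ℝ)⁻¹ * nn J := by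
  have hA := one_le_nn_mul J
  set a : ℝ := (mm J : ℝ)⁻¹ * nn J with ha
  have hgoal : 12 * C * (mm J : ℝ)⁻¹ * nn J = 12 * C * a := by
    rw [ha]
    ring
  rw [hgoal]
  rcases hw : A.wt q.1 with _ | i
  · have := A.avg_base hC h hI hw u
    nlinarith
  · rcases lt_or_ge i J with hi | hi
    · have h1 := A.avg_lt hC h hI hc hw hi u
      have h2 := mm_inv_le_quarter i
      have h3 := mm_inv_pos i
      have h4 : 2 * (mm i : ℝ)⁻¹ * (mm J : ℝ)⁻¹ * nn J = 2 * (mm i : ℝ)⁻¹ * a := by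
        rw [ha]
        ring
      rw [h4] at h1
      have h5 : 2 * (mm i : ℝ)⁻¹ * a ≤ a := by nlinarith
      nlinarith
    · have h1 := A.avg_ge hC h hI hc hw u
      have h2 := mm_inv_anti hi
      have h3 : (mm i : ℝ)⁻¹ * nn J ≤ a := by
        rw [ha]
        exact mul_le_mul_of_nonneg_right h2 (Nat.cast_nonneg _)
      nlinarith

/-- norm of a sum of `n_J` members -/
theorem avg_norm {C : ℝ} (hC : 0 ≤ C) {N : ℕ} {x : ℕ → X} {s t j : ℕ → ℕ}
    (h : A.RIS C N x s t j) {J : ℕ} {I : Finset ℕ} (hI : I ⊆ Finset.range N)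
    (hc : I.card = nn J) : ‖∑ k ∈ I, x k‖ ≤ 12 * C * (mm J : ℝ)⁻¹ * nn J := by
  have h1 := mm_inv_pos J
  refine A.norm_le _ _ (by positivity) fun q => ?_
  have := A.avg_all hC h hI hc q 0
  rwa [A.Q_zero, sub_zero] at this

/-- exact vectors from an RIS -/
theorem exact_of_RIS {C : ℝ} (hC : 0 ≤ C) {N : ℕ} {x : ℕ → X} {s t j : ℕ → ℕ}
    (h : A.RIS C N x s t j) {J : ℕ} {I : Finset ℕ} (hI : I ⊆ Finset.range N)
    (hc : I.card = nn J) {s0 t0 : ℕ} (hs : ∀ k ∈ I, s0 ≤ s k) (ht : ∀ k ∈ I, t k ≤ t0) :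
    A.Exact (18 * C) J s0 t0 (((mm J : ℝ) / nn J) • ∑ k ∈ I, x k) := by
  have hμ := A2_mu_pos J
  have hμ1 := A2_mu_one J
  have hμ2 := A2_mu_le J
  set μ : ℝ := (mm J : ℝ) / nn J with hμdef
  have hmJ := mm_inv_pos J
  have key : ∀ q u, |A.ev q ((μ • ∑ k ∈ I, x k) - A.Q u (μ • ∑ k ∈ I, x k))| =
      μ * |A.ev q ((∑ k ∈ I, x k) - A.Q u (∑ k ∈ I, x k))| := by
    intro q u
    rw [map_smul, ← smul_sub, map_smul, smul_eq_mul, abs_mul, abs_of_pos hμ]
  refine ⟨?_, ?_, ?_, ?_, ?_⟩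
  · refine Blk.smul A (Blk.sum A fun k hk => ?_) μ
    exact Blk.mono A (h.blk k (Finset.mem_range.1 (hI hk))) (hs k hk) (ht k hk)
  · intro q u
    rw [key]
    have h1 := mul_le_mul_of_nonneg_left (A.avg_all hC h hI hc q u) hμ.le
    have h2 : μ * (12 * C * (mm J : ℝ)⁻¹ * nn J) = 12 * C * (μ * ((mm J : ℝ)⁻¹ * nn J)) := by
      ring
    rw [h2, hμ1] at h1
    linarith
  · intro q i u hw hi
    rw [key]
    have h1 := mul_le_mul_of_nonneg_left (A.avg_lt hC h hI hc hw hi u) hμ.le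
    have h2 : μ * (6 * C * (1 + 2 * (mm i : ℝ)⁻¹ * (mm J : ℝ)⁻¹ * nn J)) =
        6 * C * (μ + 2 * (mm i : ℝ)⁻¹ * (μ * ((mm J : ℝ)⁻¹ * nn J))) := by
      ring
    rw [h2, hμ1] at h1
    have h3 := mm_inv_anti hi.le
    have h4 : 6 * C * (μ + 2 * (mm i : ℝ)⁻¹ * 1) ≤ 6 * C * (3 * (mm i : ℝ)⁻¹) :=
      mul_le_mul_of_nonneg_left (by linarith) (by positivity)
    linarith
  · intro q i u hw hi
    rw [key]
    have h1 := mul_le_mul_of_nonneg_left (A.avg_ge hC h hI hc hw u) hμ.le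
    have hmn : μ * nn J = mm J := by
      rw [hμdef]
      have h2 : (0 : ℝ) < nn J := by exact_mod_cast nn_pos J
      field_simp
    have h2 : μ * (6 * C * (1 + (mm i : ℝ)⁻¹ * nn J)) =
        6 * C * (μ + (mm i : ℝ)⁻¹ * (μ * nn J)) := by
      ring
    rw [h2, hmn] at h1
    have h3 := mm_inv_le_sq hi
    have h5 : (mm i : ℝ)⁻¹ * mm J ≤ (mm J : ℝ)⁻¹ := by
      have h6 : (0 : ℝ) < mm J := by exact_mod_cast mm_pos J
      have h7 := mul_le_mul_of_nonneg_right h3 h6.le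
      refine h7.trans (le_of_eq ?_)
      field_simp
    have h4 : 6 * C * (μ + (mm i : ℝ)⁻¹ * mm J) ≤ 6 * C * (2 * (mm J : ℝ)⁻¹) :=
      mul_le_mul_of_nonneg_left (by linarith) (by positivity)
    nlinarith
  · intro q
    rw [A.dst_smul, abs_mul, abs_of_pos hμ, A.dst_sum]
    have h1 : |∑ k ∈ I, A.dst q (x k)| ≤ 3 * C := by
      refine A2_sum_le (by positivity) ?_ ?_
      · intro k hk
        have h2 := A.abs_dst_le q (x k)
        have h3 := h.nrm k (Finset.mem_range.1 (hI hk))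
        linarith
      · intro k hk l hl h2 h3
        have hk' := Finset.mem_range.1 (hI hk)
        have hl' := Finset.mem_range.1 (hI hl)
        have a1 : s k ≤ A.rank q.1 := by
          by_contra h4
          exact h2 (Blk.dst_lt A (h.blk k hk') (not_le.1 h4))
        have a2 : A.rank q.1 < t k := by
          by_contra h4
          exact h2 (Blk.dst_ge A (h.blk k hk') (not_lt.1 h4))
        have b1 : s l ≤ A.rank q.1 := by
          by_contra h4
          exact h3 (Blk.dst_lt A (h.blk l hl') (not_le.1 h4))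
        have b2 : A.rank q.1 < t l := by
          by_contra h4
          exact h3 (Blk.dst_ge A (h.blk l hl') (not_lt.1 h4))
        rcases lt_trichotomy k l with h4 | h4 | h4
        · have := h.succ k l h4 hl'
          omega
        · exact h4
        · have := h.succ l k h4 hk'
          omega
    have h2 : μ * |∑ k ∈ I, A.dst q (x k)| ≤ (mm J : ℝ)⁻¹ * (3 * C) :=
      mul_le_mul hμ2 h1 (abs_nonneg _) hmJ.le
    nlinarith

end AHData

end Pool.Agent.MP8c9cbf
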