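import Pool.Agent.Lib.MP_8c9cbf_an.A2

/-! Task A3: an infinite RIS is weakly null; subsequences. -/

namespace Pool.Agent.MP8c9cbf

open Finset Filter Topology

variable {T X : Type} [NormedAddCommGroup X] [NormedSpace ℝ X] (A : AHData T X)

namespace AHData

theorem A3_finite {C : ℝ} (hC : 0 ≤ C) {x : ℕ → X} {s t j : ℕ → ℕ}
    (h : ∀ N, A.RIS C N x s t j) (ψ : X →L[ℝ] ℝ) {ε : ℝ} (hε : 0 < ε) :
    {k | ε ≤ ψ (x k)}.Finite := by
  by_contra hinf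
  have hinf' : {k | ε ≤ ψ (x k)}.Infinite := hinf
  have key : ∀ J, ε ≤ ‖ψ‖ * (12 * C) * (mm J : ℝ)⁻¹ := by
    intro J
    obtain ⟨I, hI, hc⟩ := hinf'.exists_subset_card_eq (nn J)
    have hIN : I ⊆ Finset.range (I.sup id + 1) := by
      intro k hk
      rw [Finset.mem_range]
      exact Nat.lt_succ_of_le (Finset.le_sup (f := id) hk)
    have h1 := A.avg_norm hC (h (I.sup id + 1)) hIN hc
    have h2 : (nn J : ℝ) * ε ≤ ψ (∑ k ∈ I, x k) := by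
      rw [map_sum, ← hc, ← nsmul_eq_mul]
      exact Finset.card_nsmul_le_sum I _ _ fun k hk => hI hk
    have h3 : ψ (∑ k ∈ I, x k) ≤ ‖ψ‖ * ‖∑ k ∈ I, x k‖ :=
      (le_abs_self _).trans (ψ.le_opNorm _)
    have h4 := mul_le_mul_of_nonneg_left h1 (norm_nonneg ψ)
    have h5 : (0 : ℝ) < nn J := by exact_mod_cast nn_pos J
    have h6 : (nn J : ℝ) * ε ≤ (nn J : ℝ) * (‖ψ‖ * (12 * C) * (mm J : ℝ)⁻¹) := by
      calc (nn J : ℝ) * ε ≤ ‖ψ‖ * (12 * C * (mm J : ℝ)⁻¹ * nn J) := h2.trans (h3.trans h4)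
        _ = _ := by ring
    exact le_of_mul_le_mul_left h6 h5
  have hlim : Tendsto (fun J => ‖ψ‖ * (12 * C) * (mm J : ℝ)⁻¹) atTop
      (𝓝 (‖ψ‖ * (12 * C) * 0)) := mm_tendsto.const_mul _
  have := ge_of_tendsto' hlim key
  rw [mul_zero] at this
  linarith

/-- an infinite RIS is weakly null -/
theorem ris_weak_null {C : ℝ} (hC : 0 ≤ C) {x : ℕ → X} {s t j : ℕ → ℕ}
    (h : ∀ N, A.RIS C N x s t j) (φ : X →L[ℝ] ℝ) :
    Tendsto (fun k => φ (x k)) atTop (𝓝 0) := by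
  rw [Metric.tendsto_atTop]
  intro ε hε
  have h1 := A.A3_finite hC h φ hε
  have h2 := A.A3_finite hC h (-φ) hε
  obtain ⟨N, hN⟩ := (h1.union h2).bddAbove
  refine ⟨N + 1, fun k hk => ?_⟩
  rw [Real.dist_eq, sub_zero]
  by_contra hcon
  have h3 : ε ≤ |φ (x k)| := not_lt.1 hcon
  have h4 : k ∈ {k | ε ≤ φ (x k)} ∪ {k | ε ≤ (-φ) (x k)} := by
    rcases le_abs.1 h3 with h5 | h5
    · exact Or.inl h5
    · exact Or.inr h5
  have := hN h4
  omega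

/-- subsequences -/
theorem RIS.subseq {C : ℝ} {x : ℕ → X} {s t j : ℕ → ℕ}
    (h : ∀ N, A.RIS C N x s t j) {f : ℕ → ℕ} (hf : StrictMono f) :
    ∀ N, A.RIS C N (x ∘ f) (s ∘ f) (t ∘ f) (j ∘ f) := by
  intro N
  refine ⟨?_, ?_, ?_, ?_, ?_, ?_⟩
  · intro k _
    exact (h (f k + 1)).blk (f k) (Nat.lt_succ_self _)
  · intro k l hkl _
    exact (h (f l + 1)).succ (f k) (f l) (hf hkl) (Nat.lt_succ_self _)
  · intro k _
    exact (h (f k + 1)).nrm (f k) (Nat.lt_succ_self _)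
  · intro k l hkl _
    exact (h (f l + 1)).jmono (f k) (f l) (hf hkl) (Nat.lt_succ_self _)
  · intro k l hkl _
    exact (h (f l + 1)).jt (f k) (f l) (hf hkl) (Nat.lt_succ_self _)
  · intro k _ q i hw hi
    exact (h (f k + 1)).wtb (f k) (Nat.lt_succ_self _) q i hw hi

theorem RIS.const_mono {C C' : ℝ} (hCC : C ≤ C') {N : ℕ} {x : ℕ → X} {s t j : ℕ → ℕ}
    (h : A.RIS C N x s t j) : A.RIS C' N x s t j := by
  refine ⟨h.blk, h.succ, fun k hk => (h.nrm k hk).trans hCC, h.jmono, h.jt, ?_⟩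
  intro k hk q i hw hi
  exact (h.wtb k hk q i hw hi).trans (mul_le_mul_of_nonneg_right hCC (mm_inv_pos i).le)

end AHData

end Pool.Agent.MP8c9cbf
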