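import Pool.Agent.Lib.MP_8c9cbf_an.B1

/-! Task B2: the functionals `pair b` and the one-step evaluation analysis. -/

namespace Pool.Agent.MP8c9cbf

open Finset Filter Topology

variable {T X : Type} [NormedAddCommGroup X] [NormedSpace ℝ X] (A : AHData T X)

namespace AHData

theorem pair_add (b : T × ℕ →₀ ℝ) (x y : X) :
    A.pair b (x + y) = A.pair b x + A.pair b y := by
  simp only [pair, map_add, mul_add, Finset.sum_add_distrib]

theorem pair_sub (b : T × ℕ →₀ ℝ) (x y : X) :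
    A.pair b (x - y) = A.pair b x - A.pair b y := by
  simp only [pair, map_sub, mul_sub, Finset.sum_sub_distrib]

theorem pair_smul (b : T × ℕ →₀ ℝ) (c : ℝ) (x : X) :
    A.pair b (c • x) = c * A.pair b x := by
  simp only [pair, map_smul, smul_eq_mul, Finset.mul_sum]
  exact Finset.sum_congr rfl (fun q _ => by ring)

theorem pair_zero (b : T × ℕ →₀ ℝ) : A.pair b 0 = 0 := by
  simp [pair]

theorem pair_sum {ι : Type} (b : T × ℕ →₀ ℝ) (I : Finset ι) (x : ι → X) :
    A.pair b (∑ k ∈ I, x k) = ∑ k ∈ I, A.pair b (x k) := by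
  simp only [pair, map_sum, Finset.mul_sum]
  exact Finset.sum_comm

theorem pair_single (q : T × ℕ) (c : ℝ) (x : X) :
    A.pair (Finsupp.single q c) x = c * A.ev q x := by
  have h : A.pair (Finsupp.single q c) x =
      (Finsupp.single q c).sum (fun q' c' => c' * A.ev q' x) := rfl
  rw [h, Finsupp.sum_single_index (zero_mul _)]

/-- if `‖b‖_1 ≤ 1` then `|b(x)| ≤ c` as soon as all coordinates in the support are `≤ c` -/
theorem abs_pair_le {b : T × ℕ →₀ ℝ} (hb : ∑ q ∈ b.support, |b q| ≤ 1) {x : X} {c : ℝ}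
    (hc : 0 ≤ c) (h : ∀ q ∈ b.support, |A.ev q x| ≤ c) : |A.pair b x| ≤ c := by
  calc |A.pair b x| ≤ ∑ q ∈ b.support, |b q * A.ev q x| := Finset.abs_sum_le_sum_abs _ _
    _ ≤ ∑ q ∈ b.support, |b q| * c := by
      apply Finset.sum_le_sum
      intro q hq
      rw [abs_mul]
      exact mul_le_mul_of_nonneg_left (h q hq) (abs_nonneg _)
    _ = (∑ q ∈ b.support, |b q|) * c := by rw [Finset.sum_mul]
    _ ≤ 1 * c := mul_le_mul_of_nonneg_right hb hc
    _ = c := one_mul c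

theorem abs_pair_le_norm {b : T × ℕ →₀ ℝ} (hb : ∑ q ∈ b.support, |b q| ≤ 1) (x : X) :
    |A.pair b x| ≤ ‖x‖ :=
  A.abs_pair_le hb (norm_nonneg x) (fun q _ => A.ev_le q x)

private lemma ev_Spow_zero (τ : T) (k : ℕ) (x : X) :
    A.ev (τ, 0) ((A.S ^ k) x) = om k * A.ev (τ, k) x := by
  rw [A.ev_Spow, om_zero, div_one, zero_add]

/-- one-step evaluation analysis of a derived coordinate `(τ, k)` -/
theorem node_der {τ : T} {i : ℕ} (hw : A.wt τ = some i) (k : ℕ) :
    ∃ b' : T × ℕ →₀ ℝ, ∑ q ∈ b'.support, |b' q| ≤ 1 ∧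
      (∀ q ∈ b'.support, A.rank q.1 < A.rank τ) ∧
      (∀ x, A.pair b' x = (om k)⁻¹ * A.pair (A.bb τ) ((A.S ^ k) x)) ∧
      (∀ x, A.ev (τ, k) x = A.dst (τ, k) x + ((A.prv τ).elim 0 fun ξ => A.ev (ξ, k) x) +
        (mm i : ℝ)⁻¹ * A.pair b' (x - A.Q (A.lev τ) x)) := by
  classical
  let r : T × ℕ → ℝ := fun q => om (q.2 + k) / (om q.2 * om k)
  have hr0 : ∀ q, 0 ≤ r q := fun q =>
    div_nonneg (om_pos _).le (mul_nonneg (om_pos _).le (om_pos _).le)
  have hr1 : ∀ q, r q ≤ 1 := fun q =>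
    (div_le_one (mul_pos (om_pos _) (om_pos _))).mpr (om_add_le q.2 k)
  let e : T × ℕ ↪ T × ℕ := ⟨fun q => (q.1, q.2 + k), by
    rintro ⟨a, b⟩ ⟨c, d⟩ h
    simp only [Prod.mk.injEq] at h ⊢
    exact ⟨h.1, by omega⟩⟩
  have hof : ∀ q, A.bb τ q * r q ≠ 0 → q ∈ (A.bb τ).support := by
    intro q hq
    rw [Finsupp.mem_support_iff]
    intro h0
    exact hq (by rw [h0, zero_mul])
  let b2 : T × ℕ →₀ ℝ := Finsupp.onFinset (A.bb τ).support (fun q => A.bb τ q * r q) hof
  have hb2 : ∀ q, b2 q = A.bb τ q * r q := fun q => rfl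
  have hb2s : b2.support ⊆ (A.bb τ).support := Finsupp.support_onFinset_subset
  have key : ∀ x, A.pair (b2.embDomain e) x =
      (om k)⁻¹ * A.pair (A.bb τ) ((A.S ^ k) x) := by
    intro x
    have h1 : A.pair (b2.embDomain e) x =
        (b2.embDomain e).sum (fun q' c' => c' * A.ev q' x) := rfl
    rw [h1, Finsupp.sum_embDomain]
    have h2 : (b2.sum fun a c => c * A.ev (e a) x) =
        ∑ a ∈ (A.bb τ).support, (A.bb τ a * r a) * A.ev (e a) x :=
      Finsupp.onFinset_sum hof (fun a => zero_mul _)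
    rw [h2, pair, Finset.mul_sum]
    apply Finset.sum_congr rfl
    rintro ⟨σ, l⟩ -
    have h3 : A.ev (σ, l) ((A.S ^ k) x) = (om (l + k) / om l) * A.ev (σ, l + k) x :=
      A.ev_Spow σ l k x
    rw [h3]
    change A.bb τ (σ, l) * (om (l + k) / (om l * om k)) * A.ev (σ, l + k) x = _
    have h4 := (om_pos l).ne'
    have h5 := (om_pos k).ne'
    field_simp
  refine ⟨b2.embDomain e, ?_, ?_, key, ?_⟩
  · rw [Finsupp.support_embDomain, Finset.sum_map]
    calc ∑ q ∈ b2.support, |(b2.embDomain e) (e q)|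
        = ∑ q ∈ b2.support, |A.bb τ q * r q| := by
          apply Finset.sum_congr rfl
          intro q _
          rw [Finsupp.embDomain_apply_self, hb2]
      _ ≤ ∑ q ∈ (A.bb τ).support, |A.bb τ q * r q| :=
          Finset.sum_le_sum_of_subset_of_nonneg hb2s (fun _ _ _ => abs_nonneg _)
      _ ≤ ∑ q ∈ (A.bb τ).support, |A.bb τ q| := by
          apply Finset.sum_le_sum
          intro q _
          rw [abs_mul, abs_of_nonneg (hr0 q)]
          exact mul_le_of_le_one_right (abs_nonneg _) (hr1 q)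
      _ ≤ 1 := A.bb_l1 τ
  · intro q hq
    rw [Finsupp.support_embDomain, Finset.mem_map] at hq
    obtain ⟨q0, hq0, rfl⟩ := hq
    exact A.bb_rank τ q0 (hb2s hq0)
  · intro x
    have h1 : (A.S ^ k) x - A.Q (A.lev τ) ((A.S ^ k) x) =
        (A.S ^ k) (x - A.Q (A.lev τ) x) := by
      rw [A.Q_Spow, map_sub]
    have h2 : A.pair (A.bb τ) ((A.S ^ k) (x - A.Q (A.lev τ) x)) =
        om k * A.pair (b2.embDomain e) (x - A.Q (A.lev τ) x) := by
      rw [key, ← mul_assoc, mul_inv_cancel₀ (om_pos k).ne', one_mul]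
    have h3 : ((A.prv τ).elim 0 fun ξ => A.ev (ξ, 0) ((A.S ^ k) x)) =
        om k * ((A.prv τ).elim 0 fun ξ => A.ev (ξ, k) x) := by
      cases A.prv τ with
      | none => simp
      | some ξ => simp only [Option.elim]; exact A.ev_Spow_zero ξ k x
    have h4 : A.dst (τ, k) x = (om k)⁻¹ * (om k * A.ev (τ, k) x -
        om k * ((A.prv τ).elim 0 fun ξ => A.ev (ξ, k) x) -
        (mm i : ℝ)⁻¹ * (om k * A.pair (b2.embDomain e) (x - A.Q (A.lev τ) x))) := by
      simp only [dst, dst0]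
      rw [A.ev_Spow_zero, h3, hw, h1, h2]
      rfl
    rw [h4]
    have h5 := (om_pos k).ne'
    field_simp
    ring

/-- the special case `bb τ = e*_(η,0)` -/
theorem node_single {τ η : T} {i : ℕ} (hw : A.wt τ = some i)
    (hb : A.bb τ = Finsupp.single (η, 0) 1) (k : ℕ) (x : X) :
    A.ev (τ, k) x = A.dst (τ, k) x + ((A.prv τ).elim 0 fun ξ => A.ev (ξ, k) x) +
        (mm i : ℝ)⁻¹ * A.ev (η, k) (x - A.Q (A.lev τ) x) := by
  obtain ⟨b', -, -, h3, h4⟩ := A.node_der hw k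
  rw [h4 x, h3, hb, A.pair_single, one_mul, A.ev_Spow_zero, ← mul_assoc (om k)⁻¹,
    inv_mul_cancel₀ (om_pos k).ne', one_mul]

/-- for a base node `e* = d*` -/
theorem ev_base {τ : T} (hw : A.wt τ = none) (k : ℕ) (x : X) :
    A.ev (τ, k) x = A.dst (τ, k) x := by
  simp only [dst, dst0]
  rw [hw, A.base_prv τ hw, A.ev_Spow_zero]
  simp only [Option.elim, sub_zero]
  rw [← mul_assoc, inv_mul_cancel₀ (om_pos k).ne', one_mul]

end AHData

end Pool.Agent.MP8c9cbf
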