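import Pool.Agent.Lib.MP_8c9cbf_an.BIc

/-! Task BI2: the basic inequality. -/

namespace Pool.Agent.MP8c9cbf

open Finset Filter Topology

variable {T X : Type} [NormedAddCommGroup X] [NormedSpace ℝ X] (A : AHData T X)

namespace AHData

/-- a sum with at most one nonzero term -/
private lemma onehot (I : Finset ℕ) (F : ℕ → ℝ) {c : ℝ} (hc : 0 ≤ c)
    (h1 : ∀ k ∈ I, |F k| ≤ c) (h2 : ∀ k ∈ I, ∀ l ∈ I, k < l → F k = 0 ∨ F l = 0) :
    |∑ k ∈ I, F k| ≤ c := by
  classical
  by_cases h : ∀ k ∈ I, F k = 0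
  · rw [Finset.sum_eq_zero h]; simpa using hc
  · push Not at h
    obtain ⟨k0, hk0, hk⟩ := h
    rw [Finset.sum_eq_single_of_mem k0 hk0]
    · exact h1 k0 hk0
    · intro b hb hbk
      rcases lt_or_gt_of_ne hbk with h' | h'
      · rcases h2 b hb k0 hk0 h' with h'' | h''
        · exact h''
        · exact absurd h'' hk
      · rcases h2 k0 hk0 b hb h' with h'' | h''
        · exact absurd h'' hk
        · exact h''

private lemma sum_split (q : T × ℕ) (u : ℕ) (x : ℕ → X) (I : Finset ℕ) :
    A.ev q ((∑ k ∈ I, x k) - A.Q u (∑ k ∈ I, x k)) =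
      ∑ k ∈ I, A.ev q (x k - A.Q u (x k)) := by
  rw [← map_sum, Finset.sum_sub_distrib, map_sum]

private lemma z_norm {C : ℝ} {N : ℕ} {x : ℕ → X} {s t j : ℕ → ℕ}
    (h : A.RIS C N x s t j) (u : ℕ) (q : T × ℕ) {k : ℕ} (hk : k < N) :
    |A.ev q (x k - A.Q u (x k))| ≤ 3 * C := by
  have h1 := A.ev_le q (x k - A.Q u (x k))
  have h2 := A.norm_sub_Q_le u (x k)
  have h3 := h.nrm k hk
  linarith

private lemma z_zero_of_ge {C : ℝ} {N : ℕ} {x : ℕ → X} {s t j : ℕ → ℕ}
    (h : A.RIS C N x s t j) {u : ℕ} {k : ℕ} (hk : k < N) (hu : t k ≤ u) :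
    x k - A.Q u (x k) = 0 := by
  rw [Blk.Q_ge A (h.blk k hk) hu, sub_self]

private lemma z_eq_of_le {C : ℝ} {N : ℕ} {x : ℕ → X} {s t j : ℕ → ℕ}
    (h : A.RIS C N x s t j) {u : ℕ} {k : ℕ} (hk : k < N) (hu : u ≤ s k) :
    x k - A.Q u (x k) = x k := by
  rw [Blk.Q_le A (h.blk k hk) hu, sub_zero]

private lemma Q_t_z {C : ℝ} {N : ℕ} {x : ℕ → X} {s t j : ℕ → ℕ}
    (h : A.RIS C N x s t j) {u : ℕ} {k : ℕ} (hk : k < N) :
    A.Q (t k) (x k - A.Q u (x k)) = x k - A.Q u (x k) := by
  have h1 : A.Q (t k) (x k) = x k := (h.blk k hk).2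
  rw [map_sub, A.Q_Q, h1]
  congr 1
  conv_rhs => rw [← h1]
  rw [A.Q_Q, min_comm]

/-- The basic inequality (all coefficients equal to 1).  `P` is the set of weight indices used in
the auxiliary functionals; for the indices not in `P` we assume that coordinates of this weight
are bounded by `C` on all partial sums.  Strong induction on `rank q.1`. -/
theorem basic {C : ℝ} (hC : 0 ≤ C) {N : ℕ} {x : ℕ → X} {s t j : ℕ → ℕ}
    (h : A.RIS C N x s t j) (P : ℕ → Prop)
    (hP : ∀ i, ¬ P i → ∀ q : T × ℕ, A.wt q.1 = some i → ∀ J ⊆ Finset.range N,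
      |A.ev q (∑ k ∈ J, x k)| ≤ C)
    (q : T × ℕ) : A.BIconc C N x P q := by
  classical
  induction hr : A.rank q.1 using Nat.strong_induction_on generalizing q with
  | _ r ih =>
  intro I hI u
  have hIN : ∀ k ∈ I, k < N := fun k hk => Finset.mem_range.mp (hI hk)
  rw [A.sum_split]
  rcases hw : A.wt q.1 with _ | i
  · -- base node
    have hev : ∀ v, A.ev q v = A.dst q v := fun v => A.ev_base hw q.2 v
    have hz : ∀ k ∈ I, ¬ (s k ≤ A.rank q.1 ∧ A.rank q.1 < t k) →
        A.ev q (x k - A.Q u (x k)) = 0 := by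
      intro k hk hn
      have hdx : A.dst q (x k) = 0 := by
        by_cases h1 : A.rank q.1 < s k
        · exact Blk.dst_lt A (h.blk k (hIN k hk)) h1
        · exact Blk.dst_ge A (h.blk k (hIN k hk)) (by
            by_contra h2
            exact hn ⟨by omega, by omega⟩)
      rw [hev, A.dst_sub, hdx]
      by_cases h1 : u ≤ A.rank q.1
      · rw [A.dst_Q_high h1, sub_zero]
      · rw [A.dst_Q_low (by omega), hdx, sub_zero]
    by_cases hne : ∃ k0, k0 ∈ I
    · obtain ⟨k0, hk0⟩ := hne
      refine ⟨Pi.single k0 1, 0, Or.inr ⟨k0, hk0, rfl, rfl⟩, by simp, Or.inl rfl, ?_⟩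
      have hb : |∑ k ∈ I, A.ev q (x k - A.Q u (x k))| ≤ 3 * C := by
        refine onehot I _ (by positivity) (fun k hk => A.z_norm h u q (hIN k hk)) ?_
        intro k hk l hl hkl
        by_cases h1 : s k ≤ A.rank q.1 ∧ A.rank q.1 < t k
        · right
          apply hz l hl
          rintro ⟨h2, -⟩
          have := h.succ k l hkl (hIN l hl)
          omega
        · left
          exact hz k hk h1
      have hs : ∑ k ∈ I, ((Pi.single k0 1 : ℕ → ℝ) k + (0 : ℕ → ℝ) k) = 1 := by
        simp [hk0, Pi.single_apply]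
      rw [hs]
      linarith
    · have : I = ∅ := by
        ext k; constructor
        · intro hk; exact absurd ⟨k, hk⟩ hne
        · intro hk; simp at hk
      subst this
      exact ⟨0, 0, Or.inl rfl, by simp, Or.inl rfl, by simp⟩
  · by_cases hPi : P i
    · -- allowed weight
      have hage := A.age_le q.1 i hw
      have hmi : (0 : ℝ) ≤ (mm i : ℝ)⁻¹ := by positivity
      have key : ∀ I' ⊆ I, (∀ l ∈ I', j l ≤ i → t l ≤ i) →
          ∃ g : ℕ → ℝ, WN P i g ∧ (∀ k, g k ≠ 0 → k ∈ I') ∧
            |∑ k ∈ I', A.ev q (x k - A.Q u (x k))| ≤ 6 * C * ∑ k ∈ I', g k := by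
        intro I' hI' hsm
        have hgood : ∀ l ∈ I', ∀ q' : T × ℕ, A.wt q'.1 = some i →
            |A.ev q' (x l - A.Q u (x l))| ≤ 6 * C * (mm i : ℝ)⁻¹ := by
          intro l hl q' hq'
          have hlN := hIN l (hI' hl)
          by_cases h1 : i < j l
          · exact A.ev_cut hq' (h.nrm l hlN) (fun q'' hq'' => h.wtb l hlN q'' i hq'' h1) u
          · have h2 : t l ≤ i := hsm l hl (by omega)
            have h3 := A.ev_small_rank hq' h2 (A.Q_t_z h (u := u) hlN)
            have h4 : ‖x l - A.Q u (x l)‖ ≤ 3 * C := by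
              have := A.norm_sub_Q_le u (x l)
              have := h.nrm l hlN
              linarith
            calc |A.ev q' (x l - A.Q u (x l))| ≤ (mm i : ℝ)⁻¹ * ‖x l - A.Q u (x l)‖ := h3
              _ ≤ (mm i : ℝ)⁻¹ * (3 * C) := by gcongr
              _ ≤ 6 * C * (mm i : ℝ)⁻¹ := by
                have : 0 ≤ (mm i : ℝ)⁻¹ * C := by positivity
                nlinarith
        obtain ⟨L, hLlen, hLW, hLp, hLs, hLb⟩ := A.basic_chain hC h P (i := i)
          (R := A.rank q.1) (fun q' hq' => ih _ (hr ▸ hq') q' rfl) u q.1 hw le_rfl q.2 I'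
          (hI'.trans hI) hgood
        refine ⟨fun k => (mm i : ℝ)⁻¹ * (L.map (fun f => f k)).sum,
          ⟨L, hLlen.trans (by omega), hLW, hLp, rfl⟩, ?_, ?_⟩
        · intro k hk
          by_contra hkI
          apply hk
          have : (L.map (fun f => f k)).sum = 0 := by
            apply List.sum_eq_zero
            intro y hy
            obtain ⟨f, hf, rfl⟩ := List.mem_map.mp hy
            by_contra hne
            exact hkI (hLs f hf k hne)
          simp only [this, mul_zero]
        · rw [A.sum_split] at hLb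
          rw [Finset.mul_sum] at hLb
          exact hLb
      by_cases hK : (I.filter (fun k => j k ≤ i)).Nonempty
      · set k0 := (I.filter (fun k => j k ≤ i)).max' hK with hk0def
        have hk0K := Finset.max'_mem _ hK
        rw [← hk0def, Finset.mem_filter] at hk0K
        obtain ⟨hk0I, hk0j⟩ := hk0K
        obtain ⟨g, hgW, hgs, hgb⟩ := key (I.erase k0) (Finset.erase_subset _ _) (by
          intro l hl hjl
          rw [Finset.mem_erase] at hl
          have h1 : l ≤ k0 := Finset.le_max' _ _ (Finset.mem_filter.mpr ⟨hl.2, hjl⟩)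
          have h2 : l < k0 := lt_of_le_of_ne h1 hl.1
          have := h.jt l k0 h2 (hIN k0 hk0I)
          omega)
        have hgk0 : g k0 = 0 := by
          by_contra hne
          exact (Finset.notMem_erase k0 I) (hgs k0 hne)
        refine ⟨Pi.single k0 1, g, Or.inr ⟨k0, hk0I, hgk0, rfl⟩,
          fun k hk => Finset.erase_subset _ _ (hgs k hk), Or.inr ⟨i, rfl, hPi, hgW⟩, ?_⟩
        have e1 := Finset.add_sum_erase I (fun k => A.ev q (x k - A.Q u (x k))) hk0I
        have e2 := Finset.add_sum_erase I g hk0I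
        have e3 : ∑ k ∈ I, ((Pi.single k0 1 : ℕ → ℝ) k + g k) =
            1 + ∑ k ∈ I.erase k0, g k := by
          rw [Finset.sum_add_distrib, ← e2, hgk0, zero_add]
          congr 1
          simp [Pi.single_apply, hk0I]
        rw [e3, ← e1]
        have h1 := A.z_norm h u q (hIN k0 hk0I)
        calc |A.ev q (x k0 - A.Q u (x k0)) + ∑ k ∈ I.erase k0, A.ev q (x k - A.Q u (x k))|
            ≤ |A.ev q (x k0 - A.Q u (x k0))| +
              |∑ k ∈ I.erase k0, A.ev q (x k - A.Q u (x k))| := abs_add_le _ _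
          _ ≤ 3 * C + 6 * C * ∑ k ∈ I.erase k0, g k := add_le_add h1 hgb
          _ ≤ 6 * C * (1 + ∑ k ∈ I.erase k0, g k) := by nlinarith
      · obtain ⟨g, hgW, hgs, hgb⟩ := key I subset_rfl (by
          intro l hl hjl
          exact absurd ⟨l, Finset.mem_filter.mpr ⟨hl, hjl⟩⟩ hK)
        refine ⟨0, g, Or.inl rfl, hgs, Or.inr ⟨i, rfl, hPi, hgW⟩, ?_⟩
        simpa using hgb
    · -- forbidden weight
      by_cases hne : ∃ k0, k0 ∈ I
      · obtain ⟨k0, hk0⟩ := hne
        refine ⟨Pi.single k0 1, 0, Or.inr ⟨k0, hk0, rfl, rfl⟩, by simp, Or.inl rfl, ?_⟩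
        have hs : ∑ k ∈ I, ((Pi.single k0 1 : ℕ → ℝ) k + (0 : ℕ → ℝ) k) = 1 := by
          simp [Pi.single_apply, hk0]
        rw [hs]
        rw [← Finset.sum_filter_add_sum_filter_not I (fun k => u ≤ s k)]
        have h1 : |∑ k ∈ I.filter (fun k => u ≤ s k), A.ev q (x k - A.Q u (x k))| ≤ C := by
          have : ∑ k ∈ I.filter (fun k => u ≤ s k), A.ev q (x k - A.Q u (x k)) =
              A.ev q (∑ k ∈ I.filter (fun k => u ≤ s k), x k) := by
            rw [map_sum]
            apply Finset.sum_congr rfl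
            intro k hk
            rw [Finset.mem_filter] at hk
            rw [A.z_eq_of_le h (hIN k hk.1) hk.2]
          rw [this]
          exact hP i hPi q hw _ ((Finset.filter_subset _ _).trans hI)
        have h2 : |∑ k ∈ I.filter (fun k => ¬ u ≤ s k), A.ev q (x k - A.Q u (x k))| ≤
            3 * C := by
          refine onehot _ _ (by positivity)
            (fun k hk => A.z_norm h u q (hIN k (Finset.mem_filter.mp hk).1)) ?_
          intro k hk l hl hkl
          rw [Finset.mem_filter] at hk hl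
          left
          have h3 := h.succ k l hkl (hIN l hl.1)
          rw [A.z_zero_of_ge h (hIN k hk.1) (by omega), map_zero]
        have h3 := abs_add_le (∑ k ∈ I.filter (fun k => u ≤ s k), A.ev q (x k - A.Q u (x k)))
          (∑ k ∈ I.filter (fun k => ¬ u ≤ s k), A.ev q (x k - A.Q u (x k)))
        linarith
      · have : I = ∅ := by
          ext k; constructor
          · intro hk; exact absurd ⟨k, hk⟩ hne
          · intro hk; simp at hk
        subst this
        exact ⟨0, 0, Or.inl rfl, by simp, Or.inl rfl, by simp⟩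

end AHData

end Pool.Agent.MP8c9cbf
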