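import Pool.Agent.Lib.MP_8c9cbf_an.Chain
import Pool.Agent.Lib.MP_8c9cbf_an.WBase

/-! Task BI1: the chain part of the basic inequality. -/

namespace Pool.Agent.MP8c9cbf

open Finset Filter Topology

variable {T X : Type} [NormedAddCommGroup X] [NormedSpace ℝ X] (A : AHData T X)

/-- a value is covered by a list of members of `W` -/
def BIc_Cov (P : ℕ → Prop) (D : ℝ) (I : Finset ℕ) (n : ℕ) (v : ℝ) : Prop :=
  ∃ L : List (ℕ → ℝ), L.length ≤ n ∧ (∀ f ∈ L, W P f) ∧
      L.Pairwise (fun f g => ∀ k, f k = 0 ∨ g k = 0) ∧ (∀ f ∈ L, ∀ k, f k ≠ 0 → k ∈ I) ∧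
      |v| ≤ D * ∑ k ∈ I, (L.map (fun f => f k)).sum

private theorem BIc_Cov.zero (P : ℕ → Prop) (D : ℝ) (I : Finset ℕ) : BIc_Cov P D I 0 0 :=
  ⟨[], by simp, by simp, List.Pairwise.nil, by simp, by simp⟩

private theorem BIc_Cov.mono {P : ℕ → Prop} {D : ℝ} {I : Finset ℕ} {n m : ℕ} {v : ℝ}
    (h : BIc_Cov P D I n v) (hnm : n ≤ m) : BIc_Cov P D I m v := by
  obtain ⟨L, h1, h2⟩ := h
  exact ⟨L, h1.trans hnm, h2⟩

private theorem BIc_sum_nonneg {P : ℕ → Prop} {L : List (ℕ → ℝ)} (hL : ∀ f ∈ L, W P f) (k : ℕ) :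
    0 ≤ (L.map (fun f => f k)).sum := by
  refine List.sum_nonneg fun x hx => ?_
  obtain ⟨f, hf, rfl⟩ := List.mem_map.1 hx
  exact W_nonneg (hL f hf) k

private theorem BIc_Cov.union {P : ℕ → Prop} {D : ℝ} (hD : 0 ≤ D) {I J : Finset ℕ} {n m : ℕ}
    {v w : ℝ} (hIJ : Disjoint I J) (h : BIc_Cov P D I n v) (h' : BIc_Cov P D J m w) :
    BIc_Cov P D (I ∪ J) (n + m) (v + w) := by
  obtain ⟨L, h1, h2, h3, h4, h5⟩ := h
  obtain ⟨L', h1', h2', h3', h4', h5'⟩ := h'
  refine ⟨L ++ L', ?_, ?_, ?_, ?_, ?_⟩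
  · rw [List.length_append]; omega
  · intro f hf
    rcases List.mem_append.1 hf with h | h
    · exact h2 f h
    · exact h2' f h
  · rw [List.pairwise_append]
    refine ⟨h3, h3', fun f hf g hg k => ?_⟩
    by_contra hcon
    push Not at hcon
    exact Finset.disjoint_left.1 hIJ (h4 f hf k hcon.1) (h4' g hg k hcon.2)
  · intro f hf k hk
    rcases List.mem_append.1 hf with h | h
    · exact Finset.mem_union_left _ (h4 f h k hk)
    · exact Finset.mem_union_right _ (h4' f h k hk)
  · have e1 : ∑ k ∈ I, (L.map (fun f => f k)).sum ≤ ∑ k ∈ I ∪ J, (L.map (fun f => f k)).sum :=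
      Finset.sum_le_sum_of_subset_of_nonneg Finset.subset_union_left
        fun k _ _ => BIc_sum_nonneg h2 k
    have e2 : ∑ k ∈ J, (L'.map (fun f => f k)).sum ≤ ∑ k ∈ I ∪ J, (L'.map (fun f => f k)).sum :=
      Finset.sum_le_sum_of_subset_of_nonneg Finset.subset_union_right
        fun k _ _ => BIc_sum_nonneg h2' k
    have e3 : ∑ k ∈ I ∪ J, ((L ++ L').map (fun f => f k)).sum
        = ∑ k ∈ I ∪ J, (L.map (fun f => f k)).sum + ∑ k ∈ I ∪ J, (L'.map (fun f => f k)).sum := by
      rw [← Finset.sum_add_distrib]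
      refine Finset.sum_congr rfl fun k _ => ?_
      rw [List.map_append, List.sum_append]
    rw [e3, mul_add]
    refine (abs_add_le v w).trans (add_le_add ?_ ?_)
    · exact h5.trans (mul_le_mul_of_nonneg_left e1 hD)
    · exact h5'.trans (mul_le_mul_of_nonneg_left e2 hD)

private theorem BIc_Cov.split {P : ℕ → Prop} {D : ℝ} (hD : 0 ≤ D) {I : Finset ℕ} {n m : ℕ}
    (w : ℕ → ℝ) (p : ℕ → Prop) [DecidablePred p]
    (h : BIc_Cov P D (I.filter p) n (∑ l ∈ I.filter p, w l))
    (h' : BIc_Cov P D (I.filter fun l => ¬ p l) m (∑ l ∈ I.filter (fun l => ¬ p l), w l)) :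
    BIc_Cov P D I (n + m) (∑ l ∈ I, w l) := by
  have h1 := BIc_Cov.union hD (Finset.disjoint_filter_filter_not I I p) h h'
  rw [Finset.filter_union_filter_not_eq, Finset.sum_filter_add_sum_filter_not] at h1
  exact h1

private theorem BIc_Cov.one {P : ℕ → Prop} {D : ℝ} {I : Finset ℕ}
    (hI : ∀ k ∈ I, ∀ l ∈ I, k = l) {w : ℕ → ℝ} (hw : ∀ l ∈ I, |w l| ≤ D) :
    BIc_Cov P D I 1 (∑ l ∈ I, w l) := by
  rcases I.eq_empty_or_nonempty with rfl | ⟨l0, hl0⟩
  · rw [Finset.sum_empty]
    exact (BIc_Cov.zero P D ∅).mono (by omega)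
  · have hI' : I = {l0} := by
      refine Finset.eq_singleton_iff_unique_mem.2 ⟨hl0, fun l hl => hI l hl l0 hl0⟩
    subst hI'
    refine ⟨[Pi.single l0 1], by simp, ?_, List.pairwise_singleton _ _, ?_, ?_⟩
    · intro f hf
      rw [List.mem_singleton.1 hf]
      exact W.single l0
    · intro f hf k hk
      rw [List.mem_singleton.1 hf] at hk
      rw [Finset.mem_singleton]
      by_contra hne
      exact hk (Pi.single_eq_of_ne hne 1)
    · rw [Finset.sum_singleton, Finset.sum_singleton]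
      simpa using hw l0 (Finset.mem_singleton_self l0)

namespace AHData

/-- conclusion of the basic inequality for the coordinate `q` -/
def BIconc (A : AHData T X) (C : ℝ) (N : ℕ) (x : ℕ → X) (P : ℕ → Prop) (q : T × ℕ) : Prop :=
  ∀ I : Finset ℕ, I ⊆ Finset.range N → ∀ u : ℕ,
    ∃ (e g : ℕ → ℝ), (e = 0 ∨ ∃ k0 ∈ I, g k0 = 0 ∧ e = Pi.single k0 1) ∧
      (∀ k, g k ≠ 0 → k ∈ I) ∧
      (g = 0 ∨ ∃ i, A.wt q.1 = some i ∧ P i ∧ WN P i g) ∧
      |A.ev q ((∑ k ∈ I, x k) - A.Q u (∑ k ∈ I, x k))| ≤ 6 * C * ∑ k ∈ I, (e k + g k)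

private theorem BIc_blk {s t : ℕ} {x : X} (h : A.Blk s t x) (u : ℕ) :
    A.Blk s t (x - A.Q u x) := by
  constructor
  · rw [map_sub, h.1, A.Q_Q, Blk.Q_le A h (min_le_left s u), sub_zero]
  · rw [map_sub, h.2, A.Q_Q, min_comm, ← A.Q_Q, h.2]

private theorem BIc_cov {C : ℝ} (hC : 0 ≤ C) {N : ℕ} {x : ℕ → X} {s t j : ℕ → ℕ}
    (h : A.RIS C N x s t j) (P : ℕ → Prop) {i R : ℕ}
    (hIH : ∀ q : T × ℕ, A.rank q.1 < R → A.BIconc C N x P q) (u : ℕ) :
    ∀ (r : ℕ) (τ : T), A.rank τ = r → A.wt τ = some i → A.rank τ ≤ R → ∀ (k : ℕ) (I : Finset ℕ),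
      I ⊆ Finset.range N →
      (∀ l ∈ I, ∀ q' : T × ℕ, A.wt q'.1 = some i →
        |A.ev q' (x l - A.Q u (x l))| ≤ 6 * C * (mm i : ℝ)⁻¹) →
      BIc_Cov P (6 * C * (mm i : ℝ)⁻¹) I (4 * A.age τ)
        (∑ l ∈ I, A.ev (τ, k) (x l - A.Q u (x l))) := by
  intro r
  induction r using Nat.strong_induction_on with
  | _ r ih =>
  intro τ hr hw hR k I hI hgood
  have hD : 0 ≤ 6 * C * (mm i : ℝ)⁻¹ := by positivity
  have hz : ∀ l ∈ I, A.Blk (s l) (t l) (x l - A.Q u (x l)) := fun l hl =>
    BIc_blk A (h.blk l (Finset.mem_range.1 (hI hl))) u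
  obtain ⟨b', hb1, hb2, -, hb4⟩ := A.node_der hw k
  -- the level of the predecessor
  have hlev : A.lev τ ≤ A.rank τ := by
    unfold TreeData.lev
    rcases hp : A.prv τ with _ | ξ
    · simp
    · have := A.prv_rank τ ξ hp
      simp only [Option.elim]
      omega
  -- disjointness of the blocks: at most one block contains a given level in its interior
  have hone : ∀ (J : Finset ℕ) (v : ℕ), J ⊆ I → (∀ l ∈ J, s l ≤ v ∧ v < t l) →
      ∀ l ∈ J, ∀ l' ∈ J, l = l' := by
    intro J v hJ hv l hl l' hl'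
    have h1 := hv l hl
    have h2 := hv l' hl'
    rcases lt_trichotomy l l' with h3 | h3 | h3
    · have := h.succ l l' h3 (Finset.mem_range.1 (hI (hJ hl')))
      omega
    · exact h3
    · have := h.succ l' l h3 (Finset.mem_range.1 (hI (hJ hl)))
      omega
  -- the part handled by the predecessor
  have part1 : BIc_Cov P (6 * C * (mm i : ℝ)⁻¹) (I.filter fun l => t l ≤ A.lev τ)
      (4 * A.age τ - 4) (∑ l ∈ I.filter (fun l => t l ≤ A.lev τ),
        A.ev (τ, k) (x l - A.Q u (x l))) := by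
    have hev : ∀ l ∈ I.filter (fun l => t l ≤ A.lev τ), A.ev (τ, k) (x l - A.Q u (x l))
        = (A.prv τ).elim 0 fun ξ => A.ev (ξ, k) (x l - A.Q u (x l)) := by
      intro l hl
      rw [Finset.mem_filter] at hl
      have hb := hz l hl.1
      rw [hb4, Blk.dst_ge A hb (q := (τ, k)) (hl.2.trans hlev), Blk.Q_ge A hb hl.2, sub_self,
        A.pair_zero, mul_zero, zero_add, add_zero]
    rw [Finset.sum_congr rfl hev]
    rcases hp : A.prv τ with _ | ξ
    · simp only [Option.elim, Finset.sum_const_zero]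
      exact (BIc_Cov.zero _ _ _).mono (by omega)
    · simp only [Option.elim]
      have h1 := A.prv_rank τ ξ hp
      have h2 := A.prv_wt τ ξ hp
      have h3 := A.prv_age τ ξ hp
      refine (ih (A.rank ξ) (by omega) ξ rfl (h2.trans hw) (by omega) k _
        ((Finset.filter_subset _ _).trans hI) fun l hl => hgood l (Finset.mem_filter.1 hl).1).mono ?_
      omega
  -- the block split by the level of the predecessor
  have part2 : BIc_Cov P (6 * C * (mm i : ℝ)⁻¹)
      ((I.filter fun l => ¬ t l ≤ A.lev τ).filter fun l => s l < A.lev τ) 1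
      (∑ l ∈ (I.filter fun l => ¬ t l ≤ A.lev τ).filter (fun l => s l < A.lev τ),
        A.ev (τ, k) (x l - A.Q u (x l))) := by
    refine BIc_Cov.one (hone _ (A.lev τ) ?_ ?_) ?_
    · exact (Finset.filter_subset _ _).trans (Finset.filter_subset _ _)
    · intro l hl
      rw [Finset.mem_filter, Finset.mem_filter] at hl
      omega
    · intro l hl
      rw [Finset.mem_filter, Finset.mem_filter] at hl
      exact hgood l hl.1.1 (τ, k) hw
  -- the blocks between the level and the rank of `τ`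
  have part3 : BIc_Cov P (6 * C * (mm i : ℝ)⁻¹)
      (((I.filter fun l => ¬ t l ≤ A.lev τ).filter fun l => ¬ s l < A.lev τ).filter
        fun l => t l ≤ A.rank τ) 2
      (∑ l ∈ ((I.filter fun l => ¬ t l ≤ A.lev τ).filter fun l => ¬ s l < A.lev τ).filter
        (fun l => t l ≤ A.rank τ), A.ev (τ, k) (x l - A.Q u (x l))) := by
    set J := ((I.filter fun l => ¬ t l ≤ A.lev τ).filter fun l => ¬ s l < A.lev τ).filter
        (fun l => t l ≤ A.rank τ) with hJ
    have hmem : ∀ l ∈ J, l ∈ I ∧ A.lev τ ≤ s l ∧ t l ≤ A.rank τ := by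
      intro l hl
      rw [hJ, Finset.mem_filter, Finset.mem_filter, Finset.mem_filter] at hl
      exact ⟨hl.1.1.1, not_lt.1 hl.1.2, hl.2⟩
    have hJI : J ⊆ I := fun l hl => (hmem l hl).1
    have hev : ∀ l ∈ J, A.ev (τ, k) (x l - A.Q u (x l))
        = (mm i : ℝ)⁻¹ * A.pair b' (x l - A.Q u (x l)) := by
      intro l hl
      obtain ⟨h1, h2, h3⟩ := hmem l hl
      have hb := hz l h1
      have h4 : ((A.prv τ).elim 0 fun ξ => A.ev (ξ, k) (x l - A.Q u (x l))) = 0 := by
        rcases hp : A.prv τ with _ | ξ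
        · rfl
        · simp only [Option.elim]
          have h5 : A.lev τ = A.rank ξ + 1 := by
            unfold TreeData.lev
            rw [hp]
            rfl
          exact Blk.ev_lt A hb (q := (ξ, k)) (by simp only; omega)
      rw [hb4, Blk.dst_ge A hb (q := (τ, k)) h3, h4, Blk.Q_le A hb h2, sub_zero, zero_add,
        zero_add]
    have hsum : ∑ l ∈ J, A.ev (τ, k) (x l - A.Q u (x l))
        = (mm i : ℝ)⁻¹ * A.pair b' ((∑ l ∈ J, x l) - A.Q u (∑ l ∈ J, x l)) := by
      rw [Finset.sum_congr rfl hev, ← Finset.mul_sum, ← A.pair_sum, Finset.sum_sub_distrib,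
        map_sum]
    rw [hsum]
    rcases b'.support.eq_empty_or_nonempty with hemp | hne
    · have h1 : A.pair b' ((∑ l ∈ J, x l) - A.Q u (∑ l ∈ J, x l)) = 0 := by
        unfold pair
        rw [hemp, Finset.sum_empty]
      rw [h1, mul_zero]
      exact (BIc_Cov.zero _ _ _).mono (by omega)
    · obtain ⟨q', hq', hmax⟩ := Finset.exists_max_image b'.support
        (fun q => |A.ev q ((∑ l ∈ J, x l) - A.Q u (∑ l ∈ J, x l))|) hne
      have hpair := A.abs_pair_le hb1 (abs_nonneg _) hmax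
      obtain ⟨e, g, he, hg, hgW, hbd⟩ := hIH q' (lt_of_lt_of_le (hb2 q' hq') hR) J
        (hJI.trans hI) u
      have hL : ∃ L : List (ℕ → ℝ), L.length ≤ 2 ∧ (∀ f ∈ L, W P f) ∧
          L.Pairwise (fun f g => ∀ k, f k = 0 ∨ g k = 0) ∧ (∀ f ∈ L, ∀ k, f k ≠ 0 → k ∈ J) ∧
          ∀ k, (L.map (fun f => f k)).sum = e k + g k := by
        rcases he with he | ⟨k0, hk0, hgk0, he⟩
        · rcases hgW with hg0 | ⟨i', -, hPi', hWN⟩
          · refine ⟨[], by simp, by simp, List.Pairwise.nil, by simp, fun k => ?_⟩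
            rw [he, hg0]; simp
          · refine ⟨[g], by simp, ?_, List.pairwise_singleton _ _, ?_, fun k => ?_⟩
            · intro f hf
              rw [List.mem_singleton.1 hf]
              exact WN.toW hWN hPi'
            · intro f hf
              rw [List.mem_singleton.1 hf]
              exact hg
            · rw [he]; simp
        · have he' : ∀ k, e k ≠ 0 → k = k0 := by
            intro k hk
            by_contra hne
            rw [he, Pi.single_eq_of_ne hne] at hk
            exact hk rfl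
          rcases hgW with hg0 | ⟨i', -, hPi', hWN⟩
          · refine ⟨[e], by simp, ?_, List.pairwise_singleton _ _, ?_, fun k => ?_⟩
            · intro f hf
              rw [List.mem_singleton.1 hf, he]
              exact W.single k0
            · intro f hf k hk
              rw [List.mem_singleton.1 hf] at hk
              rw [he' k hk]
              exact hk0
            · rw [hg0]; simp
          · refine ⟨[e, g], by simp, ?_, ?_, ?_, fun k => ?_⟩
            · intro f hf
              rcases List.mem_cons.1 hf with hf | hf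
              · rw [hf, he]
                exact W.single k0
              · rw [List.mem_singleton.1 hf]
                exact WN.toW hWN hPi'
            · rw [List.pairwise_cons]
              refine ⟨fun f hf k => ?_, List.pairwise_singleton _ _⟩
              rw [List.mem_singleton.1 hf]
              by_cases hk : e k = 0
              · exact Or.inl hk
              · rw [he' k hk]
                exact Or.inr hgk0
            · intro f hf k hk
              rcases List.mem_cons.1 hf with hf | hf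
              · rw [hf] at hk
                rw [he' k hk]
                exact hk0
              · rw [List.mem_singleton.1 hf] at hk
                exact hg k hk
            · simp
      obtain ⟨L, h1, h2, h3, h4, h5⟩ := hL
      refine ⟨L, h1, h2, h3, h4, ?_⟩
      rw [abs_mul, abs_of_nonneg (by positivity : (0 : ℝ) ≤ (mm i : ℝ)⁻¹)]
      calc (mm i : ℝ)⁻¹ * |A.pair b' ((∑ l ∈ J, x l) - A.Q u (∑ l ∈ J, x l))|
          ≤ (mm i : ℝ)⁻¹ * (6 * C * ∑ k ∈ J, (e k + g k)) :=
            mul_le_mul_of_nonneg_left (hpair.trans hbd) (by positivity)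
        _ = 6 * C * (mm i : ℝ)⁻¹ * ∑ k ∈ J, (L.map (fun f => f k)).sum := by
            rw [Finset.sum_congr rfl fun k _ => h5 k]
            ring
  -- the block split by the rank of `τ`
  have part4 : BIc_Cov P (6 * C * (mm i : ℝ)⁻¹)
      ((((I.filter fun l => ¬ t l ≤ A.lev τ).filter fun l => ¬ s l < A.lev τ).filter
        fun l => ¬ t l ≤ A.rank τ).filter fun l => s l ≤ A.rank τ) 1
      (∑ l ∈ (((I.filter fun l => ¬ t l ≤ A.lev τ).filter fun l => ¬ s l < A.lev τ).filter
        (fun l => ¬ t l ≤ A.rank τ)).filter (fun l => s l ≤ A.rank τ),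
        A.ev (τ, k) (x l - A.Q u (x l))) := by
    refine BIc_Cov.one (hone _ (A.rank τ) ?_ ?_) ?_
    · exact (Finset.filter_subset _ _).trans ((Finset.filter_subset _ _).trans
        ((Finset.filter_subset _ _).trans (Finset.filter_subset _ _)))
    · intro l hl
      rw [Finset.mem_filter, Finset.mem_filter, Finset.mem_filter, Finset.mem_filter] at hl
      omega
    · intro l hl
      rw [Finset.mem_filter, Finset.mem_filter, Finset.mem_filter, Finset.mem_filter] at hl
      exact hgood l hl.1.1.1.1 (τ, k) hw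
  -- the blocks after the rank of `τ`
  have part5 : BIc_Cov P (6 * C * (mm i : ℝ)⁻¹)
      ((((I.filter fun l => ¬ t l ≤ A.lev τ).filter fun l => ¬ s l < A.lev τ).filter
        fun l => ¬ t l ≤ A.rank τ).filter fun l => ¬ s l ≤ A.rank τ) 0
      (∑ l ∈ (((I.filter fun l => ¬ t l ≤ A.lev τ).filter fun l => ¬ s l < A.lev τ).filter
        (fun l => ¬ t l ≤ A.rank τ)).filter (fun l => ¬ s l ≤ A.rank τ),
        A.ev (τ, k) (x l - A.Q u (x l))) := by
    rw [Finset.sum_eq_zero]
    · exact BIc_Cov.zero _ _ _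
    · intro l hl
      rw [Finset.mem_filter, Finset.mem_filter, Finset.mem_filter, Finset.mem_filter] at hl
      exact Blk.ev_lt A (hz l hl.1.1.1.1) (q := (τ, k)) (by simp only; omega)
  have hage := A.age_pos τ i hw
  exact (BIc_Cov.split hD _ _ part1 (BIc_Cov.split hD _ _ part2 (BIc_Cov.split hD _ _ part3
    (BIc_Cov.split hD _ _ part4 part5)))).mono (by omega)

/-- strong induction on `rank τ` (going down the chain of predecessors); four new pieces per
step -/
theorem basic_chain {C : ℝ} (hC : 0 ≤ C) {N : ℕ} {x : ℕ → X} {s t j : ℕ → ℕ}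
    (h : A.RIS C N x s t j) (P : ℕ → Prop) {i R : ℕ}
    (hIH : ∀ q : T × ℕ, A.rank q.1 < R → A.BIconc C N x P q) (u : ℕ) (τ : T)
    (hw : A.wt τ = some i) (hR : A.rank τ ≤ R) (k : ℕ) (I : Finset ℕ)
    (hI : I ⊆ Finset.range N)
    (hgood : ∀ l ∈ I, ∀ q' : T × ℕ, A.wt q'.1 = some i →
      |A.ev q' (x l - A.Q u (x l))| ≤ 6 * C * (mm i : ℝ)⁻¹) :
    ∃ L : List (ℕ → ℝ), L.length ≤ 4 * A.age τ ∧ (∀ f ∈ L, W P f) ∧
      L.Pairwise (fun f g => ∀ k, f k = 0 ∨ g k = 0) ∧ (∀ f ∈ L, ∀ k, f k ≠ 0 → k ∈ I) ∧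
      |A.ev (τ, k) ((∑ k ∈ I, x k) - A.Q u (∑ k ∈ I, x k))| ≤
        6 * C * ((mm i : ℝ)⁻¹ * ∑ k ∈ I, (L.map (fun f => f k)).sum) := by
  obtain ⟨L, h1, h2, h3, h4, h5⟩ := BIc_cov A hC h P hIH u _ τ rfl hw hR k I hI hgood
  refine ⟨L, h1, h2, h3, h4, ?_⟩
  rw [map_sum (A.Q u), ← Finset.sum_sub_distrib, map_sum, ← mul_assoc]
  exact h5

end AHData

end Pool.Agent.MP8c9cbf
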