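import Pool.Agent.Lib.MP_8c9cbf_an.Chain
import Pool.Agent.Lib.MP_8c9cbf_an.BV3

/-! Task BV1: the base vectors `y_n`. -/

namespace Pool.Agent.MP8c9cbf

open Finset Filter Topology

variable {T X : Type} [NormedAddCommGroup X] [NormedSpace ℝ X] (A : AHData T X)

namespace AHData

/-- the base vectors: one base coordinate of rank `n` is `1`, all other coordinates of rank `≤ n`
are zero -/
structure IsBase (A : AHData T X) (n : ℕ) (y : X) : Prop where
  blk : A.Blk n (n + 1) y
  nrm : ‖y‖ ≤ 2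
  wtb : ∀ (q : T × ℕ) i, A.wt q.1 = some i → |A.ev q y| ≤ 8 * (mm i : ℝ)⁻¹
  one_le : 1 ≤ ‖y‖

theorem exists_base (n : ℕ) : ∃ y : X, A.IsBase n y := by
  classical
  obtain ⟨y, hy1, hy2, hy3⟩ := A.ext (n + 1) (fun τ => if τ = A.bs n 0 then 1 else 0) 1
    zero_le_one (by
      intro τ
      split_ifs <;> simp) (fun ε hε => (Set.finite_singleton (A.bs n 0)).subset (by
        rintro σ ⟨-, hb⟩
        rw [Set.mem_singleton_iff]
        by_contra hne
        rw [if_neg hne, abs_zero] at hb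
        linarith))
  rw [mul_one] at hy3
  have hzero : ∀ q : T × ℕ, A.rank q.1 < n + 1 → q.1 ≠ A.bs n 0 → A.ev q y = 0 := by
    rintro ⟨τ, k⟩ hq hne
    rcases Nat.eq_zero_or_pos k with rfl | hk
    · rw [hy2 τ hq, if_neg hne]
    · exact A.ev_zero _ _ hk
  refine ⟨y, ⟨?_, hy1⟩, hy3, ?_, ?_⟩
  · apply A.Q_eq_zero
    intro q hq
    refine hzero q (by omega) ?_
    intro h
    rw [h, A.bs_rank] at hq
    omega
  · intro q i hw
    have hm := mm_inv_pos i
    have hne : ∀ q' : T × ℕ, A.wt q'.1 = some i → q'.1 ≠ A.bs n 0 := by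
      intro q' hw' h
      rw [h, A.bs_wt] at hw'
      exact absurd hw' (by simp)
    rcases Nat.lt_or_ge (A.rank q.1) (n + 1) with h | h
    · rw [hzero q h (hne q hw), abs_zero]
      positivity
    · have h1 := ev_Q_ge A hw h (x := y) le_rfl (by
        intro q' hw' hq'
        rw [hzero q' hq' (hne q' hw'), abs_zero])
      rw [hy1, zero_add] at h1
      refine h1.trans ?_
      exact mul_le_mul_of_nonneg_right (by linarith) hm.le
  · have h1 := A.ev_le (A.bs n 0, 0) y
    rw [hy2 (A.bs n 0) (by rw [A.bs_rank]; exact Nat.lt_succ_self n), if_pos rfl, abs_one] at h1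
    exact h1

theorem IsBase.abs_le {n : ℕ} {y : X} (h : A.IsBase n y) (c : ℝ) : |c| ≤ ‖c • y‖ := by
  rw [norm_smul, Real.norm_eq_abs]
  exact le_mul_of_one_le_right (abs_nonneg c) h.one_le

theorem ris_base {y : ℕ → X} (hy : ∀ n, A.IsBase n (y n)) :
    ∀ N, A.RIS 8 N y (fun k => k) (fun k => k + 1) (fun k => k + k) :=
  A.ris_of_all (C := 8) (x := y) (s := fun k => k) (t := fun k => k + 1)
    (fun k => (hy k).blk) (fun k => Nat.le_succ k) (fun k => le_refl _)
    (fun k => (hy k).nrm.trans (by norm_num)) (fun k q i hq => (hy k).wtb q i hq)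

end AHData

end Pool.Agent.MP8c9cbf
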