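import Pool.Agent.Lib.MP_8c9cbf_an.B1
import Pool.Agent.Lib.MP_8c9cbf_an.B2
import Pool.Agent.Lib.MP_8c9cbf_an.B3

/-! Elementary facts. -/
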