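import Pool.Agent.Lib.MP_8c9cbf_an.Tail

/-! The predicate: `W` is small in the tails along every RIS. -/

namespace Pool.Agent.MP8c9cbf

open Finset Filter Topology

variable {T X : Type} [NormedAddCommGroup X] [NormedSpace ℝ X]

namespace AHData

/-- `lim_p limsup_k ‖(I - Q p) W x_k‖ = 0` for every RIS -/
def RNul (A : AHData T X) (W : X →L[ℝ] X) : Prop :=
  ∀ (C : ℝ) (x : ℕ → X) (s t j : ℕ → ℕ), (∀ N, A.RIS C N x s t j) →
    ∀ δ : ℝ, 0 < δ → ∃ p, ∀ᶠ k in atTop, ‖A.tl p (W (x k))‖ < δ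

end AHData

end Pool.Agent.MP8c9cbf
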