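import Pool.Agent.Lib.MP_8c9cbf_an.CP2
import Pool.Agent.Lib.MP_8c9cbf_an.RNul

/-! Row R3: bounded block sequences.  (Model: `CP2.lean`, `block_null`, in this folder.) -/

namespace Pool.Agent.MP8c9cbf

open Finset Filter Topology

variable {T X : Type} [NormedAddCommGroup X] [NormedSpace ℝ X] (A : AHData T X)

namespace AHData

/-- Assume not: for some `ε` and every `p` frequently `ε ≤ ‖tl p (W x_k)‖`; pass to a subsequence
with `ε ≤ ‖tl k (W x_k)‖` for all `k`.  For every `j` the vectors `x'_(j,k)` of `split_weight` form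
an RIS in `k`, so there is `p_j` with `‖tl p_j (W x'_(j,k))‖ < ε / 12` for all large `k`.  Choose
`j_r`, `k_r` recursively as in `block_null`, `k_r` also `≥ p_(j_r)` and so large that
`‖tl p_(j_r) (W x'_(j_r,k_r))‖ < ε / 12`, hence `‖tl k_r (W x'_(j_r,k_r))‖ ≤ ε / 4`
(`norm_tl_mono`).  `x_(k_r) - x'_(j_r,k_r)` is an RIS; there is `p*` with
`‖tl p* (W (x_(k_r) - x'))‖ < ε / 12` for large `r`; as soon as `k_r ≥ p*` the norm of
`tl k_r (W (x_(k_r) - x'))` is `≤ ε / 4`: contradiction. -/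
theorem block_tl (W : X →L[ℝ] X) (h : A.RNul W) {C : ℝ} {x : ℕ → X} {s t : ℕ → ℕ}
    (hb : ∀ k, A.Blk (s k) (t k) (x k)) (hst : ∀ k, s k ≤ t k) (hts : ∀ k, t k ≤ s (k + 1))
    (hn : ∀ k, ‖x k‖ ≤ C) : ∀ δ : ℝ, 0 < δ → ∃ p, ∀ᶠ k in atTop, ‖A.tl p (W (x k))‖ < δ := by
  have hC : 0 ≤ C := le_trans (norm_nonneg _) (hn 0)
  intro ε hε
  by_contra hcon
  push Not at hcon
  obtain ⟨f, hf, hfb⟩ := Filter.extraction_forall_of_frequently hcon
  have hsmono0 : Monotone s := monotone_nat_of_le_succ fun k => (hst k).trans (hts k)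
  have hb1 : ∀ k, A.Blk ((s ∘ f) k) ((t ∘ f) k) ((x ∘ f) k) := fun k => hb _
  have hst1 : ∀ k, (s ∘ f) k ≤ (t ∘ f) k := fun k => hst _
  have hts1 : ∀ k, (t ∘ f) k ≤ (s ∘ f) (k + 1) := fun k =>
    (hts (f k)).trans (hsmono0 (hf (Nat.lt_succ_self k)))
  have hn1 : ∀ k, ‖(x ∘ f) k‖ ≤ C := fun k => hn _
  have hbig : ∀ k, ε ≤ ‖A.tl k (W ((x ∘ f) k))‖ := hfb
  clear hcon hfb hsmono0 hn hts hst hb
  generalize x ∘ f = x1 at hb1 hn1 hbig
  generalize s ∘ f = s1 at hb1 hst1 hts1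
  generalize t ∘ f = t1 at hb1 hst1 hts1
  -- the splittings
  have hsp := fun (j k : ℕ) => A.split_weight (hb1 k) j
  choose x' hx'b hx'n hx'w hx'd using hsp
  -- for fixed `j` the vectors `x' j k` form an RIS
  have hnull : ∀ j, ∃ p, ∀ᶠ k in atTop, ‖A.tl p (W (x' j k))‖ < ε / 12 := by
    intro j
    have hm4 : (4 : ℝ) ≤ mm j := by exact_mod_cast four_le_mm j
    refine h (8 * mm j * C) (x' j) s1 t1 (fun k => s1 k + k) ?_ (ε / 12) (by positivity)
    refine A.ris_of_all (fun k => hx'b j k) hst1 hts1 ?_ ?_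
    · intro k
      have h1 := hx'n j k
      have h2 := hn1 k
      nlinarith
    · intro k q i hq
      refine (hx'w j k q i hq).trans ?_
      have h3 : 0 ≤ (mm i : ℝ)⁻¹ := (mm_inv_pos i).le
      refine mul_le_mul_of_nonneg_right ?_ h3
      have h2 := hn1 k
      exact mul_le_mul_of_nonneg_left h2 (by positivity)
  -- choice of the next index
  have hch : ∀ j M : ℕ, ∃ k, M ≤ k ∧ ‖A.tl k (W (x' j k))‖ ≤ ε / 4 := by
    intro j M
    obtain ⟨p, hp⟩ := hnull j
    obtain ⟨k, hk1, hk2⟩ := (hp.and (eventually_ge_atTop (max M p))).exists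
    refine ⟨k, (le_max_left _ _).trans hk2, ?_⟩
    have := A.norm_tl_mono ((le_max_right M p).trans hk2) (W (x' j k))
    linarith
  choose κ hκM hκsmall using hch
  let st : ℕ → ℕ × ℕ := fun r => Nat.rec (0, κ 0 0)
    (fun _ p => (max (t1 p.2) p.1 + 1, κ (max (t1 p.2) p.1 + 1) (p.2 + 1))) r
  let jr : ℕ → ℕ := fun r => (st r).1
  let kr : ℕ → ℕ := fun r => (st r).2
  have hj_succ : ∀ r, jr (r + 1) = max (t1 (kr r)) (jr r) + 1 := fun r => rfl
  have hk_succ : ∀ r, kr (r + 1) = κ (jr (r + 1)) (kr r + 1) := fun r => rfl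
  have hk_all : ∀ r, ‖A.tl (kr r) (W (x' (jr r) (kr r)))‖ ≤ ε / 4 := by
    intro r
    cases r with
    | zero => exact hκsmall 0 0
    | succ r => rw [hk_succ]; exact hκsmall _ _
  have hjmono : StrictMono jr := by
    refine strictMono_nat_of_lt_succ fun r => ?_
    rw [hj_succ]
    have := le_max_right (t1 (kr r)) (jr r)
    omega
  have hkmono : StrictMono kr := by
    refine strictMono_nat_of_lt_succ fun r => ?_
    rw [hk_succ]
    have := hκM (jr (r + 1)) (kr r + 1)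
    omega
  have hsmono : Monotone s1 := monotone_nat_of_le_succ fun k => (hst1 k).trans (hts1 k)
  have hris : ∀ N, A.RIS (12 * C) N (fun r => x1 (kr r) - x' (jr r) (kr r))
      (fun r => s1 (kr r)) (fun r => t1 (kr r)) jr := by
    intro N
    refine ⟨?_, ?_, ?_, ?_, ?_, ?_⟩
    · intro k _
      exact AHData.Blk.sub A (hb1 _) (hx'b _ _)
    · intro k l hkl _
      have h1 : kr k + 1 ≤ kr l := hkmono hkl
      exact (hts1 (kr k)).trans (hsmono h1)
    · intro k _
      have h1 := hx'n (jr k) (kr k)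
      have h2 := hn1 (kr k)
      have h3 := norm_sub_le (x1 (kr k)) (x' (jr k) (kr k))
      have h4 := norm_nonneg (x1 (kr k))
      linarith
    · intro k l hkl _
      exact hjmono hkl
    · intro k l hkl _
      have h1 : jr (k + 1) ≤ jr l := hjmono.monotone hkl
      have h2 := hj_succ k
      have h3 := le_max_left (t1 (kr k)) (jr k)
      show t1 (kr k) ≤ jr l
      omega
    · intro k _ q i hq hi
      refine (hx'd (jr k) (kr k) q i hq hi.le).trans ?_
      have h3 : 0 ≤ (mm i : ℝ)⁻¹ := (mm_inv_pos i).le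
      refine mul_le_mul_of_nonneg_right ?_ h3
      have h2 := hn1 (kr k)
      linarith
  obtain ⟨p, hp⟩ := h (12 * C) _ _ _ _ hris (ε / 12) (by positivity)
  obtain ⟨r, hr1, hr2⟩ := (hp.and (eventually_ge_atTop p)).exists
  have h1 : p ≤ kr r := hr2.trans (hkmono.le_apply (x := r))
  have h2 := A.norm_tl_mono h1 (W (x1 (kr r) - x' (jr r) (kr r)))
  have h3 := hk_all r
  have h4 := hbig (kr r)
  have h5 : A.tl (kr r) (W (x1 (kr r))) = A.tl (kr r) (W (x1 (kr r) - x' (jr r) (kr r))) +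
      A.tl (kr r) (W (x' (jr r) (kr r))) := by
    rw [map_sub, map_sub]; abel
  rw [h5] at h4
  have h6 := norm_add_le (A.tl (kr r) (W (x1 (kr r) - x' (jr r) (kr r))))
    (A.tl (kr r) (W (x' (jr r) (kr r))))
  linarith

end AHData

end Pool.Agent.MP8c9cbf
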