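import Pool.Agent.Lib.MP_8c9cbf_an.Basic

/-! Task C1: estimates obtained by going down the chain of predecessors. -/

namespace Pool.Agent.MP8c9cbf

open Finset Filter Topology

variable {T X : Type} [NormedAddCommGroup X] [NormedSpace ℝ X] (A : AHData T X)

namespace AHData

private theorem C1_aux (i u : ℕ) {x : X} {c : ℝ} (hc : 0 ≤ c)
    (h : ∀ q' : T × ℕ, A.wt q'.1 = some i → A.rank q'.1 < u → |A.ev q' x| ≤ c) :
    ∀ (r : ℕ) (τ : T) (k : ℕ), A.rank τ = r → A.wt τ = some i → u ≤ A.rank τ →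
      |A.ev (τ, k) (A.Q u x)| ≤ c + 4 * ‖x‖ * (mm i : ℝ)⁻¹ := by
  intro r
  induction r using Nat.strong_induction_on with
  | _ r ih =>
  intro τ k hr hw hu
  have hm : (0 : ℝ) ≤ (mm i : ℝ)⁻¹ := by positivity
  have hx : 0 ≤ ‖x‖ := norm_nonneg x
  obtain ⟨b', hb1, -, -, hb4⟩ := A.node_der hw k
  rw [hb4, A.dst_Q_high (q := (τ, k)) hu, zero_add]
  rcases hp : A.prv τ with _ | ξ
  · have hl : A.lev τ = 0 := by
      unfold TreeData.lev
      rw [hp]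
      rfl
    simp only [Option.elim]
    rw [hl, A.Q_zero, sub_zero, zero_add, abs_mul, abs_of_nonneg hm]
    have h1 := A.abs_pair_le_norm hb1 (A.Q u x)
    have h2 := A.Q_norm u x
    calc (mm i : ℝ)⁻¹ * |A.pair b' (A.Q u x)| ≤ (mm i : ℝ)⁻¹ * (2 * ‖x‖) :=
          mul_le_mul_of_nonneg_left (h1.trans h2) hm
      _ ≤ c + 4 * ‖x‖ * (mm i : ℝ)⁻¹ := by nlinarith [mul_nonneg hx hm]
  · have hl : A.lev τ = A.rank ξ + 1 := by
      unfold TreeData.lev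
      rw [hp]
      rfl
    have hξw : A.wt ξ = some i := (A.prv_wt τ ξ hp).trans hw
    have hξr := A.prv_rank τ ξ hp
    simp only [Option.elim]
    rw [hl, A.Q_Q]
    by_cases hu' : u ≤ A.rank ξ
    · have e1 : min (A.rank ξ + 1) u = u := by omega
      rw [e1, sub_self, A.pair_zero, mul_zero, add_zero]
      exact ih (A.rank ξ) (by omega) ξ k rfl hξw hu'
    · have e1 : min (A.rank ξ + 1) u = A.rank ξ + 1 := by omega
      rw [e1, A.ev_Q u (ξ, k) x (by simp only; omega)]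
      have h1 := h (ξ, k) hξw (by simp only; omega)
      have h2 : |A.pair b' (A.Q u x - A.Q (A.rank ξ + 1) x)| ≤ 4 * ‖x‖ := by
        refine (A.abs_pair_le_norm hb1 _).trans ((norm_sub_le _ _).trans ?_)
        have h3 := A.Q_norm u x
        have h4 := A.Q_norm (A.rank ξ + 1) x
        linarith
      calc |A.ev (ξ, k) x + (mm i : ℝ)⁻¹ * A.pair b' (A.Q u x - A.Q (A.rank ξ + 1) x)|
          ≤ |A.ev (ξ, k) x| + |(mm i : ℝ)⁻¹ * A.pair b' (A.Q u x - A.Q (A.rank ξ + 1) x)| :=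
            abs_add_le _ _
        _ ≤ c + (mm i : ℝ)⁻¹ * (4 * ‖x‖) := by
            rw [abs_mul, abs_of_nonneg hm]
            exact add_le_add h1 (mul_le_mul_of_nonneg_left h2 hm)
        _ = c + 4 * ‖x‖ * (mm i : ℝ)⁻¹ := by ring

/-- induction on `rank q.1`; one step: if the predecessor `ξ` has rank `≥ u` then
`ev q (Q u x) = ev (ξ,k) (Q u x)`; otherwise (`ξ` of rank `< u`, or none)
`|ev q (Q u x)| ≤ c + (1/m_i) * 4‖x‖` -/
theorem ev_Q_ge {q : T × ℕ} {i u : ℕ} (hw : A.wt q.1 = some i) (hu : u ≤ A.rank q.1) {x : X}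
    {c : ℝ} (hc : 0 ≤ c)
    (h : ∀ q' : T × ℕ, A.wt q'.1 = some i → A.rank q'.1 < u → |A.ev q' x| ≤ c) :
    |A.ev q (A.Q u x)| ≤ c + 4 * ‖x‖ * (mm i : ℝ)⁻¹ :=
  C1_aux A i u hc h _ q.1 q.2 rfl hw hu

/-- weight estimate with a cut -/
theorem ev_cut {q : T × ℕ} {i : ℕ} (hw : A.wt q.1 = some i) {x : X} {C : ℝ}
    (hn : ‖x‖ ≤ C)
    (h : ∀ q' : T × ℕ, A.wt q'.1 = some i → |A.ev q' x| ≤ C * (mm i : ℝ)⁻¹) (u : ℕ) :
    |A.ev q (x - A.Q u x)| ≤ 6 * C * (mm i : ℝ)⁻¹ := by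
  have hm : (0 : ℝ) ≤ (mm i : ℝ)⁻¹ := by positivity
  have hC : 0 ≤ C := (norm_nonneg x).trans hn
  rw [map_sub]
  rcases lt_or_ge (A.rank q.1) u with h1 | h1
  · rw [A.ev_Q u q x h1, sub_self, abs_zero]
    positivity
  · have h2 := A.ev_Q_ge hw h1 (x := x) (c := C * (mm i : ℝ)⁻¹) (by positivity)
      fun q' hq' _ => h q' hq'
    have h3 := h q hw
    have h4 : 4 * ‖x‖ * (mm i : ℝ)⁻¹ ≤ 4 * C * (mm i : ℝ)⁻¹ :=
      mul_le_mul_of_nonneg_right (by linarith) hm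
    calc |A.ev q x - A.ev q (A.Q u x)| ≤ |A.ev q x| + |A.ev q (A.Q u x)| := abs_sub _ _
      _ ≤ 6 * C * (mm i : ℝ)⁻¹ := by nlinarith

end AHData

end Pool.Agent.MP8c9cbf
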