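import Pool.Agent.Lib.MP_8c9cbf_an.Basic

/-! The tail operators `y ↦ y - Q p y`. -/

namespace Pool.Agent.MP8c9cbf

open Finset Filter Topology

variable {T X : Type} [NormedAddCommGroup X] [NormedSpace ℝ X] (A : AHData T X)

namespace AHData

/-- the tail operator `I - Q p` -/
noncomputable def tl (A : AHData T X) (p : ℕ) : X →L[ℝ] X := ContinuousLinearMap.id ℝ X - A.Q p

theorem tl_apply (p : ℕ) (y : X) : A.tl p y = y - A.Q p y := rfl

theorem Q_tl {p q : ℕ} (h : p ≤ q) (y : X) : A.Q p (A.tl q y) = 0 := by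
  rw [tl_apply, map_sub, A.Q_Q, min_eq_left h, sub_self]

theorem tl_tl (p q : ℕ) (y : X) : A.tl p (A.tl q y) = A.tl (max p q) y := by
  rw [tl_apply, tl_apply, tl_apply, map_sub, A.Q_Q]
  rcases le_total p q with h | h
  · rw [min_eq_left h, max_eq_right h]; abel
  · rw [min_eq_right h, max_eq_left h]; abel

theorem tl_tl_of_le {p q : ℕ} (h : p ≤ q) (y : X) : A.tl q (A.tl p y) = A.tl q y := by
  rw [tl_tl, max_eq_left h]

theorem norm_tl_le (p : ℕ) (y : X) : ‖A.tl p y‖ ≤ 3 * ‖y‖ := by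
  rw [tl_apply]
  have h1 := norm_sub_le y (A.Q p y)
  have h2 := A.Q_norm p y
  linarith

theorem norm_tl_mono {p q : ℕ} (h : p ≤ q) (y : X) : ‖A.tl q y‖ ≤ 3 * ‖A.tl p y‖ := by
  rw [← A.tl_tl_of_le h]
  exact A.norm_tl_le q _

theorem tl_blk {s t p : ℕ} {x : X} (h : A.Blk s t x) (hp : p ≤ s) : A.tl p x = x := by
  rw [tl_apply, AHData.Blk.Q_le A h hp, sub_zero]

theorem tl_blk_ge {s t p : ℕ} {x : X} (h : A.Blk s t x) (hp : t ≤ p) : A.tl p x = 0 := by
  rw [tl_apply, AHData.Blk.Q_ge A h hp, sub_self]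

theorem tl_tendsto (y : X) : Tendsto (fun p => A.tl p y) atTop (𝓝 0) := by
  have h := (A.Q_tendsto y).const_sub y
  rw [sub_self] at h
  exact h

/-- in an infinite RIS of nonzero vectors `k ≤ s k` -/
theorem RIS.le_s {C : ℝ} {x : ℕ → X} {s t j : ℕ → ℕ} (h : ∀ N, A.RIS C N x s t j)
    (hx : ∀ k, x k ≠ 0) (k : ℕ) : k ≤ s k := by
  have hst : ∀ k, s k < t k := by
    intro k
    by_contra hcon
    push Not at hcon
    apply hx k
    have h1 := ((h (k + 1)).blk k (Nat.lt_succ_self k))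
    rw [← h1.2]
    exact AHData.Blk.Q_le A h1 hcon
  induction k with
  | zero => exact Nat.zero_le _
  | succ k ih =>
    have h1 := (h (k + 2)).succ k (k + 1) (Nat.lt_succ_self k) (Nat.lt_succ_self _)
    have h2 := hst k
    omega

end AHData

end Pool.Agent.MP8c9cbf
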