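import Pool.Agent.Lib.MP_8c9cbf_an.F.Defs
import Pool.Agent.Lib.MP_8c9cbf_an.Tail

/-! Row C: the maps between `c_0` and the real space `X`, and the structure `FS ℝ X`. -/

namespace Pool.Agent.MP8c9cbf

open Finset Filter Topology

variable {T X : Type} [NormedAddCommGroup X] [NormedSpace ℝ X] (A : AHData T X)

/-- `T` is countable (`cnt`) and infinite (`bs_inj`) -/
theorem TreeData.exists_enum (D : TreeData T) : Nonempty (ℕ ≃ T) := by
  haveI := D.cnt
  haveI : Infinite T := Infinite.of_injective (D.bs 0) fun j j' h => D.bs_inj 0 j j' h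
  exact nonempty_equiv_of_countable

private theorem cm_tendsto {f : ℕ → ℝ} (h : ∀ ε : ℝ, 0 < ε → {k | ε ≤ |f k|}.Finite) :
    Tendsto f atTop (𝓝 0) := by
  rw [Metric.tendsto_atTop]
  intro ε hε
  obtain ⟨N, hN⟩ := (h ε hε).bddAbove
  refine ⟨N + 1, fun k hk => ?_⟩
  rw [Real.dist_eq, sub_zero]
  by_contra hcon
  have := hN (show k ∈ {k | ε ≤ |f k|} from not_lt.1 hcon)
  omega

private theorem cm_finite (u : CZ ℝ) {ε : ℝ} (hε : 0 < ε) : {k | ε ≤ |u k|}.Finite := by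
  obtain ⟨N, hN⟩ := Metric.tendsto_atTop.1 (CZ.tendsto u) ε hε
  refine (Finset.finite_toSet (Finset.range N)).subset fun k hk => ?_
  rw [Finset.mem_coe, Finset.mem_range]
  by_contra h
  have := hN k (not_lt.1 h)
  rw [Real.dist_eq, sub_zero] at this
  exact absurd this (not_lt.2 hk)

namespace AHData

/-- uniqueness: `Q n x` depends only on the coordinates of rank `< n` (`Q_eq_zero`) -/
theorem Q_congr {n : ℕ} {x y : X} (h : ∀ τ : T, A.rank τ < n → A.ev (τ, 0) x = A.ev (τ, 0) y) :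
    A.Q n x = A.Q n y := by
  rw [← sub_eq_zero, ← map_sub]
  apply A.Q_eq_zero
  rintro ⟨τ, k⟩ hq
  rw [map_sub, sub_eq_zero]
  rcases Nat.eq_zero_or_pos k with rfl | hk
  · exact h τ hq
  · rw [A.ev_zero (τ, k) x hk, A.ev_zero (τ, k) y hk]

/-- `x ↦ (ev (en k) x)_k` over the nodes `en k` of rank `< n`, `0` elsewhere; by the field `c0` -/
theorem exists_Amap (en : ℕ ≃ T) (n : ℕ) : ∃ a : X →L[ℝ] CZ ℝ, (∀ x, ‖a x‖ ≤ ‖x‖) ∧
    ∀ x k, a x k = if A.rank (en k) < n then A.ev (en k, 0) x else 0 := by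
  classical
  let f : ℕ → X →L[ℝ] ℝ := fun k => if A.rank (en k) < n then A.ev (en k, 0) else 0
  have hf : ∀ k x, f k x = if A.rank (en k) < n then A.ev (en k, 0) x else 0 := by
    intro k x
    show (if A.rank (en k) < n then A.ev (en k, 0) else 0) x = _
    split_ifs <;> rfl
  have hfn : ∀ k x, ‖f k x‖ ≤ 1 * ‖x‖ := by
    intro k x
    rw [hf, one_mul]
    split_ifs
    · exact A.ev_le _ x
    · rw [norm_zero]; exact norm_nonneg x
  have hf0 : ∀ x, Tendsto (fun k => f k x) atTop (𝓝 0) := by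
    intro x
    apply cm_tendsto
    intro ε hε
    refine ((A.c0 n x ε hε).preimage (f := en) en.injective.injOn).subset fun k hk => ?_
    have hk' : ε ≤ |f k x| := hk
    rw [hf] at hk'
    by_cases h : A.rank (en k) < n
    · rw [if_pos h] at hk'
      exact ⟨h, hk'⟩
    · rw [if_neg h, abs_zero] at hk'
      linarith
  refine ⟨CZ.lift f 1 zero_le_one hfn hf0, fun x => ?_, fun x k => ?_⟩
  · refine CZ.norm_le _ (norm_nonneg x) fun k => ?_
    rw [CZ.lift_apply]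
    have := hfn k x
    rwa [one_mul] at this
  · rw [CZ.lift_apply, hf]

private theorem cm_map (ι : ℕ → T) (hι : Function.Injective ι) (n : ℕ) :
    ∃ b : CZ ℝ →L[ℝ] X, (∀ u, ‖b u‖ ≤ 2 * ‖u‖) ∧ (∀ u, A.Q n (b u) = b u) ∧
      (∀ u k, A.rank (ι k) < n → A.ev (ι k, 0) (b u) = u k) ∧
      ∀ u τ, A.rank τ < n → (∀ k, ι k ≠ τ) → A.ev (τ, 0) (b u) = 0 := by
  classical
  have hex : ∀ u : CZ ℝ, ∃ x : X, A.Q n x = x ∧
      (∀ τ, A.rank τ < n → A.ev (τ, 0) x = Function.extend ι (fun k => u k) 0 τ) ∧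
      ‖x‖ ≤ 2 * ‖u‖ := by
    intro u
    have h1 : ∀ τ, (∃ k, ι k = τ ∧ Function.extend ι (fun k => u k) 0 τ = u k) ∨
        ((∀ k, ι k ≠ τ) ∧ Function.extend ι (fun k => u k) 0 τ = 0) := by
      intro τ
      by_cases h : ∃ k, ι k = τ
      · obtain ⟨k, rfl⟩ := h
        exact Or.inl ⟨k, rfl, hι.extend_apply _ _ k⟩
      · refine Or.inr ⟨fun k hk => h ⟨k, hk⟩, ?_⟩
        rw [Function.extend_apply' _ _ _ h]
        rfl
    refine A.ext n _ ‖u‖ (norm_nonneg u) (fun τ => ?_) (fun ε hε => ?_)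
    · rcases h1 τ with ⟨k, -, hk⟩ | ⟨-, h⟩
      · rw [hk]; exact CZ.norm_coord_le u k
      · rw [h, abs_zero]; exact norm_nonneg u
    · refine ((cm_finite u hε).image ι).subset ?_
      rintro τ ⟨-, hτ⟩
      rcases h1 τ with ⟨k, hk1, hk2⟩ | ⟨-, h⟩
      · rw [hk2] at hτ
        exact ⟨k, hτ, hk1⟩
      · rw [h, abs_zero] at hτ
        linarith
  choose F hF1 hF2 hF3 using hex
  have hF4 : ∀ u k, A.rank (ι k) < n → A.ev (ι k, 0) (F u) = u k := by
    intro u k hk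
    rw [hF2 u _ hk, hι.extend_apply]
  have hF5 : ∀ u τ, A.rank τ < n → (∀ k, ι k ≠ τ) → A.ev (τ, 0) (F u) = 0 := by
    intro u τ hτ h
    rw [hF2 u _ hτ, Function.extend_apply']
    · rfl
    · rintro ⟨k, hk⟩
      exact h k hk
  have huniq : ∀ (u : CZ ℝ) (x : X), A.Q n x = x →
      (∀ k, A.rank (ι k) < n → A.ev (ι k, 0) x = u k) →
      (∀ τ, A.rank τ < n → (∀ k, ι k ≠ τ) → A.ev (τ, 0) x = 0) → F u = x := by
    intro u x h1 h2 h3
    rw [← hF1 u, ← h1]
    apply A.Q_congr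
    intro τ hτ
    by_cases h : ∃ k, ι k = τ
    · obtain ⟨k, rfl⟩ := h
      rw [hF4 u k hτ, h2 k hτ]
    · push Not at h
      rw [hF5 u τ hτ h, h3 τ hτ h]
  refine ⟨LinearMap.mkContinuous
    { toFun := F
      map_add' := fun u v => ?_
      map_smul' := fun c u => ?_ } 2 hF3, hF3, hF1, hF4, hF5⟩
  · apply huniq
    · rw [map_add, hF1, hF1]
    · intro k hk
      rw [map_add, hF4 u k hk, hF4 v k hk]
      rfl
    · intro τ hτ h
      rw [map_add, hF5 u τ hτ h, hF5 v τ hτ h, add_zero]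
  · apply huniq
    · rw [map_smul, hF1]
    · intro k hk
      rw [map_smul, hF4 u k hk]
      rfl
    · intro τ hτ h
      rw [map_smul, hF5 u τ hτ h, smul_zero]

/-- `u ↦` the vector `x = Q n x` with `ev (en k) x = u k` for the nodes of rank `< n` (`ext`) -/
theorem exists_Bmap (en : ℕ ≃ T) (n : ℕ) : ∃ b : CZ ℝ →L[ℝ] X, (∀ u, ‖b u‖ ≤ 2 * ‖u‖) ∧
    (∀ u, A.Q n (b u) = b u) ∧ ∀ u k, A.rank (en k) < n → A.ev (en k, 0) (b u) = u k := by
  obtain ⟨b, h1, h2, h3, -⟩ := A.cm_map en en.injective n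
  exact ⟨b, h1, h2, h3⟩

/-- `x ↦ (ev (bs m j) x)_j`, by `c0` and `bs_inj` -/
theorem exists_Rmap (m : ℕ) : ∃ r : X →L[ℝ] CZ ℝ, (∀ x, ‖r x‖ ≤ ‖x‖) ∧
    ∀ x j, r x j = A.ev (A.bs m j, 0) x := by
  have hinj : Function.Injective (A.bs m) := fun j j' h => A.bs_inj m j j' h
  have hfn : ∀ j x, ‖A.ev (A.bs m j, 0) x‖ ≤ 1 * ‖x‖ := by
    intro j x
    rw [one_mul]
    exact A.ev_le _ x
  have hf0 : ∀ x, Tendsto (fun j => A.ev (A.bs m j, 0) x) atTop (𝓝 0) := by
    intro x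
    apply cm_tendsto
    intro ε hε
    refine ((A.c0 (m + 1) x ε hε).preimage (f := A.bs m) hinj.injOn).subset fun k hk => ?_
    refine ⟨?_, hk⟩
    rw [A.bs_rank]
    exact Nat.lt_succ_self m
  refine ⟨CZ.lift (fun j => A.ev (A.bs m j, 0)) 1 zero_le_one hfn hf0, fun x => ?_, fun x k => ?_⟩
  · refine CZ.norm_le _ (norm_nonneg x) fun k => ?_
    rw [CZ.lift_apply]
    exact A.ev_le _ x
  · rw [CZ.lift_apply]

/-- `u ↦` the vector `x = Q (m+1) x` with `ev (bs m j) x = u j`, all other coordinates of rank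
`≤ m` zero (`ext`) -/
theorem exists_Jmap (m : ℕ) : ∃ b : CZ ℝ →L[ℝ] X, (∀ u, ‖b u‖ ≤ 2 * ‖u‖) ∧
    (∀ u, A.Q (m + 1) (b u) = b u) ∧ (∀ u j, A.ev (A.bs m j, 0) (b u) = u j) ∧
    ∀ u, A.Q m (b u) = 0 := by
  have hinj : Function.Injective (A.bs m) := fun j j' h => A.bs_inj m j j' h
  obtain ⟨b, h1, h2, h3, h4⟩ := A.cm_map (A.bs m) hinj (m + 1)
  refine ⟨b, h1, h2, fun u j => h3 u j (by rw [A.bs_rank]; exact Nat.lt_succ_self m),
    fun u => ?_⟩
  apply A.Q_eq_zero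
  rintro ⟨τ, k⟩ hq
  rcases Nat.eq_zero_or_pos k with rfl | hk
  · refine h4 u τ (by
      have : A.rank τ < m := hq
      omega) fun k hk => ?_
    have : A.rank τ < m := hq
    rw [← hk, A.bs_rank] at this
    omega
  · exact A.ev_zero _ _ hk

/-- the structure `FS ℝ X` from the two theorems on operators and functionals.  `RQ` holds by the
field `base`. -/
theorem exists_FS (hsc : ∀ V : X →L[ℝ] X, ∃ c : ℝ, ∀ ε : ℝ, 0 < ε → ∃ n0 : ℕ, ∀ n ≥ n0, ∀ x,
      ‖(V x - c • x) - A.Q n (V x - c • x)‖ ≤ ε * ‖x‖)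
    (hshr : ∀ φ : X →L[ℝ] ℝ, ∀ ε : ℝ, 0 < ε → ∃ n0 : ℕ, ∀ n ≥ n0, ∀ x,
      ‖φ (x - A.Q n x)‖ ≤ ε * ‖x‖) : Nonempty (FS ℝ X) := by
  obtain ⟨en⟩ := A.toTreeData.exists_enum
  choose a ha1 ha2 using A.exists_Amap en
  choose b hb1 hb2 hb3 using A.exists_Bmap en
  choose r hr1 hr2 using A.exists_Rmap
  choose j hj1 hj2 hj3 hj4 using A.exists_Jmap
  exact ⟨
    { Q := A.Q
      A := a
      B := b
      J := j
      R := r
      e := fun k => A.ev (en k, 0)
      rk := fun k => A.rank (en k)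
      C := 2
      nA := fun n x => (ha1 n x).trans (by linarith [norm_nonneg x])
      nB := hb1
      nJ := hj1
      nR := fun n x => (hr1 n x).trans (by linarith [norm_nonneg x])
      ne := fun k x => (show ‖A.ev (en k, 0) x‖ ≤ ‖x‖ from A.ev_le _ x).trans
        (by linarith [norm_nonneg x])
      BA := fun n x => by
        rw [← hb2]
        apply A.Q_congr
        intro τ hτ
        obtain ⟨k, rfl⟩ := en.surjective τ
        rw [hb3 _ _ _ hτ, ha2, if_pos hτ]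
      RJ := fun n u => CZ.ext fun k => by rw [hr2, hj3]
      RQ := fun n x => CZ.ext fun k => by
        rw [hr2, A.base _ _ _ (A.bs_wt n k) (by rw [A.bs_rank])]
        rfl
      QQ := A.Q_Q
      Q_tendsto := A.Q_tendsto
      A_apply := ha2
      e_B := hb3
      sc := hsc
      shr := hshr }⟩

end AHData

end Pool.Agent.MP8c9cbf
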