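import Pool.Agent.Lib.MP_8c9cbf_an.BlkT

/-! Row R4: the corner estimate.  (Model: `Lib/MP_0d518c_an/Cpt.lean`, `cpt_tendsto`.) -/

namespace Pool.Agent.MP8c9cbf

open Finset Filter Topology

variable {T X : Type} [NormedAddCommGroup X] [NormedSpace ℝ X] (A : AHData T X)

namespace AHData

/-- Assume not: for all `n` (take `p = n`) there is `x`, `‖x‖ ≤ 1`, with
`ε < ‖tl n (W (tl n x))‖`; cut `tl n x` at a large `m`: a block vector `v` with ranks in `[n, m)`,
`‖v‖ ≤ 4`, `ε / 2 < ‖tl n (W v)‖`.  The recursion `n_(k+1) = m_k` gives a bounded block sequence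
`v_k` with `ε / 2 < ‖tl n_k (W v_k)‖`, `n_k → ∞` (increase `m` so that `n < m`), against
`block_tl` and `norm_tl_mono`. -/
theorem corner (W : X →L[ℝ] X) (h : A.RNul W) {ε : ℝ} (hε : 0 < ε) :
    ∃ n, ∀ x, ‖A.tl n (W (A.tl n x))‖ ≤ ε * ‖x‖ := by
  by_contra hcon
  push Not at hcon
  have hex : ∀ n : ℕ, ∃ (m : ℕ) (v : X), n < m ∧ A.Blk n m v ∧ ‖v‖ ≤ 4 ∧
      ε / 2 < ‖A.tl n (W v)‖ := by
    intro n
    obtain ⟨x, hx⟩ := hcon n
    have hx0 : x ≠ 0 := by
      intro h0
      rw [h0, map_zero, map_zero, map_zero, norm_zero, mul_zero] at hx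
      exact lt_irrefl _ hx
    have hn0 : 0 < ‖x‖ := norm_pos_iff.2 hx0
    set u : X := ‖x‖⁻¹ • x with hu
    have hun : ‖u‖ = 1 := by
      rw [hu, norm_smul, norm_inv, norm_norm, inv_mul_cancel₀ hn0.ne']
    have hux : ε / 2 < ‖A.tl n (W (A.tl n u))‖ := by
      have h1 : ‖A.tl n (W (A.tl n u))‖ = ‖x‖⁻¹ * ‖A.tl n (W (A.tl n x))‖ := by
        rw [hu, map_smul, map_smul, map_smul, norm_smul, norm_inv, norm_norm]
      rw [h1]
      have h2 : ε < ‖x‖⁻¹ * ‖A.tl n (W (A.tl n x))‖ := by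
        rw [inv_mul_eq_div, lt_div_iff₀ hn0]
        exact hx
      linarith
    have h1 : Tendsto (fun m => ‖A.tl n (W (A.Q m u - A.Q n u))‖) atTop
        (𝓝 ‖A.tl n (W (u - A.Q n u))‖) :=
      (((A.tl n).continuous.tendsto _).comp ((W.continuous.tendsto _).comp
        ((A.Q_tendsto u).sub_const (A.Q n u)))).norm
    obtain ⟨m, hm1, hm2⟩ := ((h1.eventually (lt_mem_nhds hux)).and
      (eventually_ge_atTop (n + 1))).exists
    refine ⟨m, A.Q m u - A.Q n u, by omega, A.blk_cut (by omega) u, ?_, hm1⟩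
    have h2 := A.Q_norm m u
    have h3 := A.Q_norm n u
    have h4 := norm_sub_le (A.Q m u) (A.Q n u)
    linarith
  choose fm fv h1 h2 h3 h4 using hex
  -- the recursion
  let B : ℕ → ℕ := fun k => Nat.rec 0 (fun _ b => fm b) k
  have hB : ∀ k, B (k + 1) = fm (B k) := fun k => rfl
  have hBk : ∀ k, k ≤ B k := by
    intro k
    induction k with
    | zero => exact Nat.zero_le _
    | succ k ih =>
      have := h1 (B k)
      rw [hB]
      omega
  obtain ⟨p, hp⟩ := A.block_tl W h (x := fun k => fv (B k)) (s := fun k => B k)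
    (t := fun k => fm (B k)) (C := 4) (fun k => h2 _) (fun k => (h1 _).le)
    (fun k => le_of_eq (hB k).symm) (fun k => h3 _) (ε / 6) (by positivity)
  obtain ⟨k, hk1, hk2⟩ := (hp.and (eventually_ge_atTop p)).exists
  have h5 := A.norm_tl_mono (hk2.trans (hBk k)) (W (fv (B k)))
  have h6 := h4 (B k)
  linarith

end AHData

end Pool.Agent.MP8c9cbf
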