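import Pool.Agent.Lib.MP_8c9cbf_an.Basic

/-! Task DC1: construction of dependent sequences. -/

namespace Pool.Agent.MP8c9cbf

open Finset Filter Topology

variable {T X : Type} [NormedAddCommGroup X] [NormedSpace ℝ X] (A : AHData T X)

namespace AHData

/-- supply of exact pairs -/
def Supply (A : AHData T X) (V : X →L[ℝ] X) (C κ δ : ℝ) : Prop :=
  ∀ J, Even J → ∀ (p0 : ℕ) (φ : X →L[ℝ] ℝ) (ε : ℝ), 0 < ε →
    ∃ (z : X) (η : T) (t0 : ℕ), p0 ≤ t0 ∧ A.Exact C J p0 t0 z ∧ A.wt η = some J ∧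
      (∀ l, |A.ev (η, l) z| ≤ κ) ∧ δ ≤ A.ev (η, 0) (V z - A.Q p0 (V z)) ∧
      |φ z| ≤ ε ∧ ‖V z - A.Q t0 (V z)‖ ≤ ε

theorem DC1_extend {C κ : ℝ} {w n : ℕ} {z : ℕ → X} {η ξ : ℕ → T} {s t jj : ℕ → ℕ}
    (h : A.Dep C κ w n z η ξ s t jj) (hn : n < nn w) {z' : X} {η' ξ' : T} {s' t' J' : ℕ}
    (hex : A.Exact C J' s' t' z') (hη' : A.wt η' = some J') (hsm : ∀ l, |A.ev (η', l) z'| ≤ κ)
    (hξw : A.wt ξ' = some w) (hξb : A.bb ξ' = Finsupp.single (η', 0) 1) (ht : t' ≤ A.rank ξ')
    (hst : s' ≤ t') (h0 : n = 0 → A.prv ξ' = none ∧ J' % 4 = 2 ∧ nn w ^ 2 < mm J')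
    (h1 : ∀ m, n = m + 1 → A.prv ξ' = some (ξ m) ∧ s' = A.rank (ξ m) + 1 ∧
      J' = 4 * A.code (ξ m)) :
    A.Dep C κ w (n + 1) (Function.update z n z') (Function.update η n η')
      (Function.update ξ n ξ') (Function.update s n s') (Function.update t n t')
      (Function.update jj n J') := by
  have e1 : ∀ {α : Type} (f : ℕ → α) (v : α) (i : ℕ), i < n → Function.update f n v i = f i :=
    fun f v i hi => Function.update_of_ne (by omega) _ _
  have e2 : ∀ {α : Type} (f : ℕ → α) (v : α), Function.update f n v n = v :=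
    fun f v => Function.update_self _ _ _
  refine
    { odd := h.odd
      len := hn
      exact := ?_
      wt_eta := ?_
      small := ?_
      wt_xi := ?_
      bb_xi := ?_
      t_le := ?_
      s_le_t := ?_
      prv_zero := ?_
      prv_succ := ?_
      s_succ := ?_
      jj_zero := ?_
      jj_succ := ?_ }
  · intro i hi
    rcases Nat.lt_succ_iff_lt_or_eq.1 hi with hi | rfl
    · rw [e1 _ _ i hi, e1 _ _ i hi, e1 _ _ i hi, e1 _ _ i hi]; exact h.exact i hi
    · rw [e2, e2, e2, e2]; exact hex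
  · intro i hi
    rcases Nat.lt_succ_iff_lt_or_eq.1 hi with hi | rfl
    · rw [e1 _ _ i hi, e1 _ _ i hi]; exact h.wt_eta i hi
    · rw [e2, e2]; exact hη'
  · intro i hi l
    rcases Nat.lt_succ_iff_lt_or_eq.1 hi with hi | rfl
    · rw [e1 _ _ i hi, e1 _ _ i hi]; exact h.small i hi l
    · rw [e2, e2]; exact hsm l
  · intro i hi
    rcases Nat.lt_succ_iff_lt_or_eq.1 hi with hi | rfl
    · rw [e1 _ _ i hi]; exact h.wt_xi i hi
    · rw [e2]; exact hξw
  · intro i hi
    rcases Nat.lt_succ_iff_lt_or_eq.1 hi with hi | rfl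
    · rw [e1 _ _ i hi, e1 _ _ i hi]; exact h.bb_xi i hi
    · rw [e2, e2]; exact hξb
  · intro i hi
    rcases Nat.lt_succ_iff_lt_or_eq.1 hi with hi | rfl
    · rw [e1 _ _ i hi, e1 _ _ i hi]; exact h.t_le i hi
    · rw [e2, e2]; exact ht
  · intro i hi
    rcases Nat.lt_succ_iff_lt_or_eq.1 hi with hi | rfl
    · rw [e1 _ _ i hi, e1 _ _ i hi]; exact h.s_le_t i hi
    · rw [e2, e2]; exact hst
  · intro _
    rcases Nat.eq_zero_or_pos n with h00 | hpos
    · subst h00; rw [e2]; exact (h0 rfl).1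
    · rw [e1 _ _ 0 hpos]; exact h.prv_zero hpos
  · intro i hi
    rcases Nat.lt_succ_iff_lt_or_eq.1 hi with hi | hi
    · rw [e1 _ _ (i + 1) hi, e1 _ _ i (by omega)]; exact h.prv_succ i hi
    · have : Function.update ξ n ξ' (i + 1) = ξ' := by rw [hi]; exact e2 _ _
      rw [this, e1 _ _ i (by omega)]
      exact (h1 i hi.symm).1
  · intro i hi
    rcases Nat.lt_succ_iff_lt_or_eq.1 hi with hi | hi
    · rw [e1 _ _ (i + 1) hi, e1 _ _ i (by omega)]; exact h.s_succ i hi
    · have : Function.update s n s' (i + 1) = s' := by rw [hi]; exact e2 _ _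
      rw [this, e1 _ _ i (by omega)]
      exact (h1 i hi.symm).2.1
  · intro _
    rcases Nat.eq_zero_or_pos n with h00 | hpos
    · subst h00; rw [e2]; exact (h0 rfl).2
    · rw [e1 _ _ 0 hpos]; exact h.jj_zero hpos
  · intro i hi
    rcases Nat.lt_succ_iff_lt_or_eq.1 hi with hi | hi
    · rw [e1 _ _ (i + 1) hi, e1 _ _ i (by omega)]; exact h.jj_succ i hi
    · have : Function.update jj n J' (i + 1) = J' := by rw [hi]; exact e2 _ _
      rw [this, e1 _ _ i (by omega)]
      exact (h1 i hi.symm).2.2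

theorem exists_dep {V : X →L[ℝ] X} {C κ δ : ℝ} (h : A.Supply V C κ δ) {w : ℕ} (hw : Odd w)
    {ε : ℝ} (hε : 0 < ε) :
    ∃ (z : ℕ → X) (η ξ : ℕ → T) (s t jj : ℕ → ℕ), A.Dep C κ w (nn w) z η ξ s t jj ∧
      (∀ i < nn w, δ ≤ A.ev (η i, 0) (V (z i) - A.Q (s i) (V (z i))) ∧
        ‖V (z i) - A.Q (t i) (V (z i))‖ ≤ ε) ∧ s 0 = 0 ∧
      (∀ i, i + 1 < nn w → |A.ev (ξ i, 0) (V (z (i + 1)))| ≤ ε) := by
  have key : ∀ n, n ≤ nn w → ∃ (z : ℕ → X) (η ξ : ℕ → T) (s t jj : ℕ → ℕ),
      A.Dep C κ w n z η ξ s t jj ∧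
      (∀ i < n, δ ≤ A.ev (η i, 0) (V (z i) - A.Q (s i) (V (z i))) ∧
        ‖V (z i) - A.Q (t i) (V (z i))‖ ≤ ε) ∧ (∀ i < n, A.age (ξ i) = i + 1) ∧ s 0 = 0 ∧
      (∀ i, i + 1 < n → |A.ev (ξ i, 0) (V (z (i + 1)))| ≤ ε) := by
    intro n
    induction n with
    | zero =>
      intro _
      refine ⟨fun _ => 0, fun _ => A.bs 0 0, fun _ => A.bs 0 0, fun _ => 0, fun _ => 0,
        fun _ => 0, ?_, by simp, by simp, rfl, by simp⟩
      refine
        { odd := hw
          len := Nat.zero_le _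
          exact := by simp
          wt_eta := by simp
          small := by simp
          wt_xi := by simp
          bb_xi := by simp
          t_le := by simp
          s_le_t := by simp
          prv_zero := by simp
          prv_succ := by simp
          s_succ := by simp
          jj_zero := by simp
          jj_succ := by simp }
    | succ n ih =>
      intro hn
      obtain ⟨z, η, ξ, s, t, jj, hD, hV, hage, hs0, hlow⟩ := ih (by omega)
      -- the new elements
      obtain ⟨z', η', ξ', s', t', J', hex, hη', hsm, hδ, hq2, hξw, hξb, ht, hst, h0, h1,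
          hag, hs', hlow'⟩ : ∃ (z' : X) (η' ξ' : T) (s' t' J' : ℕ), A.Exact C J' s' t' z' ∧
          A.wt η' = some J' ∧ (∀ l, |A.ev (η', l) z'| ≤ κ) ∧
          δ ≤ A.ev (η', 0) (V z' - A.Q s' (V z')) ∧
          ‖V z' - A.Q t' (V z')‖ ≤ ε ∧ A.wt ξ' = some w ∧
          A.bb ξ' = Finsupp.single (η', 0) 1 ∧ t' ≤ A.rank ξ' ∧ s' ≤ t' ∧
          (n = 0 → A.prv ξ' = none ∧ J' % 4 = 2 ∧ nn w ^ 2 < mm J') ∧
          (∀ m, n = m + 1 → A.prv ξ' = some (ξ m) ∧ s' = A.rank (ξ m) + 1 ∧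
            J' = 4 * A.code (ξ m)) ∧ A.age ξ' = n + 1 ∧ (n = 0 → s' = 0) ∧
          (∀ m, n = m + 1 → |A.ev (ξ m, 0) (V z')| ≤ ε) := by
        cases n with
        | zero =>
          set J : ℕ := 4 * (nn w ^ 2) + 2 with hJ
          have hJ4 : J % 4 = 2 := by omega
          have hJe : Even J := by rw [Nat.even_iff]; omega
          have hJm : nn w ^ 2 < mm J := by
            have := mm_strictMono.le_apply (x := J)
            omega
          obtain ⟨z', η', t0, a1, a2, a3, a4, a5, -, a7⟩ := h J hJe 0 0 ε hε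
          obtain ⟨ξ', b1, b2, b3, b4, b5⟩ := A.sat_odd_fst w hw η' J a3 hJ4 hJm t0
          exact ⟨z', η', ξ', 0, t0, J, a2, a3, a4, a5, a7, b2, b4, b1, a1,
            fun _ => ⟨b3, hJ4, hJm⟩, fun m hm => by omega, b5, fun _ => rfl,
            fun m hm => by omega⟩
        | succ m =>
          set J : ℕ := 4 * A.code (ξ m) with hJ
          have hJe : Even J := by rw [Nat.even_iff]; omega
          obtain ⟨z', η', t0, a1, a2, a3, a4, a5, a6, a7⟩ := h J hJe (A.rank (ξ m) + 1)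
            ((A.ev (ξ m, 0)).comp V) ε hε
          have hagm := hage m (by omega)
          obtain ⟨ξ', b1, b2, b3, b4⟩ := A.sat_odd_snd w hw (ξ m) (hD.wt_xi m (by omega))
            (by rw [hagm]; omega) η' a3 t0
          refine ⟨z', η', ξ', A.rank (ξ m) + 1, t0, J, a2, a3, a4, a5, a7, b2, b4, b1, a1,
            fun h0 => by omega, fun m' hm' => ?_, ?_, fun h0 => by omega, fun m' hm' => ?_⟩
          · obtain rfl : m = m' := by omega
            exact ⟨b3, rfl, rfl⟩
          · rw [A.prv_age ξ' (ξ m) b3, hagm]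
          · obtain rfl : m = m' := by omega
            exact a6
      have e1 : ∀ {α : Type} (f : ℕ → α) (v : α) (i : ℕ), i < n →
          Function.update f n v i = f i :=
        fun f v i hi => Function.update_of_ne (by omega) _ _
      have e2 : ∀ {α : Type} (f : ℕ → α) (v : α), Function.update f n v n = v :=
        fun f v => Function.update_self _ _ _
      refine ⟨_, _, _, _, _, _, A.DC1_extend hD (by omega) hex hη' hsm hξw hξb ht hst h0 h1,
        ?_, ?_, ?_, ?_⟩
      · intro i hi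
        rcases Nat.lt_succ_iff_lt_or_eq.1 hi with hi | rfl
        · rw [e1 _ _ i hi, e1 _ _ i hi, e1 _ _ i hi, e1 _ _ i hi]; exact hV i hi
        · rw [e2, e2, e2, e2]; exact ⟨hδ, hq2⟩
      · intro i hi
        rcases Nat.lt_succ_iff_lt_or_eq.1 hi with hi | rfl
        · rw [e1 _ _ i hi]; exact hage i hi
        · rw [e2]; exact hag
      · rcases Nat.eq_zero_or_pos n with h00 | hpos
        · have : Function.update s n s' 0 = s' := by rw [h00]; exact Function.update_self _ _ _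
          rw [this]; exact hs' h00
        · rw [e1 _ _ 0 hpos]; exact hs0
      · intro i hi
        rcases Nat.lt_succ_iff_lt_or_eq.1 hi with hi | hi
        · rw [e1 _ _ (i + 1) hi, e1 _ _ i (by omega)]; exact hlow i hi
        · have : Function.update z n z' (i + 1) = z' := by rw [hi]; exact e2 _ _
          rw [this, e1 _ _ i (by omega)]
          exact hlow' i hi.symm
  obtain ⟨z, η, ξ, s, t, jj, hD, hV, -, h3, h4⟩ := key (nn w) le_rfl
  exact ⟨z, η, ξ, s, t, jj, hD, hV, h3, h4⟩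

end AHData

end Pool.Agent.MP8c9cbf
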