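import Pool.Agent.Lib.MP_8c9cbf_an.DC1
import Pool.Agent.Lib.MP_8c9cbf_an.DC2
import Pool.Agent.Lib.MP_8c9cbf_an.DH3
import Pool.Agent.Lib.MP_8c9cbf_an.A1

/-! Task DC3: the contradiction. -/

namespace Pool.Agent.MP8c9cbf

open Finset Filter Topology

variable {T X : Type} [NormedAddCommGroup X] [NormedSpace ℝ X] (A : AHData T X)

namespace AHData

/-- the contradiction -/
theorem dep_contra {V : X →L[ℝ] X} {C κ δ : ℝ} (hC : 1 ≤ C) (h : A.Supply V C κ δ) {w : ℕ}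
    (hw : Odd w) (hκ : κ ≤ ((nn w : ℝ))⁻¹) : δ * mm w ≤ 18 * C * ‖V‖ := by
  have hC0 : 0 ≤ C := by linarith
  have hm : (0 : ℝ) < mm w := by exact_mod_cast mm_pos w
  have hn : (0 : ℝ) < nn w := by exact_mod_cast nn_pos w
  have key : ∀ ε : ℝ, 0 < ε → (mm w : ℝ)⁻¹ * δ - 8 * ε ≤ ‖V‖ * (18 * C * ((mm w : ℝ)⁻¹) ^ 2) := by
    intro ε hε
    obtain ⟨z, η, ξ, s, t, jj, hD, hV, hs0, hlow⟩ := A.exists_dep h hw hε
    have h1 := hD.lower A hε.le (nn_pos w) hV hs0 hlow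
    have h2 := A.avg_H hC0 (hD.ris A) (J := w) (I := Finset.range (nn w)) (Finset.Subset.refl _)
      (Finset.card_range _) (fun q hq K hK => hD.bound A hC hκ q hq K hK)
    have h3 : A.ev (ξ (nn w - 1), 0) (V (∑ i ∈ Finset.range (nn w), z i)) ≤
        ‖V‖ * (18 * C * ((mm w : ℝ)⁻¹) ^ 2 * nn w) := by
      refine (le_abs_self _).trans ((A.ev_le _ _).trans ((V.le_opNorm _).trans ?_))
      gcongr
    have h4 := h1.trans h3
    have h5 : (nn w : ℝ) * ((mm w : ℝ)⁻¹ * δ - 8 * ε) ≤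
        nn w * (‖V‖ * (18 * C * ((mm w : ℝ)⁻¹) ^ 2)) := by
      calc (nn w : ℝ) * ((mm w : ℝ)⁻¹ * δ - 8 * ε) ≤ _ := h4
        _ = nn w * (‖V‖ * (18 * C * ((mm w : ℝ)⁻¹) ^ 2)) := by ring
    exact le_of_mul_le_mul_left h5 hn
  have h6 : (mm w : ℝ)⁻¹ * δ ≤ ‖V‖ * (18 * C * ((mm w : ℝ)⁻¹) ^ 2) := by
    by_contra hcon
    push Not at hcon
    have h7 := key (((mm w : ℝ)⁻¹ * δ - ‖V‖ * (18 * C * ((mm w : ℝ)⁻¹) ^ 2)) / 16) (by linarith)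
    linarith
  have h8 := mul_le_mul_of_nonneg_left h6 (show (0 : ℝ) ≤ (mm w : ℝ) ^ 2 by positivity)
  have h9 : (mm w : ℝ) ^ 2 * ((mm w : ℝ)⁻¹ * δ) = δ * mm w := by field_simp
  have h10 : (mm w : ℝ) ^ 2 * (‖V‖ * (18 * C * ((mm w : ℝ)⁻¹) ^ 2)) = 18 * C * ‖V‖ := by
    field_simp
  rw [h9, h10] at h8
  exact h8

end AHData

end Pool.Agent.MP8c9cbf
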