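import Pool.Agent.Lib.MP_8c9cbf_an.DH1

/-! Task DH2: the top nodes of a dependent sequence. -/

namespace Pool.Agent.MP8c9cbf

open Finset Filter Topology

variable {T X : Type} [NormedAddCommGroup X] [NormedSpace ℝ X] (A : AHData T X)

namespace AHData

private theorem DH2_t_le {C κ : ℝ} {w n : ℕ} {z : ℕ → X} {η ξ : ℕ → T} {s t jj : ℕ → ℕ}
    (h : A.Dep C κ w n z η ξ s t jj) {i r : ℕ} (hir : i ≤ r) (hr : r < n) :
    t i ≤ A.rank (ξ r) := by
  rcases Nat.lt_or_eq_of_le hir with h1 | h1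
  · have h2 := (Dep.ris A h).succ i r h1 hr
    have h3 := h.s_le_t r hr
    have h4 := h.t_le r hr
    omega
  · subst h1
    exact h.t_le i hr

/-- `ξ_r` on a block vector with ranks in `[s_i, t_i)`, `i ≤ r` -/
theorem Dep.seq_eval {C κ : ℝ} {w n : ℕ} {z : ℕ → X} {η ξ : ℕ → T} {s t jj : ℕ → ℕ}
    (h : A.Dep C κ w n z η ξ s t jj) {i r : ℕ} (hir : i ≤ r) (hr : r < n) {v : X}
    (hv : A.Blk (s i) (t i) v) (l : ℕ) :
    A.ev (ξ r, l) v = (mm w : ℝ)⁻¹ * A.ev (η i, l) v := by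
  induction r with
  | zero =>
    have hi : i = 0 := by omega
    subst hi
    rw [node_single A (h.wt_xi 0 hr) (h.bb_xi 0 hr) l v,
      Blk.dst_ge A hv (DH2_t_le A h le_rfl hr)]
    have hp := h.prv_zero hr
    have hlev : A.lev (ξ 0) = 0 := by
      unfold TreeData.lev
      rw [hp]
      rfl
    rw [hlev, hp, Q_zero, sub_zero]
    simp
  | succ r ih =>
    rw [node_single A (h.wt_xi (r + 1) hr) (h.bb_xi (r + 1) hr) l v,
      Blk.dst_ge A hv (DH2_t_le A h hir hr)]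
    have hp := h.prv_succ r hr
    have hlev : A.lev (ξ (r + 1)) = s (r + 1) := by
      unfold TreeData.lev
      rw [hp, h.s_succ r hr]
      rfl
    rw [hlev, hp]
    rcases Nat.lt_or_eq_of_le hir with h1 | h1
    · have h2 := (Dep.ris A h).succ i (r + 1) h1 hr
      rw [Blk.Q_ge A hv h2, sub_self, map_zero]
      have h3 := ih (by omega) (by omega)
      simp only [Option.elim_some]
      rw [h3]
      ring
    · subst h1
      rw [Blk.Q_le A hv le_rfl, sub_zero]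
      have h3 : A.ev (ξ r, l) v = 0 := by
        apply Blk.ev_lt A hv
        rw [h.s_succ r hr]
        exact Nat.lt_succ_self _
      simp only [Option.elim_some]
      rw [h3]
      ring

theorem Dep.seq_eval_gt {C κ : ℝ} {w n : ℕ} {z : ℕ → X} {η ξ : ℕ → T} {s t jj : ℕ → ℕ}
    (h : A.Dep C κ w n z η ξ s t jj) {i r : ℕ} (hir : r < i) (hi : i < n) {v : X}
    (hv : A.Blk (s i) (t i) v) (l : ℕ) : A.ev (ξ r, l) v = 0 := by
  apply Blk.ev_lt A hv
  change A.rank (ξ r) < s i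
  have h1 := h.s_succ r (by omega)
  rcases Nat.lt_or_eq_of_le (Nat.succ_le_of_lt hir) with h2 | h2
  · have h3 := (Dep.ris A h).succ (r + 1) i h2 hi
    have h4 := h.s_le_t (r + 1) (by omega)
    omega
  · rw [← h2]
    change A.rank (ξ r) < s (r + 1)
    omega

/-- in-sequence nodes on partial sums -/
theorem Dep.bound_in {C κ : ℝ} {w n : ℕ} (hκ : κ ≤ ((nn w : ℝ))⁻¹) {z : ℕ → X}
    {η ξ : ℕ → T} {s t jj : ℕ → ℕ} (h : A.Dep C κ w n z η ξ s t jj) {r : ℕ} (hr : r < n)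
    (l : ℕ) (J : Finset ℕ) (hJ : J ⊆ Finset.range n) :
    |A.ev (ξ r, l) (∑ i ∈ J, z i)| ≤ (mm w : ℝ)⁻¹ := by
  have hm := mm_inv_pos w
  have hnpos : (0 : ℝ) < nn w := by exact_mod_cast nn_pos w
  rw [map_sum]
  refine (Finset.abs_sum_le_sum_abs _ _).trans ?_
  have hterm : ∀ i ∈ J, |A.ev (ξ r, l) (z i)| ≤ (mm w : ℝ)⁻¹ * (nn w : ℝ)⁻¹ := by
    intro i hi
    have hin : i < n := Finset.mem_range.1 (hJ hi)
    rcases Nat.lt_or_ge r i with h1 | h1
    · rw [Dep.seq_eval_gt A h h1 hin (h.exact i hin).blk l, abs_zero]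
      positivity
    · rw [Dep.seq_eval A h h1 hr (h.exact i hin).blk l, abs_mul, abs_of_pos hm]
      exact mul_le_mul_of_nonneg_left ((h.small i hin l).trans hκ) hm.le
  refine (Finset.sum_le_sum hterm).trans ?_
  rw [Finset.sum_const, nsmul_eq_mul]
  have hcard : (J.card : ℝ) ≤ nn w := by
    have h1 := Finset.card_le_card hJ
    rw [Finset.card_range] at h1
    exact_mod_cast h1.trans h.len
  calc (J.card : ℝ) * ((mm w : ℝ)⁻¹ * (nn w : ℝ)⁻¹)
      ≤ nn w * ((mm w : ℝ)⁻¹ * (nn w : ℝ)⁻¹) :=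
        mul_le_mul_of_nonneg_right hcard (by positivity)
    _ = (mm w : ℝ)⁻¹ := by field_simp

end AHData

end Pool.Agent.MP8c9cbf
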