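import Mathlib

/-!
# Definitions for MP_8c9cbf_an: a separable Banach space on which every bounded operator is a
scalar plus an operator factoring through `c_0`

The space is the Argyros-Haydon type space of `Lib/MP_0d518c_an` with two changes: the shift is
zero (all coordinates `(τ, k)`, `k > 0`, are dead) and there are infinitely many base nodes of every
rank (the top nodes of rank `≤ n` are still finitely many), so that `Q n X` is isomorphic to `c_0`.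
All other files of the project import this one.
-/

namespace Pool.Agent.MP8c9cbf

open Finset Filter Topology

/-- the weights `m_j = 4^(2^j)`, so that `m_(j+1) = m_j^2` -/
def mm (j : ℕ) : ℕ := 4 ^ (2 ^ j)

/-- the lengths `n_j` -/
def nn : ℕ → ℕ
  | 0 => mm 0 ^ 2
  | (j + 1) => mm (j + 1) ^ 2 * (4 * nn j) ^ (2 ^ (j + 2) + 1)

/-- `N_0 = 1`, `N_(j+1) = 4 n_j` -/
def NN : ℕ → ℕ
  | 0 => 1
  | (j + 1) => 4 * nn j

/-- the weight `ω(k) = 2^(-k^2)` of the radical algebra -/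
noncomputable def om (k : ℕ) : ℝ := (1 / 2 : ℝ) ^ (k ^ 2)

/-- the combinatorial part: the tree of top nodes.  `wt τ = none` for base nodes, `wt τ = some i`
for nodes of weight `m_i`. -/
structure TreeData (T : Type) where
  rank : T → ℕ
  wt : T → Option ℕ
  fin : ∀ n, {τ : T | rank τ ≤ n ∧ wt τ ≠ none}.Finite
  cnt : Countable T
  age : T → ℕ
  prv : T → Option T
  bb : T → (T × ℕ →₀ ℝ)
  code : T → ℕ
  base_prv : ∀ τ, wt τ = none → prv τ = none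
  base_bb : ∀ τ, wt τ = none → bb τ = 0
  wt_le : ∀ τ i, wt τ = some i → i ≤ rank τ
  age_pos : ∀ τ i, wt τ = some i → 1 ≤ age τ
  age_le : ∀ τ i, wt τ = some i → age τ ≤ nn i
  prv_wt : ∀ τ ξ, prv τ = some ξ → wt ξ = wt τ
  prv_rank : ∀ τ ξ, prv τ = some ξ → rank ξ < rank τ
  prv_age : ∀ τ ξ, prv τ = some ξ → age τ = age ξ + 1
  bb_l1 : ∀ τ, ∑ q ∈ (bb τ).support, |bb τ q| ≤ 1
  bb_rank : ∀ τ q, q ∈ (bb τ).support → rank q.1 < rank τ
  odd_eta : ∀ τ i, wt τ = some i → Odd i → ∃ η h, bb τ = Finsupp.single (η, 0) 1 ∧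
    wt η = some h ∧ (prv τ = none → h % 4 = 2 ∧ nn i ^ 2 < mm h) ∧
    (∀ ξ, prv τ = some ξ → h = 4 * code ξ)
  code_inj : Function.Injective code
  code_gt : ∀ τ, rank τ < code τ
  sat_even : ∀ i, Even i → ∀ p : Option T, (∀ ξ, p = some ξ → wt ξ = some i ∧ age ξ < nn i) →
    ∀ b : T × ℕ →₀ ℝ, (∀ q, ∃ r : ℚ, (r : ℝ) = b q) → ∑ q ∈ b.support, |b q| ≤ 1 → ∀ R : ℕ,
    ∃ τ, R ≤ rank τ ∧ wt τ = some i ∧ prv τ = p ∧ bb τ = b ∧ (p = none → age τ = 1)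
  sat_odd_fst : ∀ i, Odd i → ∀ η h, wt η = some h → h % 4 = 2 → nn i ^ 2 < mm h → ∀ R : ℕ,
    ∃ τ, R ≤ rank τ ∧ wt τ = some i ∧ prv τ = none ∧ bb τ = Finsupp.single (η, 0) 1 ∧ age τ = 1
  sat_odd_snd : ∀ i, Odd i → ∀ ξ, wt ξ = some i → age ξ < nn i → ∀ η,
    wt η = some (4 * code ξ) → ∀ R : ℕ,
    ∃ τ, R ≤ rank τ ∧ wt τ = some i ∧ prv τ = some ξ ∧ bb τ = Finsupp.single (η, 0) 1
  bs : ℕ → ℕ → T
  bs_rank : ∀ n j, rank (bs n j) = n
  bs_wt : ∀ n j, wt (bs n j) = none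
  bs_inj : ∀ n j j', bs n j = bs n j' → j = j'

/-- `lev τ = 0` if `τ` has no predecessor, `rank ξ + 1` if `ξ` is the predecessor -/
def TreeData.lev {T : Type} (D : TreeData T) (τ : T) : ℕ :=
  (D.prv τ).elim 0 (fun ξ => D.rank ξ + 1)

/-- the interface between the construction of the space and the analysis of its operators.
`ev (τ, 0)` are the coordinate functionals `e*_τ` (`ev (τ, k) = 0` if `k > 0`), `Q n` is the
projection onto the part of rank `< n`, `S = 0`. -/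
structure AHData (T X : Type) [NormedAddCommGroup X] [NormedSpace ℝ X] extends
    TreeData T where
  ev : T × ℕ → X →L[ℝ] ℝ
  Q : ℕ → X →L[ℝ] X
  S : X →L[ℝ] X
  ev_le : ∀ q x, |ev q x| ≤ ‖x‖
  norm_le : ∀ x c, 0 ≤ c → (∀ q, |ev q x| ≤ c) → ‖x‖ ≤ c
  ev_zero : ∀ (q : T × ℕ) x, 0 < q.2 → ev q x = 0
  Q_norm : ∀ n x, ‖Q n x‖ ≤ 2 * ‖x‖
  Q_Q : ∀ n k x, Q n (Q k x) = Q (min n k) x
  Q_tendsto : ∀ x, Tendsto (fun n => Q n x) atTop (𝓝 x)
  ev_Q : ∀ n (q : T × ℕ) x, rank q.1 < n → ev q (Q n x) = ev q x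
  Q_eq_zero : ∀ n x, (∀ q : T × ℕ, rank q.1 < n → ev q x = 0) → Q n x = 0
  c0 : ∀ n x (ε : ℝ), 0 < ε → {τ : T | rank τ < n ∧ ε ≤ |ev (τ, 0) x|}.Finite
  ext : ∀ n (u : T → ℝ) (c : ℝ), 0 ≤ c → (∀ τ, |u τ| ≤ c) →
    (∀ ε : ℝ, 0 < ε → {τ : T | rank τ < n ∧ ε ≤ |u τ|}.Finite) → ∃ x, Q n x = x ∧
    (∀ τ : T, rank τ < n → ev (τ, 0) x = u τ) ∧ ‖x‖ ≤ 2 * c
  node : ∀ τ i n x, wt τ = some i → n ≤ rank τ → ev (τ, 0) (Q n x) =
    ((prv τ).elim 0 fun ξ => ev (ξ, 0) (Q n x)) +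
    (mm i : ℝ)⁻¹ * ∑ q ∈ (bb τ).support, bb τ q *
      ev q (Q n x - Q (toTreeData.lev τ) (Q n x))
  base : ∀ τ n x, wt τ = none → n ≤ rank τ → ev (τ, 0) (Q n x) = 0
  ev_S : ∀ τ k x, ev (τ, k) (S x) = (om (k + 1) / om k) * ev (τ, k + 1) x
  Q_S : ∀ n x, Q n (S x) = S (Q n x)

variable {T X : Type} [NormedAddCommGroup X] [NormedSpace ℝ X]

namespace AHData

theorem ev_dead (A : AHData T X) (q : T × ℕ) (x : X) (h : A.rank q.1 < q.2) : A.ev q x = 0 :=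
  A.ev_zero q x (by omega)

/-- the functional `Σ b_q e*_q` -/
noncomputable def pair (A : AHData T X) (b : T × ℕ →₀ ℝ) (x : X) : ℝ :=
  ∑ q ∈ b.support, b q * A.ev q x

/-- `d*_(τ,0)` -/
noncomputable def dst0 (A : AHData T X) (τ : T) (x : X) : ℝ :=
  A.ev (τ, 0) x - ((A.prv τ).elim 0 fun ξ => A.ev (ξ, 0) x) -
    ((A.wt τ).elim 0 fun i => (mm i : ℝ)⁻¹ * A.pair (A.bb τ) (x - A.Q (A.lev τ) x))

/-- `d*_(τ,k)` -/
noncomputable def dst (A : AHData T X) (q : T × ℕ) (x : X) : ℝ :=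
  (om q.2)⁻¹ * A.dst0 q.1 ((A.S ^ q.2) x)

/-- `x` is a block vector with ranks in `[s, t)` -/
def Blk (A : AHData T X) (s t : ℕ) (x : X) : Prop := A.Q s x = 0 ∧ A.Q t x = x

/-- `x_0, ..., x_(N-1)` is a rapidly increasing sequence with constant `C` -/
structure RIS (A : AHData T X) (C : ℝ) (N : ℕ) (x : ℕ → X) (s t j : ℕ → ℕ) : Prop where
  blk : ∀ k < N, A.Blk (s k) (t k) (x k)
  succ : ∀ k l, k < l → l < N → t k ≤ s l
  nrm : ∀ k < N, ‖x k‖ ≤ C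
  jmono : ∀ k l, k < l → l < N → j k < j l
  jt : ∀ k l, k < l → l < N → t k ≤ j l
  wtb : ∀ k < N, ∀ (q : T × ℕ) i, A.wt q.1 = some i → i < j k →
    |A.ev q (x k)| ≤ C * (mm i : ℝ)⁻¹

/-- exact vectors with constant `C`, weight index `j` and ranks in `[s, t)` -/
structure Exact (A : AHData T X) (C : ℝ) (j s t : ℕ) (z : X) : Prop where
  blk : A.Blk s t z
  all : ∀ q u, |A.ev q (z - A.Q u z)| ≤ C
  lt : ∀ (q : T × ℕ) i u, A.wt q.1 = some i → i < j → |A.ev q (z - A.Q u z)| ≤ C * (mm i : ℝ)⁻¹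
  gt : ∀ (q : T × ℕ) i u, A.wt q.1 = some i → j < i → |A.ev q (z - A.Q u z)| ≤ C * (mm j : ℝ)⁻¹
  dst : ∀ q, |A.dst q z| ≤ C * (mm j : ℝ)⁻¹

/-- an infinite RIS together with rational functionals `b p k` which are `κ`-small at `x_k` and
`≥ δ` at `(I - Q p) V x_k` for all large `k` -/
structure Good (A : AHData T X) (V : X →L[ℝ] X) (C κ δ : ℝ) (x : ℕ → X) (s t j : ℕ → ℕ)
    (b : ℕ → ℕ → (T × ℕ →₀ ℝ)) : Prop where
  ris : ∀ N, A.RIS C N x s t j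
  ne : ∀ k, x k ≠ 0
  rat : ∀ p k q, ∃ r : ℚ, (r : ℝ) = b p k q
  l1 : ∀ p k, ∑ q ∈ (b p k).support, |b p k q| ≤ 1
  small : ∀ p k, |A.pair (b p k) (x k)| ≤ κ
  big : ∀ p, ∃ K, ∀ k ≥ K, δ ≤ A.pair (b p k) (V (x k) - A.Q p (V (x k)))

/-- dependent sequence of length `n` for the odd weight index `w` -/
structure Dep (A : AHData T X) (C κ : ℝ) (w n : ℕ) (z : ℕ → X) (η ξ : ℕ → T)
    (s t jj : ℕ → ℕ) : Prop where
  odd : Odd w
  len : n ≤ nn w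
  exact : ∀ i < n, A.Exact C (jj i) (s i) (t i) (z i)
  wt_eta : ∀ i < n, A.wt (η i) = some (jj i)
  small : ∀ i < n, ∀ l, |A.ev (η i, l) (z i)| ≤ κ
  wt_xi : ∀ i < n, A.wt (ξ i) = some w
  bb_xi : ∀ i < n, A.bb (ξ i) = Finsupp.single (η i, 0) 1
  t_le : ∀ i < n, t i ≤ A.rank (ξ i)
  s_le_t : ∀ i < n, s i ≤ t i
  prv_zero : 0 < n → A.prv (ξ 0) = none
  prv_succ : ∀ i, i + 1 < n → A.prv (ξ (i + 1)) = some (ξ i)
  s_succ : ∀ i, i + 1 < n → s (i + 1) = A.rank (ξ i) + 1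
  jj_zero : 0 < n → jj 0 % 4 = 2 ∧ nn w ^ 2 < mm (jj 0)
  jj_succ : ∀ i, i + 1 < n → jj (i + 1) = 4 * A.code (ξ i)

end AHData

/-- the norming set of the auxiliary mixed Tsirelson space (nonnegative functions, sums of
disjointly supported functions); `P` is the set of allowed weight indices -/
inductive W (P : ℕ → Prop) : (ℕ → ℝ) → Prop
  | single (k : ℕ) : W P (Pi.single k 1)
  | node (i : ℕ) (hi : P i) (L : List (ℕ → ℝ)) (hlen : L.length ≤ 4 * nn i)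
      (hL : ∀ f ∈ L, W P f) (hd : L.Pairwise (fun f g => ∀ k, f k = 0 ∨ g k = 0)) :
      W P (fun k => (mm i : ℝ)⁻¹ * (L.map (fun f => f k)).sum)

/-- elements of `W P` of weight index `i` -/
def WN (P : ℕ → Prop) (i : ℕ) (g : ℕ → ℝ) : Prop :=
  ∃ L : List (ℕ → ℝ), L.length ≤ 4 * nn i ∧ (∀ f ∈ L, W P f) ∧
    L.Pairwise (fun f g => ∀ k, f k = 0 ∨ g k = 0) ∧
    g = fun k => (mm i : ℝ)⁻¹ * (L.map (fun f => f k)).sum

end Pool.Agent.MP8c9cbf
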