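import Pool.Agent.Lib.MP_8c9cbf_an.EPs

/-! Task EP2: existence of exact pairs. -/

namespace Pool.Agent.MP8c9cbf

open Finset Filter Topology

variable {T X : Type} [NormedAddCommGroup X] [NormedSpace ℝ X] (A : AHData T X)

namespace AHData

/-- from a good sequence one gets exact vectors `z` of every even weight index with a top node
`η` of the same weight such that all `ev (η,l)` are `κ`-small at `z` and `ev (η,0) (V z)` is
large, located beyond any given level, with `φ z` small and `V z` almost supported on the ranks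
`< t0`. -/
theorem exists_exact {V : X →L[ℝ] X} {C κ δ : ℝ} (hC : 0 ≤ C) (hκ : 0 ≤ κ) {x : ℕ → X}
    {s t j : ℕ → ℕ} {b : ℕ → ℕ → (T × ℕ →₀ ℝ)} (h : A.Good V C κ δ x s t j b) {J : ℕ}
    (hJ : Even J) (p0 : ℕ) (φ : X →L[ℝ] ℝ) {ε : ℝ} (hε : 0 < ε) :
    ∃ (z : X) (η : T) (t0 : ℕ), p0 ≤ t0 ∧ A.Exact (18 * C) J p0 t0 z ∧ A.wt η = some J ∧
      (∀ l, |A.ev (η, l) z| ≤ κ) ∧ δ - ε ≤ A.ev (η, 0) (V z) ∧
      |φ z| ≤ ε ∧ ‖V z - A.Q t0 (V z)‖ ≤ ε := by
  classical
  have hm : (0 : ℝ) < mm J := by exact_mod_cast mm_pos J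
  have hn : (0 : ℝ) < nn J := by exact_mod_cast nn_pos J
  set ε' : ℝ := ε / (9 * mm J) with hε'
  have hε'0 : 0 < ε' := by positivity
  have hmε : 9 * (mm J : ℝ) * ε' = ε := by rw [hε']; field_simp
  have key : ∀ r, r ≤ nn J → ∃ (I : Finset ℕ) (p : Option T),
      A.EPst V φ κ δ ε' x s t J p0 r I p ∧ (1 ≤ r → ∃ η, p = some η ∧ p0 ≤ A.rank η) := by
    intro r
    induction r with
    | zero =>
      intro _
      refine ⟨∅, none, ?_, by omega⟩
      refine
        { card := by simp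
          wt := by simp
          age := by simp
          p_none := by simp
          s_ge := by simp
          t_le := by simp
          small := by simp
          big := by simp
          low := by simp
          high := by simp }
    | succ r ih =>
      intro hr
      obtain ⟨I, p, h1, -⟩ := ih (by omega)
      obtain ⟨I', η', h2, h3⟩ := AHData.EPst.step A hC hκ h hJ p0 hε'0 (by omega) h1
      exact ⟨I', some η', h3, fun _ => ⟨η', rfl, h2⟩⟩
  obtain ⟨I, p, hst, hp⟩ := key (nn J) le_rfl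
  obtain ⟨η, rfl, hη⟩ := hp (nn_pos J)
  have hIN : I ⊆ Finset.range (I.sup id + 1) := by
    intro k hk
    rw [Finset.mem_range]
    exact Nat.lt_succ_of_le (Finset.le_sup (f := id) hk)
  have hc : (0 : ℝ) < (mm J : ℝ) / nn J := by positivity
  refine ⟨((mm J : ℝ) / nn J) • ∑ k ∈ I, x k, η, A.rank η, hη, ?_, hst.wt η rfl, ?_, ?_, ?_, ?_⟩
  · exact A.exact_of_RIS hC (h.ris _) hIN hst.card hst.s_ge (hst.t_le η rfl)
  · intro l
    rw [map_smul, smul_eq_mul, abs_mul, abs_of_pos hc]
    calc (mm J : ℝ) / nn J * |A.ev (η, l) (∑ k ∈ I, x k)| ≤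
        (mm J : ℝ) / nn J * (nn J * (κ * (mm J : ℝ)⁻¹)) := by
          gcongr
          exact hst.small η rfl l
      _ = κ := by field_simp
  · rw [map_smul, map_smul, smul_eq_mul]
    have h1 := mul_le_mul_of_nonneg_left (hst.big η rfl) hc.le
    have h2 : (mm J : ℝ) / nn J * (nn J * (δ * (mm J : ℝ)⁻¹ - 9 * ε')) = δ - 9 * (mm J : ℝ) * ε' := by
      field_simp
    rw [h2, hmε] at h1
    exact h1
  · rw [map_smul, smul_eq_mul, abs_mul, abs_of_pos hc]
    calc (mm J : ℝ) / nn J * |φ (∑ k ∈ I, x k)| ≤ (mm J : ℝ) / nn J * (nn J * ε') := by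
          gcongr
          exact hst.low
      _ = mm J * ε' := by field_simp
      _ ≤ ε := by nlinarith
  · rw [map_smul, map_smul, ← smul_sub, norm_smul, Real.norm_eq_abs, abs_of_pos hc]
    have hn1 : (1 : ℝ) ≤ nn J := by exact_mod_cast nn_pos J
    calc (mm J : ℝ) / nn J * ‖V (∑ k ∈ I, x k) - A.Q (A.rank η) (V (∑ k ∈ I, x k))‖ ≤
        (mm J : ℝ) / 1 * ε' := by
          gcongr
          exact hst.high η rfl _ le_rfl
      _ ≤ ε := by rw [div_one]; nlinarith

end AHData

end Pool.Agent.MP8c9cbf
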