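import Pool.Agent.Lib.MP_8c9cbf_an.Avg

/-! Task EP1: one step in the construction of exact pairs. -/

namespace Pool.Agent.MP8c9cbf

open Finset Filter Topology

variable {T X : Type} [NormedAddCommGroup X] [NormedSpace ℝ X] (A : AHData T X)

namespace AHData

/-- stage `r` of the construction: a set `I` of `r` indices and the last top node (none if
`r = 0`) -/
structure EPst (A : AHData T X) (V : X →L[ℝ] X) (φ : X →L[ℝ] ℝ) (κ δ ε : ℝ) (x : ℕ → X) (s t : ℕ → ℕ)
    (J p0 r : ℕ) (I : Finset ℕ) (p : Option T) : Prop where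
  card : I.card = r
  wt : ∀ η, p = some η → A.wt η = some J
  age : ∀ η, p = some η → A.age η = r
  p_none : p = none → r = 0
  s_ge : ∀ k ∈ I, p0 ≤ s k
  t_le : ∀ η, p = some η → ∀ k ∈ I, t k ≤ A.rank η
  small : ∀ η, p = some η → ∀ l,
    |A.ev (η, l) (∑ k ∈ I, x k)| ≤ r * (κ * (mm J : ℝ)⁻¹)
  big : ∀ η, p = some η →
    r * (δ * (mm J : ℝ)⁻¹ - 9 * ε) ≤ A.ev (η, 0) (V (∑ k ∈ I, x k))
  low : |φ (∑ k ∈ I, x k)| ≤ r * ε
  high : ∀ η, p = some η → ∀ n ≥ A.rank η,
    ‖V (∑ k ∈ I, x k) - A.Q n (V (∑ k ∈ I, x k))‖ ≤ ε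

/-- `S = 0` -/
theorem S_apply (x : X) : A.S x = 0 := by
  refine A.eq_zero_of_ev ?_
  rintro ⟨τ, k⟩
  rw [A.ev_S, A.ev_zero (τ, k + 1) x (Nat.succ_pos k), mul_zero]

theorem Spow_pos {l : ℕ} (hl : 0 < l) (x : X) : (A.S ^ l) x = 0 := by
  obtain ⟨m, rfl⟩ := Nat.exists_eq_succ_of_ne_zero hl.ne'
  rw [Nat.succ_eq_add_one, pow_succ']
  exact A.S_apply _

theorem pair_Spow_pos {l : ℕ} (hl : 0 < l) (b : T × ℕ →₀ ℝ) (x : X) :
    A.pair b ((A.S ^ l) x) = 0 := by
  rw [A.Spow_pos hl, A.pair_zero]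

theorem EPst.step {V : X →L[ℝ] X} {φ : X →L[ℝ] ℝ} {C κ δ : ℝ} (hC : 0 ≤ C) (hκ : 0 ≤ κ)
    {x : ℕ → X} {s t j : ℕ → ℕ}
    {b : ℕ → ℕ → (T × ℕ →₀ ℝ)} (h : A.Good V C κ δ x s t j b) {J : ℕ} (hJ : Even J) (p0 : ℕ)
    {ε : ℝ} (hε : 0 < ε) {r : ℕ} (hr : r < nn J) {I : Finset ℕ} {p : Option T}
    (hst : A.EPst V φ κ δ ε x s t J p0 r I p) :
    ∃ (I' : Finset ℕ) (η' : T), p0 ≤ A.rank η' ∧
      A.EPst V φ κ δ ε x s t J p0 (r + 1) I' (some η') := by
  classical
  have hblk : ∀ k, A.Blk (s k) (t k) (x k) := fun k => (h.ris (k + 1)).blk k (Nat.lt_succ_self k)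
  have hsucc : ∀ k l, k < l → t k ≤ s l := fun k l hkl =>
    (h.ris (l + 1)).succ k l hkl (Nat.lt_succ_self l)
  have hx0 : ∀ k, x k ≠ 0 := h.ne
  have hst' : ∀ k, s k < t k := by
    intro k
    by_contra hcon
    push Not at hcon
    apply hx0 k
    have h1 := (hblk k).2
    rw [← h1]
    exact AHData.Blk.Q_le A (hblk k) hcon
  have hsk : ∀ k, k ≤ s k := by
    intro k
    induction k with
    | zero => exact Nat.zero_le _
    | succ k ih =>
      have h1 := hsucc k (k + 1) (Nat.lt_succ_self k)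
      have h2 := hst' k
      omega
  set L : ℕ := p.elim 0 (fun η => A.rank η + 1) with hL
  have hwn := A.ris_weak_null hC h.ris
  have hq1 := hwn (p.elim 0 fun ξ => (A.ev (ξ, 0)).comp V)
  have hq2 := hwn φ
  rw [Metric.tendsto_atTop] at hq1 hq2
  obtain ⟨K0, hK0⟩ := h.big L
  obtain ⟨n1, hn1⟩ := hq1 ε hε
  obtain ⟨n2, hn2⟩ := hq2 ε hε
  obtain ⟨n3, hn3⟩ : ∃ n3, ∀ k ∈ I, k < n3 := by
    refine ⟨I.sup id + 1, fun k hk => ?_⟩
    exact Nat.lt_succ_of_le (Finset.le_sup (f := id) hk)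
  obtain ⟨k', hk'1, hk'2, hk'3, hk'4, hk'5, hk'6⟩ : ∃ k', n1 ≤ k' ∧ n2 ≤ k' ∧ n3 ≤ k' ∧ L ≤ k' ∧
      p0 ≤ k' ∧ K0 ≤ k' :=
    ⟨n1 + n2 + n3 + L + p0 + K0, by omega, by omega, by omega, by omega, by omega, by omega⟩
  have hk'I : k' ∉ I := fun hk => by have := hn3 k' hk; omega
  have hLs : L ≤ s k' := hk'4.trans (hsk k')
  have hQL : |(p.elim 0 fun ξ => (A.ev (ξ, 0)).comp V) (x k')| ≤ ε := by
    have := hn1 k' hk'1
    rw [dist_zero_right] at this
    exact this.le
  have hQp : |φ (x k')| ≤ ε := by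
    have := hn2 k' hk'2
    rw [dist_zero_right] at this
    exact this.le
  set xs : X := ∑ k ∈ I, x k with hxs
  have hsum : ∑ k ∈ insert k' I, x k = x k' + xs := Finset.sum_insert hk'I
  have ht1 := A.Q_tendsto (V (x k' + xs))
  have ht2 := A.Q_tendsto (V (x k'))
  rw [Metric.tendsto_atTop] at ht1 ht2
  obtain ⟨R1, hR1⟩ := ht1 ε hε
  obtain ⟨R2, hR2⟩ := ht2 ε hε
  obtain ⟨η', hη1, hη2, hη3, hη4, hη5⟩ := A.sat_even J hJ p
    (fun ξ hξ => ⟨hst.wt ξ hξ, by rw [hst.age ξ hξ]; exact hr⟩) (b L k') (h.rat L k') (h.l1 L k')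
    (R1 + R2 + t k' + p0)
  have hlev : A.lev η' = L := by
    rw [hL]; unfold TreeData.lev; rw [hη3]
  have hI0 : p = none → xs = 0 := by
    intro hp
    have h1 := hst.card
    rw [hst.p_none hp, Finset.card_eq_zero] at h1
    rw [hxs, h1]; simp
  have hxsB : ∀ ξ, p = some ξ → A.Blk 0 (A.rank ξ) xs := by
    intro ξ hξ
    apply AHData.Blk.sum
    intro k hk
    exact AHData.Blk.mono A (hblk k) (Nat.zero_le _) (hst.t_le ξ hξ k hk)
  have hrk : ∀ ξ, p = some ξ → A.rank ξ < A.rank η' := by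
    intro ξ hξ
    exact A.prv_rank η' ξ (by rw [hη3, hξ])
  have hminv : (0 : ℝ) < (mm J : ℝ)⁻¹ := mm_inv_pos J
  have hmq : (mm J : ℝ)⁻¹ ≤ 1 / 4 := mm_inv_le_quarter J
  -- coordinates on `x k'` and on `xs`
  have hcx : ∀ l, A.ev (η', l) (x k') =
      (mm J : ℝ)⁻¹ * ((om l)⁻¹ * A.pair (b L k') ((A.S ^ l) (x k'))) := by
    intro l
    obtain ⟨b', -, -, hb3, hb4⟩ := A.node_der hη2 l
    rw [hb4, hlev, AHData.Blk.Q_le A (hblk k') hLs, sub_zero, hb3, hη4,
      AHData.Blk.dst_ge A (hblk k') (show t k' ≤ A.rank (η', l).1 by simp; omega), hη3]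
    have : (p.elim 0 fun ξ => A.ev (ξ, l) (x k')) = 0 := by
      cases hp : p with
      | none => simp
      | some ξ =>
        simp only [Option.elim_some]
        apply AHData.Blk.ev_lt A (hblk k')
        simp only
        rw [hL, hp] at hLs
        simp only [Option.elim_some] at hLs
        omega
    rw [this]; ring
  have hcs : ∀ l, A.ev (η', l) xs = p.elim 0 fun ξ => A.ev (ξ, l) xs := by
    intro l
    cases hp : p with
    | none => rw [hI0 hp]; simp
    | some ξ =>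
      obtain ⟨b', -, -, hb3, hb4⟩ := A.node_der hη2 l
      have hLξ : L = A.rank ξ + 1 := by rw [hL, hp]; rfl
      rw [hb4, hlev, AHData.Blk.Q_ge A (hxsB ξ hp) (show A.rank ξ ≤ L by omega), sub_self,
        A.pair_zero, AHData.Blk.dst_ge A (hxsB ξ hp)
          (show A.rank ξ ≤ A.rank (η', l).1 from (hrk ξ hp).le), hη3, hp]
      simp
  obtain ⟨b', hb1, -, hb3, hb4⟩ := A.node_der hη2 0
  have hb3' : ∀ y, A.pair b' y = A.pair (b L k') y := by
    intro y
    rw [hb3, hη4, om_zero]; simp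
  -- `V xs`
  have hy1 : (p.elim 0 fun ξ => A.ev (ξ, 0) (V xs)) - 4 * ε ≤ A.ev (η', 0) (V xs) := by
    cases hp : p with
    | none => rw [hI0 hp]; simp; linarith
    | some ξ =>
      have hLξ : L = A.rank ξ + 1 := by rw [hL, hp]; rfl
      have e1 : |A.dst (η', 0) (V xs)| ≤ 3 * ε := by
        have e2 : A.dst (η', 0) (V xs) = A.dst (η', 0) (V xs - A.Q (A.rank η') (V xs)) := by
          rw [A.dst_sub, A.dst_Q_high (q := (η', 0)) (le_refl _), sub_zero]
        rw [e2]
        refine (A.abs_dst_le _ _).trans ?_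
        have := hst.high ξ hp (A.rank η') (hrk ξ hp).le
        linarith
      have e3 : |A.pair b' (V xs - A.Q L (V xs))| ≤ ε := by
        refine (A.abs_pair_le_norm hb1 _).trans ?_
        exact hst.high ξ hp L (by omega)
      rw [hb4, hlev, hη3, hp]
      simp only [Option.elim_some]
      have e4 : |(mm J : ℝ)⁻¹ * A.pair b' (V xs - A.Q L (V xs))| ≤ ε := by
        rw [abs_mul, abs_of_pos hminv]
        calc (mm J : ℝ)⁻¹ * |A.pair b' (V xs - A.Q L (V xs))| ≤ 1 * ε := by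
              gcongr
              linarith
          _ = ε := one_mul _
      have := abs_le.1 e1
      have := abs_le.1 e4
      linarith
  have hy2 : δ * (mm J : ℝ)⁻¹ - 5 * ε ≤ A.ev (η', 0) (V (x k')) := by
    have e1 : |A.dst (η', 0) (V (x k'))| ≤ 3 * ε := by
      have e2 : A.dst (η', 0) (V (x k')) =
          A.dst (η', 0) (V (x k') - A.Q (A.rank η') (V (x k'))) := by
        rw [A.dst_sub, A.dst_Q_high (q := (η', 0)) (le_refl _), sub_zero]
      rw [e2]
      refine (A.abs_dst_le _ _).trans ?_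
      have := hR2 (A.rank η') (by omega)
      rw [dist_eq_norm, norm_sub_rev] at this
      linarith
    have e3 : |p.elim 0 fun ξ => A.ev (ξ, 0) (V (x k'))| ≤ ε := by
      cases hp : p with
      | none => simp; exact hε.le
      | some ξ =>
        have hLξ : L = A.rank ξ + 1 := by rw [hL, hp]; rfl
        rw [hp] at hQL
        exact hQL
    have e4 : δ - ε ≤ A.pair b' (V (x k') - A.Q L (V (x k'))) := by
      rw [hb3']
      have := hK0 k' hk'6
      linarith
    rw [hb4, hlev, hη3]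
    have e6 : (mm J : ℝ)⁻¹ * (δ - ε) ≤ (mm J : ℝ)⁻¹ * A.pair b' (V (x k') - A.Q L (V (x k'))) :=
      mul_le_mul_of_nonneg_left e4 hminv.le
    have e7 : (mm J : ℝ)⁻¹ * ε ≤ ε := by
      calc (mm J : ℝ)⁻¹ * ε ≤ 1 * ε := by gcongr; linarith
        _ = ε := one_mul _
    have := abs_le.1 e1
    have := abs_le.1 e3
    nlinarith
  refine ⟨insert k' I, η', by omega, ?_⟩
  refine
    { card := ?_
      wt := ?_
      age := ?_
      p_none := ?_
      s_ge := ?_
      t_le := ?_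
      small := ?_
      big := ?_
      low := ?_
      high := ?_ }
  · rw [Finset.card_insert_of_notMem hk'I, hst.card]
  · rintro η hη
    obtain rfl : η' = η := by simpa using hη
    exact hη2
  · rintro η hη
    obtain rfl : η' = η := by simpa using hη
    cases hp : p with
    | none => rw [hη5 hp, hst.p_none hp]
    | some ξ => rw [A.prv_age η' ξ (by rw [hη3, hp]), hst.age ξ hp]
  · intro hh
    simp at hh
  · intro k hk
    rcases Finset.mem_insert.1 hk with rfl | hk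
    · exact hk'5.trans (hsk _)
    · exact hst.s_ge k hk
  · rintro η hη k hk
    obtain rfl : η' = η := by simpa using hη
    rcases Finset.mem_insert.1 hk with rfl | hk
    · omega
    · cases hp : p with
      | none =>
        have h1 := hst.card
        rw [hst.p_none hp, Finset.card_eq_zero] at h1
        rw [h1] at hk; simp at hk
      | some ξ => exact (hst.t_le ξ hp k hk).trans (hrk ξ hp).le
  · rintro η hη l
    obtain rfl : η' = η := by simpa using hη
    rw [hsum, map_add, hcx, hcs]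
    have e1 : |(mm J : ℝ)⁻¹ * ((om l)⁻¹ * A.pair (b L k') ((A.S ^ l) (x k')))| ≤
        κ * (mm J : ℝ)⁻¹ := by
      have ho := om_pos l
      rw [abs_mul, abs_mul, abs_of_pos hminv, abs_of_pos (inv_pos.2 ho), mul_comm κ]
      apply mul_le_mul_of_nonneg_left _ hminv.le
      have e2 : |A.pair (b L k') ((A.S ^ l) (x k'))| ≤ κ * om l := by
        rcases Nat.eq_zero_or_pos l with rfl | hl
        · rw [om_zero, mul_one]
          exact h.small L k'
        · rw [A.pair_Spow_pos hl, abs_zero]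
          positivity
      calc (om l)⁻¹ * |A.pair (b L k') ((A.S ^ l) (x k'))| ≤ (om l)⁻¹ * (κ * om l) := by gcongr
        _ = κ := by field_simp
    have e2 : |p.elim 0 fun ξ => A.ev (ξ, l) xs| ≤ r * (κ * (mm J : ℝ)⁻¹) := by
      cases hp : p with
      | none => rw [hst.p_none hp]; simp
      | some ξ => exact hst.small ξ hp l
    rw [Nat.cast_add, Nat.cast_one]
    calc |(mm J : ℝ)⁻¹ * ((om l)⁻¹ * A.pair (b L k') ((A.S ^ l) (x k'))) +
          p.elim 0 fun ξ => A.ev (ξ, l) xs| ≤ _ := abs_add_le _ _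
      _ ≤ κ * (mm J : ℝ)⁻¹ + r * (κ * (mm J : ℝ)⁻¹) := add_le_add e1 e2
      _ = (r + 1) * (κ * (mm J : ℝ)⁻¹) := by ring
  · rintro η hη
    obtain rfl : η' = η := by simpa using hη
    rw [hsum, map_add, map_add]
    have e1 : r * (δ * (mm J : ℝ)⁻¹ - 9 * ε) ≤ p.elim 0 fun ξ => A.ev (ξ, 0) (V xs) := by
      cases hp : p with
      | none => rw [hst.p_none hp]; simp
      | some ξ => exact hst.big ξ hp
    push_cast
    linarith
  · rw [hsum, map_add]
    have h1 := hst.low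
    push_cast
    calc |φ (x k') + φ xs| ≤ |φ (x k')| + |φ xs| := abs_add_le _ _
      _ ≤ ε + r * ε := add_le_add hQp h1
      _ = (r + 1) * ε := by ring
  · rintro η hη n hn
    obtain rfl : η' = η := by simpa using hη
    rw [hsum]
    have := hR1 n (by omega)
    rw [dist_eq_norm, norm_sub_rev] at this
    exact this.le

end AHData

end Pool.Agent.MP8c9cbf
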