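import Pool.Agent.Lib.MP_8c9cbf_an.Tail

/-! Row R5: long chains of nodes of an even weight. -/

namespace Pool.Agent.MP8c9cbf

open Finset Filter Topology

variable {T X : Type} [NormedAddCommGroup X] [NormedSpace ℝ X] (A : AHData T X)

namespace AHData

/-- one more node: for every `y`, `c`, node `ξ` (or none), `b` a signed unit functional and `η > 0`
there is a node `τ` (of large rank, `sat_even`) with predecessor `ξ` whose value at `y` is
`ev ξ y + (1/m_J) b (tl (lev) y)` up to `η` (`dst0 τ` vanishes on `Q_R X` and is bounded by `3`,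
so take `R` with `3 ‖tl R y‖ ≤ η`; use `node_der` or the definition of `dst0` with
`A.dst (τ, 0)`, `dst_Q_high`, `abs_dst_le`), and with `‖tl (rank τ + 1) y‖ ≤ η`. -/
theorem chain_step {J : ℕ} (hJ : Even J) (p : Option T)
    (hp : ∀ ξ, p = some ξ → A.wt ξ = some J ∧ A.age ξ < nn J) (q : T × ℕ) (σ : ℚ) (hσ : |σ| ≤ 1)
    (y : X) {η : ℝ} (hη : 0 < η) : ∃ τ : T, A.wt τ = some J ∧ A.prv τ = p ∧
      A.age τ = (p.elim 1 fun ξ => A.age ξ + 1) ∧
      |A.ev (τ, 0) y - (p.elim 0 fun ξ => A.ev (ξ, 0) y) -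
        (mm J : ℝ)⁻¹ * (σ * A.ev q (A.tl (p.elim 0 fun ξ => A.rank ξ + 1) y))| ≤ η ∧
      ‖A.tl (A.rank τ + 1) y‖ ≤ η := by
  classical
  have h0 := (A.tl_tendsto y).norm
  rw [norm_zero] at h0
  obtain ⟨R, hR⟩ := Filter.eventually_atTop.1 (h0.eventually
    (gt_mem_nhds (show (0 : ℝ) < η / 3 by positivity)))
  have hσ' : |(σ : ℝ)| ≤ 1 := by exact_mod_cast hσ
  obtain ⟨τ, hτR, hτw, hτp, hτb, hτa⟩ := A.sat_even J hJ p hp (Finsupp.single q (σ : ℝ))
    (fun q' => by
      by_cases h : q = q'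
      · subst h
        exact ⟨σ, by rw [Finsupp.single_eq_same]⟩
      · exact ⟨0, by rw [Finsupp.single_eq_of_ne' h]; simp⟩)
    (by
      have h1 := Finsupp.sum_single_index (a := q) (b := (σ : ℝ)) (h := fun _ c => |c|) (by simp)
      refine le_of_eq_of_le ?_ hσ'
      exact h1) R
  refine ⟨τ, hτw, hτp, ?_, ?_, ?_⟩
  · cases hpp : p with
    | none => exact hτa hpp
    | some ξ => exact A.prv_age τ ξ (by rw [hτp, hpp])
  · obtain ⟨b', -, -, h3, h4⟩ := A.node_der hτw 0
    have h5 : A.pair b' (y - A.Q (A.lev τ) y) = σ * A.ev q (y - A.Q (A.lev τ) y) := by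
      rw [h3, hτb, om_zero, inv_one, one_mul, pow_zero]
      exact A.pair_single q _ _
    have h6 : A.lev τ = (p.elim 0 fun ξ => A.rank ξ + 1) := by
      unfold TreeData.lev
      rw [hτp]
    have h7 : A.ev (τ, 0) y - (p.elim 0 fun ξ => A.ev (ξ, 0) y) -
        (mm J : ℝ)⁻¹ * (σ * A.ev q (A.tl (p.elim 0 fun ξ => A.rank ξ + 1) y)) =
        A.dst (τ, 0) y := by
      rw [h4 y, h5, h6, hτp, A.tl_apply]
      ring
    rw [h7]
    have h8 : A.dst (τ, 0) y = A.dst (τ, 0) (A.tl R y) := by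
      rw [A.tl_apply, A.dst_sub, A.dst_Q_high (q := (τ, 0)) hτR, sub_zero]
    rw [h8]
    have h9 := A.abs_dst_le (τ, 0) (A.tl R y)
    have h10 := hR R le_rfl
    linarith
  · have h10 := hR (A.rank τ + 1) (by omega)
    linarith

/-- Let `v_i` be a sequence with `g (v_i) → 0` for every functional `g` and such that for every `p`
eventually `ε ≤ ‖tl p (v_i)‖`.  Then for every even `J` and `1 ≤ K ≤ n_J` there are `K` of the
vectors with sum of norm `≥ K ε / (4 m_J)`.  Induction on `K`, claim: there is `S`, `|S| = K`, such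
that for every `η > 0` there is `ξ` of weight `J`, age `K`, with
`K (ε / (4 m_J)) ≤ ev ξ (Σ_S v)` and `‖tl (rank ξ + 1) (Σ_S v)‖ ≤ η`.  Step: take `ξ` for
`η = ε / 16`, then `i` not in `S` large with `|ev ξ v_i| ≤ ε / (16 m_J)` and
`ε ≤ ‖tl (rank ξ + 1) v_i‖`, a coordinate `q` with `|ev q (tl (rank ξ + 1) v_i)| ≥ ε / 2`
(`norm_le`), `σ = ± 1` its sign, and `chain_step` for `y = Σ_(S ∪ i) v`. -/
theorem chain_sum {v : ℕ → X} (hv : ∀ g : X →L[ℝ] ℝ, Tendsto (fun i => g (v i)) atTop (𝓝 0))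
    {ε : ℝ} (hε : 0 < ε) (hp : ∀ p, ∀ᶠ i in atTop, ε ≤ ‖A.tl p (v i)‖) {J : ℕ} (hJ : Even J)
    {K : ℕ} (hK : 1 ≤ K) (hK' : K ≤ nn J) :
    ∃ S : Finset ℕ, S.card = K ∧ K * (ε / 4 * (mm J : ℝ)⁻¹) ≤ ‖∑ i ∈ S, v i‖ := by
  classical
  have hm := mm_inv_pos J
  set m : ℝ := (mm J : ℝ)⁻¹ with hmdef
  have key : ∀ K : ℕ, K ≤ nn J → ∃ S : Finset ℕ, S.card = K ∧ ∀ η : ℝ, 0 < η →
      ∃ p : Option T, (∀ ξ, p = some ξ → A.wt ξ = some J) ∧ (p.elim 0 fun ξ => A.age ξ) = K ∧
        K * (ε / 4 * m) ≤ (p.elim 0 fun ξ => A.ev (ξ, 0) (∑ i ∈ S, v i)) ∧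
        ‖A.tl (p.elim 0 fun ξ => A.rank ξ + 1) (∑ i ∈ S, v i)‖ ≤ η := by
    intro K
    induction K with
    | zero =>
      intro _
      refine ⟨∅, Finset.card_empty, fun η hη =>
        ⟨none, fun ξ hξ => absurd hξ (by simp), rfl, ?_, ?_⟩⟩
      · simp
      · simp only [Finset.sum_empty, map_zero, norm_zero]
        exact hη.le
    | succ K ih =>
      intro hK
      obtain ⟨S, hS, hS'⟩ := ih (by omega)
      obtain ⟨p, hpw, hpa, hpv, hpt⟩ := hS' (ε / 16) (by positivity)
      set L : ℕ := (p.elim 0 fun ξ => A.rank ξ + 1) with hL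
      -- the new index
      have e1 : ∀ᶠ i in atTop, |(p.elim 0 fun ξ => A.ev (ξ, 0) (v i))| ≤ ε / 16 * m := by
        rcases hpp : p with _ | ξ
        · refine Filter.Eventually.of_forall fun i => ?_
          simp only [Option.elim_none, abs_zero]
          positivity
        · simp only [Option.elim_some]
          have h1 := (hv (A.ev (ξ, 0))).abs
          rw [abs_zero] at h1
          exact (h1.eventually (gt_mem_nhds (show (0 : ℝ) < ε / 16 * m by positivity))).mono
            fun i hi => hi.le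
      obtain ⟨i, ⟨hi1, hi2⟩, hi3⟩ := ((e1.and (hp L)).and
        (eventually_gt_atTop (S.sup id))).exists
      have hiS : i ∉ S := by
        intro h
        have := Finset.le_sup (f := id) h
        simp only [id] at this
        omega
      have hq : ∃ q, ε / 2 < |A.ev q (A.tl L (v i))| := by
        by_contra hcon
        push Not at hcon
        have := A.norm_le _ (ε / 2) (by positivity) hcon
        linarith
      obtain ⟨q, hq⟩ := hq
      obtain ⟨σ, hσ1, hσ2⟩ : ∃ σ : ℚ, |σ| ≤ 1 ∧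
          (σ : ℝ) * A.ev q (A.tl L (v i)) = |A.ev q (A.tl L (v i))| := by
        rcases le_total 0 (A.ev q (A.tl L (v i))) with h | h
        · exact ⟨1, by simp, by rw [abs_of_nonneg h]; simp⟩
        · exact ⟨-1, by simp, by rw [abs_of_nonpos h]; simp⟩
      have hσ' : |(σ : ℝ)| ≤ 1 := by exact_mod_cast hσ1
      have hsum : ∑ l ∈ insert i S, v l = v i + ∑ l ∈ S, v l := Finset.sum_insert hiS
      refine ⟨insert i S, by rw [Finset.card_insert_of_notMem hiS, hS], fun η hη => ?_⟩
      obtain ⟨τ, hτw, hτp, hτa, hτv, hτt⟩ := A.chain_step hJ p (fun ξ hξ => by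
        refine ⟨hpw ξ hξ, ?_⟩
        rw [hξ] at hpa
        simp only [Option.elim_some] at hpa
        omega) q σ hσ1 (∑ l ∈ insert i S, v l) (η := min η (ε / 16 * m))
        (lt_min hη (by positivity))
      refine ⟨some τ, fun ξ hξ => ?_, ?_, ?_, ?_⟩
      · rw [← Option.some.inj hξ]; exact hτw
      · simp only [Option.elim_some]
        rw [hτa]
        rcases hpp : p with _ | ξ
        · rw [hpp] at hpa
          simp only [Option.elim_none] at hpa ⊢
          omega
        · rw [hpp] at hpa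
          simp only [Option.elim_some] at hpa ⊢
          omega
      · simp only [Option.elim_some]
        rw [← hL] at hτv
        have h1 := hτv.trans (min_le_right _ _)
        have h2 : (p.elim 0 fun ξ => A.ev (ξ, 0) (∑ l ∈ insert i S, v l)) =
            (p.elim 0 fun ξ => A.ev (ξ, 0) (v i)) +
            (p.elim 0 fun ξ => A.ev (ξ, 0) (∑ l ∈ S, v l)) := by
          rw [hsum]
          rcases p with _ | ξ
          · simp
          · simp only [Option.elim_some, map_add]
        have h3 : (σ : ℝ) * A.ev q (A.tl L (∑ l ∈ insert i S, v l)) =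
            |A.ev q (A.tl L (v i))| + σ * A.ev q (A.tl L (∑ l ∈ S, v l)) := by
          rw [hsum, map_add, map_add, mul_add, hσ2]
        have h4 : |(σ : ℝ) * A.ev q (A.tl L (∑ l ∈ S, v l))| ≤ ε / 16 := by
          rw [abs_mul]
          have g1 := (A.ev_le q (A.tl L (∑ l ∈ S, v l))).trans hpt
          calc |(σ : ℝ)| * |A.ev q (A.tl L (∑ l ∈ S, v l))|
              ≤ 1 * (ε / 16) := mul_le_mul hσ' g1 (abs_nonneg _) zero_le_one
            _ = ε / 16 := one_mul _
        rw [h2, h3] at h1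
        have h5 := (abs_le.1 h1).1
        have h6 := (abs_le.1 hi1).1
        have h7 := (abs_le.1 h4).1
        have h8 : m * (7 * ε / 16) ≤ m * (|A.ev q (A.tl L (v i))| +
            σ * A.ev q (A.tl L (∑ l ∈ S, v l))) := by
          apply mul_le_mul_of_nonneg_left _ hm.le
          linarith
        push_cast
        nlinarith
      · exact hτt.trans (min_le_left _ _)
  obtain ⟨S, hS, hS'⟩ := key K hK'
  refine ⟨S, hS, ?_⟩
  obtain ⟨p, -, -, h3, -⟩ := hS' 1 one_pos
  refine h3.trans ?_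
  rcases p with _ | ξ
  · exact norm_nonneg _
  · exact (le_abs_self _).trans (A.ev_le _ _)

end AHData

end Pool.Agent.MP8c9cbf
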