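import Pool.Agent.Lib.MP_8c9cbf_an.F.Bas
import Pool.Agent.Lib.MP_8c9cbf_an.FCh

/-! Row R6: operators from `c_0`. -/

namespace Pool.Agent.MP8c9cbf

open Finset Filter Topology

variable {T X : Type} [NormedAddCommGroup X] [NormedSpace ℝ X] (A : AHData T X)

namespace AHData

private theorem fseq_sum {ι : Type} (S : Finset ι) (c : ι → ℝ) (u : ι → CZ ℝ) (k : ℕ) :
    (∑ i ∈ S, c i • u i) k = ∑ i ∈ S, c i * u i k := by
  have h : CZ.co k (∑ i ∈ S, c i • u i) = ∑ i ∈ S, c i * u i k := by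
    rw [map_sum]
    refine Finset.sum_congr rfl fun i _ => ?_
    rw [map_smul, smul_eq_mul, CZ.co_apply]
  exact h

private theorem fseq_head (u : CZ ℝ) (M k : ℕ) :
    (∑ i ∈ Finset.range M, u i • (CZ.dl i : CZ ℝ)) k = if k < M then u k else 0 := by
  rw [fseq_sum]
  simp only [CZ.dl_apply, mul_ite, mul_one, mul_zero]
  rw [Finset.sum_ite_eq]
  simp only [Finset.mem_range]

/-- finding one vector with finite support in `[N, M)` -/
theorem exists_hump (V : CZ ℝ →L[ℝ] X) {ε : ℝ} (hε : 0 < ε)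
    (h : ∀ p, ∃ u, ε * ‖u‖ < ‖A.tl p (V u)‖) (N p0 : ℕ) : ∃ (M p : ℕ) (u : CZ ℝ), N ≤ M ∧
      p0 ≤ p ∧ (∀ k, k < N → u k = 0) ∧ (∀ k, M ≤ k → u k = 0) ∧ (∀ k, |u k| ≤ 1) ∧
      ε / 2 < ‖A.tl p (V u)‖ := by
  have h1 : ∀ᶠ p in atTop, ∀ k ∈ Finset.range N,
      ‖A.tl p (V (CZ.dl k))‖ < ε / (4 * (N + 1)) := by
    rw [Filter.eventually_all_finset]
    intro k _
    have h0 := (A.tl_tendsto (V (CZ.dl k))).norm
    rw [norm_zero] at h0
    exact h0.eventually (gt_mem_nhds (by positivity))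
  obtain ⟨p, hp1, hp2⟩ := (h1.and (eventually_ge_atTop p0)).exists
  obtain ⟨w, hw⟩ := h p
  have hw0 : w ≠ 0 := by
    intro h0
    rw [h0, norm_zero, mul_zero, map_zero, map_zero, norm_zero] at hw
    exact lt_irrefl _ hw
  have hn0 : 0 < ‖w‖ := norm_pos_iff.2 hw0
  set u : CZ ℝ := ‖w‖⁻¹ • w with hu
  have hun : ‖u‖ = 1 := by
    rw [hu, norm_smul, norm_inv, norm_norm, inv_mul_cancel₀ hn0.ne']
  have hux : ε < ‖A.tl p (V u)‖ := by
    have h1 : ‖A.tl p (V u)‖ = ‖w‖⁻¹ * ‖A.tl p (V w)‖ := by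
      rw [hu, map_smul, map_smul, norm_smul, norm_inv, norm_norm]
    rw [h1, inv_mul_eq_div, lt_div_iff₀ hn0]
    exact hw
  have huk : ∀ k, |u k| ≤ 1 := by
    intro k
    have := CZ.norm_coord_le u k
    rw [hun] at this
    exact this
  have h2 : Tendsto (fun M => ‖A.tl p (V (∑ i ∈ Finset.range M, u i • (CZ.dl i : CZ ℝ)))‖) atTop
      (𝓝 ‖A.tl p (V u)‖) :=
    (((A.tl p).continuous.tendsto _).comp ((V.continuous.tendsto _).comp
      (CZ.hasSum u).tendsto_sum_nat)).norm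
  obtain ⟨M, hM1, hM2⟩ := ((h2.eventually (lt_mem_nhds hux)).and
    (eventually_ge_atTop N)).exists
  have h3 : ‖A.tl p (V (∑ i ∈ Finset.range N, u i • (CZ.dl i : CZ ℝ)))‖ ≤ ε / 4 := by
    rw [map_sum, map_sum]
    refine (norm_sum_le _ _).trans ?_
    calc ∑ i ∈ Finset.range N, ‖A.tl p (V (u i • (CZ.dl i : CZ ℝ)))‖
        ≤ ∑ i ∈ Finset.range N, ε / (4 * (N + 1)) := by
          refine Finset.sum_le_sum fun i hi => ?_
          rw [map_smul, map_smul, norm_smul, Real.norm_eq_abs]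
          calc |u i| * ‖A.tl p (V (CZ.dl i))‖ ≤ 1 * (ε / (4 * (N + 1))) :=
                mul_le_mul (huk i) (hp1 i hi).le (norm_nonneg _) zero_le_one
            _ = _ := one_mul _
      _ = N * (ε / (4 * (N + 1))) := by rw [Finset.sum_const, Finset.card_range, nsmul_eq_mul]
      _ ≤ ε / 4 := by
          rw [← mul_div_assoc, div_le_div_iff₀ (by positivity) (by norm_num)]
          nlinarith
  refine ⟨M, p, (∑ i ∈ Finset.range M, u i • (CZ.dl i : CZ ℝ)) -
    ∑ i ∈ Finset.range N, u i • (CZ.dl i : CZ ℝ), hM2, hp2, ?_, ?_, ?_, ?_⟩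
  · intro k hk
    rw [ZeroAtInftyContinuousMap.sub_apply, fseq_head, fseq_head, if_pos hk,
      if_pos (by omega), sub_self]
  · intro k hk
    rw [ZeroAtInftyContinuousMap.sub_apply, fseq_head, fseq_head, if_neg (by omega),
      if_neg (by omega), sub_self]
  · intro k
    rw [ZeroAtInftyContinuousMap.sub_apply, fseq_head, fseq_head]
    have := huk k
    split_ifs
    · rw [sub_self, abs_zero]; exact zero_le_one
    · rw [sub_zero]; exact this
    · omega
    · rw [sub_self, abs_zero]; exact zero_le_one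
  · rw [map_sub, map_sub]
    have h4 := norm_sub_norm_le (A.tl p (V (∑ i ∈ Finset.range M, u i • (CZ.dl i : CZ ℝ))))
      (A.tl p (V (∑ i ∈ Finset.range N, u i • (CZ.dl i : CZ ℝ))))
    linarith

/-- for every bounded operator `V : c_0 → X` the norms `‖(I - Q p) V‖` tend to `0`.  Assume not;
`exists_hump` gives `u_i` with supports in consecutive intervals, `|u_i| ≤ 1`, and `p_i ≥ i` with
`ε / 2 < ‖tl p_i (V u_i)‖`.  `v_i = V u_i`: `‖Σ_S ± u_i‖ ≤ 1`, so `Σ_S |g (v_i)| ≤ ‖g‖ ‖V‖` for every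
finite `S`, so `g (v_i) → 0`; `ε / 6 ≤ ‖tl p (v_i)‖` for `i ≥ p` (`norm_tl_mono`).  `chain_sum` with
`K = n_J`: `n_J (ε / 24) / m_J ≤ ‖V‖`, false for large even `J` (`mm_sq_le_nn`). -/
theorem tl_comp_c0 (V : CZ ℝ →L[ℝ] X) {ε : ℝ} (hε : 0 < ε) :
    ∃ p, ∀ u, ‖A.tl p (V u)‖ ≤ ε * ‖u‖ := by
  by_contra hcon
  push Not at hcon
  have hex := A.exists_hump V hε hcon
  choose M P U h1 h2 h3 h4 h5 h6 using hex
  let st : ℕ → ℕ × ℕ := fun i => Nat.rec (0, 0) (fun _ s => (M s.1 s.2, s.2 + 1)) i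
  let B : ℕ → ℕ := fun i => (st i).1
  have hst2 : ∀ i, (st i).2 = i := by
    intro i
    induction i with
    | zero => rfl
    | succ i ih =>
      show (st i).2 + 1 = i + 1
      rw [ih]
  have hB : ∀ i, B (i + 1) = M (B i) i := by
    intro i
    show M (st i).1 (st i).2 = M (B i) i
    rw [hst2]
  set u : ℕ → CZ ℝ := fun i => U (B i) i with hu
  have hBmono : Monotone B := monotone_nat_of_le_succ fun i => by
    rw [hB]
    exact h1 _ _
  have hdisj : ∀ i j k, i < j → u j k ≠ 0 → u i k = 0 := by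
    intro i j k hij hjk
    have e1 : B j ≤ k := by
      by_contra h
      exact hjk (h3 (B j) j k (by omega))
    have e2 : B (i + 1) ≤ B j := hBmono hij
    rw [hB] at e2
    exact h4 (B i) i k (by omega)
  -- sums of the humps
  have hsum : ∀ (S : Finset ℕ) (c : ℕ → ℝ), (∀ i, |c i| ≤ 1) → ‖∑ i ∈ S, c i • u i‖ ≤ 1 := by
    intro S c hc
    refine CZ.norm_le _ zero_le_one fun k => ?_
    rw [fseq_sum, Real.norm_eq_abs]
    by_cases hall : ∀ i ∈ S, u i k = 0
    · rw [Finset.sum_eq_zero fun i hi => by rw [hall i hi, mul_zero], abs_zero]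
      exact zero_le_one
    · push Not at hall
      obtain ⟨i, hi, hik⟩ := hall
      rw [Finset.sum_eq_single i]
      · rw [abs_mul]
        calc |c i| * |u i k| ≤ 1 * 1 :=
              mul_le_mul (hc i) (h5 (B i) i k) (abs_nonneg _) zero_le_one
          _ = 1 := one_mul 1
      · intro j _ hji
        rcases lt_or_gt_of_ne hji with h | h
        · rw [hdisj j i k h hik, mul_zero]
        · have : u j k = 0 := by
            by_contra hjk
            exact hik (hdisj i j k h hjk)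
          rw [this, mul_zero]
      · intro h
        exact absurd hi h
  have hv : ∀ g : X →L[ℝ] ℝ, Tendsto (fun i => g (V (u i))) atTop (𝓝 0) := by
    intro g
    have hs : Summable fun i => |g (V (u i))| := by
      refine summable_of_sum_le (c := ‖g.comp V‖) (fun i => abs_nonneg _) fun S => ?_
      have e1 : ∑ i ∈ S, |g (V (u i))| =
          (g.comp V) (∑ i ∈ S, (SignType.sign (g (V (u i))) : ℝ) • u i) := by
        rw [map_sum]
        refine Finset.sum_congr rfl fun i _ => ?_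
        rw [map_smul, smul_eq_mul]
        exact (sign_mul_self _).symm
      rw [e1]
      refine (le_abs_self _).trans (((g.comp V).le_opNorm _).trans ?_)
      have e2 := hsum S (fun i => (SignType.sign (g (V (u i))) : ℝ)) (fun i => by
        rcases lt_trichotomy (g (V (u i))) 0 with h | h | h
        · rw [sign_neg h]; simp
        · rw [h]; simp
        · rw [sign_pos h]; simp)
      calc ‖g.comp V‖ * _ ≤ ‖g.comp V‖ * 1 := mul_le_mul_of_nonneg_left e2 (ContinuousLinearMap.opNorm_nonneg _)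
        _ = ‖g.comp V‖ := mul_one _
    have h0 := hs.tendsto_atTop_zero
    exact (tendsto_zero_iff_abs_tendsto_zero _).2 h0
  have hp : ∀ p, ∀ᶠ i in atTop, ε / 6 ≤ ‖A.tl p (V (u i))‖ := by
    intro p
    filter_upwards [eventually_ge_atTop p] with i hi
    have e1 := h6 (B i) i
    have e2 := A.norm_tl_mono (hi.trans (h2 (B i) i)) (V (u i))
    change ε / 2 < ‖A.tl (P (B i) i) (V (u i))‖ at e1
    linarith
  obtain ⟨k, hk⟩ := exists_nat_gt (‖V‖ * 24 / ε)
  obtain ⟨S, -, hS⟩ := A.chain_sum hv (show (0 : ℝ) < ε / 6 by positivity) hp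
    (J := 2 * k) (even_two_mul k) (nn_pos (2 * k)) (le_refl _)
  have e1 : ‖∑ i ∈ S, V (u i)‖ ≤ ‖V‖ := by
    have g1 := hsum S (fun _ => 1) (fun _ => by rw [abs_one])
    simp only [one_smul] at g1
    rw [← map_sum]
    refine (V.le_opNorm _).trans ?_
    calc ‖V‖ * _ ≤ ‖V‖ * 1 := mul_le_mul_of_nonneg_left g1 (ContinuousLinearMap.opNorm_nonneg _)
      _ = ‖V‖ := mul_one _
  have hm0 : (0 : ℝ) < mm (2 * k) := by exact_mod_cast mm_pos _
  have e2 : (mm (2 * k) : ℝ) ^ 2 ≤ nn (2 * k) := by exact_mod_cast mm_sq_le_nn (2 * k)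
  have e3 : (mm (2 * k) : ℝ) ≤ nn (2 * k) * (mm (2 * k) : ℝ)⁻¹ := by
    rw [← div_eq_mul_inv, le_div_iff₀ hm0]
    nlinarith
  have e4 : (k : ℝ) ≤ mm (2 * k) := by
    have : k ≤ mm (2 * k) := by
      have := three_mul_le_mm (2 * k)
      omega
    exact_mod_cast this
  have e5 : ‖V‖ * 24 < ε * mm (2 * k) := by
    rw [div_lt_iff₀ hε] at hk
    nlinarith
  have e6 : (nn (2 * k) : ℝ) * (ε / 6 / 4 * (mm (2 * k) : ℝ)⁻¹) =
      ε / 24 * (nn (2 * k) * (mm (2 * k) : ℝ)⁻¹) := by ring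
  rw [e6] at hS
  have e7 := mul_le_mul_of_nonneg_left e3 (show (0 : ℝ) ≤ ε / 24 by positivity)
  linarith

end AHData

end Pool.Agent.MP8c9cbf
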