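import Pool.Agent.Lib.MP_8c9cbf_an.Main

/-! Consequences for closed complemented subspaces, in the form used in the hand-in. -/

namespace Pool.Agent.MP8c9cbf

open Finset Filter Topology

variable {𝕜 : Type} [RCLike 𝕜]

/-- `Y`, `Z` complementary with a bounded projection: both are closed -/
theorem closed_of_proj {X : Type*} [NormedAddCommGroup X] [NormedSpace 𝕜 X]
    {Y Z : Submodule 𝕜 X} (h : IsCompl Y Z) (P : X →L[𝕜] X) (hY : ∀ y ∈ Y, P y = y)
    (hZ : ∀ z ∈ Z, P z = 0) : IsClosed (Y : Set X) ∧ IsClosed (Z : Set X) := by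
  have hdec : ∀ x : X, ∃ y ∈ Y, ∃ z ∈ Z, y + z = x := fun x =>
    Submodule.mem_sup.1 (by rw [h.sup_eq_top]; exact Submodule.mem_top)
  constructor
  · have : (Y : Set X) = {x | P x = x} := by
      ext x
      constructor
      · intro hx
        exact hY x hx
      · intro hx
        obtain ⟨y, hy, z, hz, rfl⟩ := hdec x
        have h1 : P (y + z) = y := by rw [map_add, hY y hy, hZ z hz, add_zero]
        have h2 : P (y + z) = y + z := hx
        rw [h1] at h2
        rw [← h2]
        exact hy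
    rw [this]
    exact isClosed_eq P.continuous continuous_id
  · have : (Z : Set X) = {x | P x = 0} := by
      ext x
      constructor
      · intro hx
        exact hZ x hx
      · intro hx
        obtain ⟨y, hy, z, hz, rfl⟩ := hdec x
        have h1 : P (y + z) = y := by rw [map_add, hY y hy, hZ z hz, add_zero]
        have h2 : P (y + z) = 0 := hx
        rw [h1] at h2
        rw [h2, zero_add]
        exact hz
    rw [this]
    exact isClosed_eq P.continuous continuous_const

/-- `W` is isomorphic to a complemented subspace of `Z` -/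
def Retr (𝕜 : Type) [RCLike 𝕜] (W Z : Type) [NormedAddCommGroup W] [NormedSpace 𝕜 W]
    [NormedAddCommGroup Z] [NormedSpace 𝕜 Z] : Prop :=
  ∃ (a : W →L[𝕜] Z) (b : Z →L[𝕜] W), ∀ w, b (a w) = w

namespace FS

variable {X : Type} [NormedAddCommGroup X] [NormedSpace 𝕜 X] [CompleteSpace X] (F : FS 𝕜 X)

include F

/-- the complemented subspaces of `X^n` -/
theorem pow_iff (n : ℕ) (hn : 1 ≤ n) (W : Type) [NormedAddCommGroup W] [NormedSpace 𝕜 W]
    [CompleteSpace W] (hW : ¬ FiniteDimensional 𝕜 W) : Retr 𝕜 W (Fin n → X) ↔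
      Nonempty (W ≃L[𝕜] CZ 𝕜) ∨ ∃ k, 1 ≤ k ∧ k ≤ n ∧ Nonempty (W ≃L[𝕜] (Fin k → X)) := by
  constructor
  · rintro ⟨a, b, h⟩
    exact F.pow_retract n a b h hW
  · rintro (⟨⟨e⟩⟩ | ⟨k, hk1, hk, ⟨e⟩⟩)
    · -- `c_0` in the first coordinate
      let i0 : Fin n := ⟨0, hn⟩
      let ι : X →L[𝕜] (Fin n → X) := ContinuousLinearMap.pi fun i =>
        if i = i0 then ContinuousLinearMap.id 𝕜 X else 0
      refine ⟨(ι.comp (F.J 0)).comp (e : W →L[𝕜] CZ 𝕜),
        ((e.symm : CZ 𝕜 →L[𝕜] W).comp (F.R 0)).comp (ContinuousLinearMap.proj i0), fun w => ?_⟩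
      show e.symm (F.R 0 ((if i0 = i0 then ContinuousLinearMap.id 𝕜 X else 0) (F.J 0 (e w)))) = w
      rw [if_pos rfl, ContinuousLinearMap.id_apply, F.RJ]
      exact e.symm_apply_apply w
    · let ι : (Fin k → X) →L[𝕜] (Fin n → X) := ContinuousLinearMap.pi fun i =>
        if h : i.1 < k then ContinuousLinearMap.proj ⟨i.1, h⟩ else 0
      let π : (Fin n → X) →L[𝕜] (Fin k → X) := ContinuousLinearMap.pi fun i =>
        ContinuousLinearMap.proj (Fin.castLE hk i)
      refine ⟨ι.comp (e : W →L[𝕜] (Fin k → X)), (e.symm : (Fin k → X) →L[𝕜] W).comp π,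
        fun w => ?_⟩
      have h1 : π (ι (e w)) = e w := by
        funext i
        show (if h : (Fin.castLE hk i).1 < k then
          (ContinuousLinearMap.proj ⟨(Fin.castLE hk i).1, h⟩ : (Fin k → X) →L[𝕜] X) else 0)
            (e w) = e w i
        rw [dif_pos (show (Fin.castLE hk i).1 < k from i.2)]
        rfl
      show e.symm (π (ι (e w))) = w
      rw [h1]
      exact e.symm_apply_apply w

end FS

end Pool.Agent.MP8c9cbf
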