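import Pool.Agent.Lib.MP_8c9cbf_an.PropM
import Pool.Agent.Lib.MP_8c9cbf_an.BV1

/-! One scalar for all base vectors, up to `δ`. -/

namespace Pool.Agent.MP8c9cbf

open Finset Filter Topology

variable {T X : Type} [NormedAddCommGroup X] [NormedSpace ℝ X] (A : AHData T X)

namespace AHData

/-- one pair of base vectors -/
private theorem lam1_pair (V : X →L[ℝ] X) {n m p : ℕ} (hpn : p ≤ n) (hnm : n < m) {yn ym : X}
    (hn : A.IsBase n yn) (hm : A.IsBase m ym) (a b c : ℝ) {δ : ℝ}
    (h1 : ‖A.tl p (V yn - a • yn)‖ ≤ δ) (h2 : ‖A.tl p (V ym - b • ym)‖ ≤ δ)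
    (h3 : ‖A.tl p (V (yn + ym) - c • (yn + ym))‖ ≤ δ) : |a - b| ≤ 15 * δ := by
  have e0 : A.tl p yn = yn := A.tl_blk hn.blk hpn
  have e0' : A.tl p ym = ym := A.tl_blk hm.blk (by omega)
  have e1 : (a - c) • yn + (b - c) • ym = A.tl p (V (yn + ym) - c • (yn + ym)) -
      A.tl p (V yn - a • yn) - A.tl p (V ym - b • ym) := by
    simp only [map_add, map_sub, map_smul, smul_add, e0, e0', sub_smul]
    abel
  have e2 : ‖(a - c) • yn + (b - c) • ym‖ ≤ 3 * δ := by
    rw [e1]
    have g1 := norm_sub_le (A.tl p (V (yn + ym) - c • (yn + ym)) - A.tl p (V yn - a • yn))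
      (A.tl p (V ym - b • ym))
    have g2 := norm_sub_le (A.tl p (V (yn + ym) - c • (yn + ym))) (A.tl p (V yn - a • yn))
    linarith
  have e3 : ‖(a - c) • yn‖ ≤ 6 * δ := by
    have g1 : A.Q (n + 1) ((a - c) • yn + (b - c) • ym) = (a - c) • yn := by
      rw [map_add, map_smul, map_smul, hn.blk.2, AHData.Blk.Q_le A hm.blk (by omega), smul_zero,
        add_zero]
    have g2 := A.Q_norm (n + 1) ((a - c) • yn + (b - c) • ym)
    rw [g1] at g2
    linarith
  have e4 : ‖(b - c) • ym‖ ≤ 9 * δ := by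
    have g1 : (b - c) • ym = ((a - c) • yn + (b - c) • ym) - (a - c) • yn := by abel
    rw [g1]
    refine (norm_sub_le _ _).trans ?_
    linarith
  have i1 := (hn.abs_le A (a - c)).trans e3
  have i2 := (hm.abs_le A (b - c)).trans e4
  have i3 := abs_sub_le a c b
  rw [abs_sub_comm c b] at i3
  linarith

theorem exists_lam_delta (V : X →L[ℝ] X) {y : ℕ → X} (hy : ∀ n, A.IsBase n (y n)) {δ : ℝ}
    (hδ : 0 < δ) : ∃ (c : ℝ) (p : ℕ), ∀ᶠ n in atTop, ‖A.tl p (V (y n) - c • y n)‖ < δ := by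
  by_contra hcon
  push Not at hcon
  set δ' : ℝ := δ / 400 with hδ'
  have hδ'0 : 0 < δ' := by positivity
  obtain ⟨p', hp'⟩ := A.propM V (C := 8) (by norm_num) hδ'0 (A.ris_base hy)
  obtain ⟨N0, hN0⟩ := Filter.eventually_atTop.1 hp'
  have hc : ∀ n, ∃ c : ℝ, N0 ≤ n → ‖A.tl p' (V (y n) - c • y n)‖ < δ' := by
    intro n
    by_cases hn : N0 ≤ n
    · obtain ⟨c, hc⟩ := hN0 n hn
      exact ⟨c, fun _ => hc⟩
    · exact ⟨0, fun h => absurd h hn⟩
  choose c hc using hc
  -- pairs
  have hpair : ∀ N : ℕ, ∃ n m : ℕ, N ≤ n ∧ N0 ≤ n ∧ n < m ∧ δ / 7 ≤ |c n - c m| := by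
    intro N
    set n : ℕ := max N N0 with hn
    have hn0 : N0 ≤ n := le_max_right _ _
    obtain ⟨m, hm1, hm2⟩ := (Filter.frequently_atTop.1 (hcon (c n) p')) (n + 1)
    refine ⟨n, m, le_max_left _ _, hn0, hm1, ?_⟩
    have h1 := hc m (by omega)
    have h2 : A.tl p' (V (y m) - c n • y m) = A.tl p' (V (y m) - c m • y m) +
        (c m - c n) • A.tl p' (y m) := by
      simp only [map_sub, map_smul, sub_smul]
      abel
    rw [h2] at hm2
    have h3 := norm_add_le (A.tl p' (V (y m) - c m • y m)) ((c m - c n) • A.tl p' (y m))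
    have h4 : ‖(c m - c n) • A.tl p' (y m)‖ ≤ |c m - c n| * 6 := by
      rw [norm_smul, Real.norm_eq_abs]
      apply mul_le_mul_of_nonneg_left _ (abs_nonneg _)
      have := A.norm_tl_le p' (y m)
      have := (hy m).nrm
      linarith
    rw [abs_sub_comm]
    linarith
  choose f g hf hf0 hfg hbig using hpair
  -- the recursively defined thresholds
  let M : ℕ → ℕ := fun k => Nat.rec 0 (fun _ r => g r + 1) k
  have hM : ∀ k, M (k + 1) = g (M k) + 1 := fun _ => rfl
  have hts : ∀ k, g (M k) + 1 ≤ f (M (k + 1)) := by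
    intro k
    rw [← hM]
    exact hf _
  have hMk : ∀ k, k ≤ M k := by
    intro k
    induction k with
    | zero => exact Nat.zero_le _
    | succ k ih =>
      rw [hM]
      have h1 := hf (M k)
      have h2 := hfg (M k)
      omega
  have hfk : ∀ k, k ≤ f (M k) := fun k => (hMk k).trans (hf _)
  have hris : ∀ N, A.RIS 16 N (fun k => y (f (M k)) + y (g (M k))) (fun k => f (M k))
      (fun k => g (M k) + 1) (fun k => f (M k) + k) := by
    apply A.ris_of_all (C := 16)
    · intro k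
      have h1 := hfg (M k)
      exact Blk.add A (Blk.mono A (hy _).blk (le_refl _) (by omega))
        (Blk.mono A (hy _).blk h1.le (le_refl _))
    · intro k
      have h1 := hfg (M k)
      change f (M k) ≤ g (M k) + 1
      omega
    · exact hts
    · intro k
      have h1 := (hy (f (M k))).nrm
      have h2 := (hy (g (M k))).nrm
      have h3 := norm_add_le (y (f (M k))) (y (g (M k)))
      change ‖y (f (M k)) + y (g (M k))‖ ≤ 16
      linarith
    · intro k q i hq
      have h1 := (hy (f (M k))).wtb q i hq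
      have h2 := (hy (g (M k))).wtb q i hq
      change |A.ev q (y (f (M k)) + y (g (M k)))| ≤ _
      rw [map_add]
      refine (abs_add_le _ _).trans ?_
      linarith
  obtain ⟨p'', hp''⟩ := A.propM V (C := 16) (by norm_num) hδ'0 hris
  obtain ⟨k, ⟨d, hd⟩, hk⟩ := (hp''.and (eventually_ge_atTop (max p' p''))).exists
  have hk' : max p' p'' ≤ f (M k) := hk.trans (hfk k)
  have h0 := hf0 (M k)
  have hfgk := hfg (M k)
  have h5 := A.lam1_pair V hk' hfgk (hy _) (hy _) (c (f (M k))) (c (g (M k))) d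
    (δ := 3 * δ')
    ((A.norm_tl_mono (le_max_left p' p'') _).trans (by linarith [hc (f (M k)) h0]))
    ((A.norm_tl_mono (le_max_left p' p'') _).trans (by linarith [hc (g (M k)) (by omega)]))
    ((A.norm_tl_mono (le_max_right p' p'') _).trans (by linarith))
  have h6 := hbig (M k)
  linarith

end AHData

end Pool.Agent.MP8c9cbf
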