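import Pool.Agent.Lib.MP_8c9cbf_an.Lam1

/-! Row R1: the scalar of an operator. -/

namespace Pool.Agent.MP8c9cbf

open Finset Filter Topology

variable {T X : Type} [NormedAddCommGroup X] [NormedSpace ℝ X] (A : AHData T X)

namespace AHData

/-- two scalars for the base vectors: `|c - c'| ≤ 3 (δ + δ')` (look at `y n`, `n` large:
`tl p (y n) = y n` and `1 ≤ ‖y n‖`, `norm_tl_mono` to pass to `max p p'`) -/
theorem lam_close (V : X →L[ℝ] X) {y : ℕ → X} (hy : ∀ n, A.IsBase n (y n)) {δ δ' c c' : ℝ}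
    {p p' : ℕ} (h : ∀ᶠ n in atTop, ‖A.tl p (V (y n) - c • y n)‖ < δ)
    (h' : ∀ᶠ n in atTop, ‖A.tl p' (V (y n) - c' • y n)‖ < δ') : |c - c'| ≤ 3 * (δ + δ') := by
  obtain ⟨n, ⟨h1, h2⟩, hn⟩ := ((h.and h').and (eventually_ge_atTop (max p p'))).exists
  have e1 := A.norm_tl_mono (le_max_left p p') (V (y n) - c • y n)
  have e2 := A.norm_tl_mono (le_max_right p p') (V (y n) - c' • y n)
  have ey : A.tl (max p p') (y n) = y n := A.tl_blk (hy n).blk hn
  have e3 : (c - c') • y n = A.tl (max p p') (V (y n) - c' • y n) -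
      A.tl (max p p') (V (y n) - c • y n) := by
    simp only [map_sub, map_smul, ey, sub_smul]
    abel
  have e4 := (hy n).abs_le A (c - c')
  rw [e3] at e4
  have e5 := norm_sub_le (A.tl (max p p') (V (y n) - c' • y n))
    (A.tl (max p p') (V (y n) - c • y n))
  linarith

/-- the scalar: limit of the scalars of `exists_lam_delta` for `δ = 1/(k+1)` (Cauchy by
`lam_close`); `‖tl p (y n)‖ ≤ 6` -/
theorem exists_lam (V : X →L[ℝ] X) {y : ℕ → X} (hy : ∀ n, A.IsBase n (y n)) :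
    ∃ c : ℝ, ∀ δ : ℝ, 0 < δ → ∃ p, ∀ᶠ n in atTop, ‖A.tl p (V (y n) - c • y n)‖ < δ := by
  have hk : ∀ k : ℕ, ∃ (c : ℝ) (p : ℕ), ∀ᶠ n in atTop,
      ‖A.tl p (V (y n) - c • y n)‖ < (1 / 2 : ℝ) ^ k :=
    fun k => A.exists_lam_delta V hy (by positivity)
  choose c p hc using hk
  have hcl : ∀ k l, |c k - c l| ≤ 3 * ((1 / 2 : ℝ) ^ k + (1 / 2 : ℝ) ^ l) := fun k l =>
    A.lam_close V hy (hc k) (hc l)
  have hcau : CauchySeq c := by
    refine Metric.cauchySeq_iff'.2 fun ε hε => ?_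
    obtain ⟨N, hN⟩ := exists_pow_lt_of_lt_one (show 0 < ε / 6 by positivity)
      (show (1 / 2 : ℝ) < 1 by norm_num)
    refine ⟨N, fun n hn => ?_⟩
    rw [Real.dist_eq]
    have h1 := hcl n N
    have h2 : (1 / 2 : ℝ) ^ n ≤ (1 / 2 : ℝ) ^ N :=
      pow_le_pow_of_le_one (by norm_num) (by norm_num) hn
    linarith
  obtain ⟨c0, hc0⟩ := cauchySeq_tendsto_of_complete hcau
  refine ⟨c0, fun δ hδ => ?_⟩
  obtain ⟨N, hN⟩ := exists_pow_lt_of_lt_one (show 0 < δ / 2 by positivity)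
      (show (1 / 2 : ℝ) < 1 by norm_num)
  obtain ⟨M, hM⟩ := Metric.tendsto_atTop.1 hc0 (δ / 14) (by positivity)
  set k := max N M with hk
  have h1 := hM k (le_max_right _ _)
  rw [Real.dist_eq] at h1
  have h2 : (1 / 2 : ℝ) ^ k ≤ (1 / 2 : ℝ) ^ N :=
      pow_le_pow_of_le_one (by norm_num) (by norm_num) (le_max_left _ _)
  refine ⟨p k, (hc k).mono fun n hn => ?_⟩
  have h3 : A.tl (p k) (V (y n) - c0 • y n) = A.tl (p k) (V (y n) - c k • y n) +
      (c k - c0) • A.tl (p k) (y n) := by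
    simp only [map_sub, map_smul, sub_smul]
    abel
  rw [h3]
  have h4 := norm_add_le (A.tl (p k) (V (y n) - c k • y n)) ((c k - c0) • A.tl (p k) (y n))
  have h5 : ‖(c k - c0) • A.tl (p k) (y n)‖ ≤ |c k - c0| * 6 := by
    rw [norm_smul, Real.norm_eq_abs]
    apply mul_le_mul_of_nonneg_left _ (abs_nonneg _)
    have := A.norm_tl_le (p k) (y n)
    have := (hy n).nrm
    linarith
  linarith

end AHData

end Pool.Agent.MP8c9cbf
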