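import Pool.Agent.Lib.MP_8c9cbf_an.Lam1
import Pool.Agent.Lib.MP_8c9cbf_an.RNul

/-! Row R2: if `W` is small in the tails along the base vectors then along every RIS. -/

namespace Pool.Agent.MP8c9cbf

open Finset Filter Topology

variable {T X : Type} [NormedAddCommGroup X] [NormedSpace ℝ X] (A : AHData T X)

namespace AHData

/-- the estimate for one pair -/
private theorem lam3_pair (W : X →L[ℝ] X) {C δ' c : ℝ} {P s t n : ℕ} {x y : X}
    (hx : A.Blk s t x) (hxn : ‖x‖ ≤ C) (hP : P ≤ s) (hy : A.IsBase n y) (htn : t ≤ n)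
    (hPn : P ≤ n) (h1 : ‖A.tl n (W x)‖ ≤ δ') (h2 : ‖A.tl P (W y)‖ ≤ 3 * δ')
    (h3 : ‖A.tl P (W (x + y) - c • (x + y))‖ ≤ 3 * δ') :
    ‖A.tl P (W x)‖ ≤ (25 + 19 * C) * δ' := by
  have ex : A.tl P x = x := A.tl_blk hx hP
  have ey : A.tl P y = y := A.tl_blk hy.blk hPn
  set E : X := A.tl P (W x) - c • x - c • y with hE
  have hE1 : E = A.tl P (W (x + y) - c • (x + y)) - A.tl P (W y) := by
    rw [hE]
    simp only [map_add, map_sub, map_smul, smul_add, ex, ey]
    abel
  have hEn : ‖E‖ ≤ 6 * δ' := by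
    rw [hE1]
    have := norm_sub_le (A.tl P (W (x + y) - c • (x + y))) (A.tl P (W y))
    linarith
  have hcy : c • y = A.tl n (W x) - A.tl n E := by
    rw [hE, map_sub, map_sub, map_smul, map_smul, A.tl_tl_of_le hPn, A.tl_blk_ge hx htn,
      A.tl_blk hy.blk le_rfl, smul_zero]
    abel
  have hcyn : ‖c • y‖ ≤ 19 * δ' := by
    rw [hcy]
    have h4 := norm_sub_le (A.tl n (W x)) (A.tl n E)
    have h5 := A.norm_tl_le n E
    linarith
  have hc : |c| ≤ 19 * δ' := (hy.abs_le A c).trans hcyn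
  have hcx : ‖c • x‖ ≤ 19 * δ' * C := by
    rw [norm_smul, Real.norm_eq_abs]
    exact mul_le_mul hc hxn (norm_nonneg _) ((abs_nonneg c).trans hc)
  have e1 : A.tl P (W x) = E + c • x + c • y := by rw [hE]; abel
  rw [e1]
  have h6 := norm_add_le (E + c • x) (c • y)
  have h7 := norm_add_le E (c • x)
  nlinarith

/-- if `W` is small in the tails along the base vectors then along every RIS -/
theorem rnul_of_base (W : X →L[ℝ] X) {y : ℕ → X} (hy : ∀ n, A.IsBase n (y n))
    (hW : ∀ δ : ℝ, 0 < δ → ∃ p, ∀ᶠ n in atTop, ‖A.tl p (W (y n))‖ < δ) : A.RNul W := by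
  intro C x s t j h δ hδ
  have hC : 0 ≤ C := le_trans (norm_nonneg _) ((h 1).nrm 0 (by norm_num))
  by_contra hcon
  push Not at hcon
  obtain ⟨f, hf, hfb⟩ := Filter.extraction_forall_of_frequently hcon
  have h' := AHData.RIS.subseq A h hf
  clear hcon h
  generalize hx1 : x ∘ f = x1 at h'
  generalize hs1 : s ∘ f = s1 at h'
  generalize ht1 : t ∘ f = t1 at h'
  generalize hj1 : j ∘ f = j1 at h'
  have hbig : ∀ k, δ ≤ ‖A.tl k (W (x1 k))‖ := by
    intro k
    rw [← hx1]
    exact hfb k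
  have hne : ∀ k, x1 k ≠ 0 := by
    intro k hk
    have h1 := hbig k
    rw [hk, map_zero, map_zero, norm_zero] at h1
    linarith
  have hks : ∀ k, k ≤ s1 k := AHData.RIS.le_s A h' hne
  -- strict inequalities
  have hblk : ∀ k, A.Blk (s1 k) (t1 k) (x1 k) := fun k => (h' (k + 1)).blk k (by omega)
  have hst : ∀ k, s1 k < t1 k := by
    intro k
    by_contra hle
    apply hne k
    have h1 : A.Q (t1 k) (x1 k) = 0 := AHData.Blk.Q_le A (hblk k) (by omega)
    rw [← (hblk k).2, h1]
  have hts : ∀ k l, k < l → t1 k ≤ s1 l := fun k l hkl => (h' (l + 1)).succ k l hkl (by omega)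
  have hjmono : StrictMono j1 :=
    strictMono_nat_of_lt_succ fun k => (h' (k + 2)).jmono k (k + 1) (by omega) (by omega)
  -- choice of `n`
  set δ' : ℝ := δ / (76 * (1 + C)) with hδ'
  have hδ'pos : 0 < δ' := by positivity
  have hδ'eq : 76 * (1 + C) * δ' = δ := by
    rw [hδ']; field_simp
  have hn : ∀ k, ∃ n, t1 k ≤ n ∧ ‖A.tl n (W (x1 k))‖ < δ' := by
    intro k
    have e1 : ∀ᶠ n in atTop, ‖A.tl n (W (x1 k))‖ < δ' := by
      have := (A.tl_tendsto (W (x1 k))).norm
      rw [norm_zero] at this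
      exact this.eventually (gt_mem_nhds hδ'pos)
    obtain ⟨n, hn⟩ := ((eventually_ge_atTop (t1 k)).and e1).exists
    exact ⟨n, hn⟩
  choose ν hνt hν1 using hn
  let kr : ℕ → ℕ := fun r => Nat.rec 0 (fun _ k => max k (ν k) + 1) r
  have hk_succ : ∀ r, kr (r + 1) = max (kr r) (ν (kr r)) + 1 := fun r => rfl
  have hkmono : StrictMono kr := by
    refine strictMono_nat_of_lt_succ fun r => ?_
    rw [hk_succ]
    have := le_max_left (kr r) (ν (kr r))
    omega
  have hkν : ∀ k l, k < l → ν (kr k) + 1 ≤ kr l := by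
    intro k l hkl
    have h1 : kr (k + 1) ≤ kr l := hkmono.monotone hkl
    have h2 := hk_succ k
    have h3 := le_max_right (kr k) (ν (kr k))
    omega
  have hris : ∀ N, A.RIS (C + 8) N (fun r => x1 (kr r) + y (ν (kr r)))
      (fun r => s1 (kr r)) (fun r => ν (kr r) + 1) (fun r => j1 (kr r)) := by
    intro N
    refine ⟨?_, ?_, ?_, ?_, ?_, ?_⟩
    · intro k _
      have e1 := hνt (kr k)
      have e2 := hst (kr k)
      exact AHData.Blk.add A (AHData.Blk.mono A (hblk _) le_rfl (by omega))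
        (AHData.Blk.mono A (hy _).blk (by omega) le_rfl)
    · intro k l hkl _
      exact (hkν k l hkl).trans (hks (kr l))
    · intro k _
      have e1 := (h' (kr k + 1)).nrm (kr k) (by omega)
      have e2 := (hy (ν (kr k))).nrm
      have e3 := norm_add_le (x1 (kr k)) (y (ν (kr k)))
      show ‖x1 (kr k) + y (ν (kr k))‖ ≤ C + 8
      linarith
    · intro k l hkl _
      exact hjmono (hkmono hkl)
    · intro k l hkl _
      exact (hkν k l hkl).trans (hjmono.id_le (kr l))
    · intro k _ q i hq hi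
      have e1 := (h' (kr k + 1)).wtb (kr k) (by omega) q i hq hi
      have e2 := (hy (ν (kr k))).wtb q i hq
      show |A.ev q (x1 (kr k) + y (ν (kr k)))| ≤ (C + 8) * (mm i : ℝ)⁻¹
      rw [map_add]
      have e3 := abs_add_le (A.ev q (x1 (kr k))) (A.ev q (y (ν (kr k))))
      linarith
  obtain ⟨p, hp⟩ := A.propM W (C := C + 8) (by linarith) hδ'pos hris
  obtain ⟨p2, hp2⟩ := hW δ' hδ'pos
  have hνtop : Tendsto (fun r => ν (kr r)) atTop atTop := by
    refine tendsto_atTop_mono (fun r => ?_) tendsto_id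
    have e1 := hkmono.le_apply (x := r)
    have e2 := hks (kr r)
    have e3 := hst (kr r)
    have e4 := hνt (kr r)
    show r ≤ ν (kr r)
    omega
  obtain ⟨r, ⟨⟨c, hc⟩, h2⟩, hr⟩ := ((hp.and (hνtop.eventually hp2)).and
    (eventually_ge_atTop (max p p2))).exists
  have e1 : max p p2 ≤ kr r := hr.trans (hkmono.le_apply (x := r))
  have e2 := hks (kr r)
  have e3 := hst (kr r)
  have e4 := hνt (kr r)
  have hest := A.lam3_pair W (hblk (kr r)) ((h' (kr r + 1)).nrm (kr r) (by omega))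
    (e1.trans e2) (hy (ν (kr r))) e4 (by omega) (hν1 _).le
    ((A.norm_tl_mono (le_max_right p p2) _).trans (by linarith))
    ((A.norm_tl_mono (le_max_left p p2) _).trans (by linarith))
  have h5 := hbig (kr r)
  have h6 := A.norm_tl_mono e1 (W (x1 (kr r)))
  nlinarith

end AHData

end Pool.Agent.MP8c9cbf
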