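import Pool.Agent.Lib.MP_8c9cbf_an.CP2
import Pool.Agent.Lib.MP_8c9cbf_an.Avg
import Pool.Agent.Lib.MP_8c9cbf_an.BV1

/-! Row R7: the functionals. -/

namespace Pool.Agent.MP8c9cbf

open Finset Filter Topology

variable {T X : Type} [NormedAddCommGroup X] [NormedSpace ℝ X] (A : AHData T X)

namespace AHData

/-- `block_null` for the rank one operator `x ↦ φ x • y`, `y` a base vector (`exists_base`), with
`ris_weak_null` (file `A3`) -/
theorem block_weak_null (φ : X →L[ℝ] ℝ) {C : ℝ} {x : ℕ → X} {s t : ℕ → ℕ}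
    (hb : ∀ k, A.Blk (s k) (t k) (x k)) (hst : ∀ k, s k ≤ t k) (hts : ∀ k, t k ≤ s (k + 1))
    (hn : ∀ k, ‖x k‖ ≤ C) : Tendsto (fun k => φ (x k)) atTop (𝓝 0) := by
  obtain ⟨y, hy⟩ := A.exists_base 0
  have h1 := A.block_null (φ.smulRight y) (fun C x s t j h => by
    have hC : 0 ≤ C := le_trans (norm_nonneg _) ((h 1).nrm 0 (by norm_num))
    have h2 := (A.ris_weak_null hC h φ).smul_const y
    rw [zero_smul] at h2
    exact h2) hb hst hts hn
  have h2 := h1.norm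
  rw [norm_zero] at h2
  refine squeeze_zero_norm (fun k => ?_) h2
  have h3 : φ.smulRight y (x k) = φ (x k) • y := rfl
  rw [h3, norm_smul]
  exact le_mul_of_one_le_right (norm_nonneg _) hy.one_le

/-- model: `cpt_tendsto` in `Lib/MP_0d518c_an/Cpt.lean` -/
theorem shrinking (φ : X →L[ℝ] ℝ) : ∀ ε : ℝ, 0 < ε → ∃ n0 : ℕ, ∀ n ≥ n0, ∀ x,
    ‖φ (x - A.Q n x)‖ ≤ ε * ‖x‖ := by
  intro ε hε
  by_contra hcon
  push Not at hcon
  have hex : ∀ N : ℕ, ∃ (n m : ℕ) (v : X), N ≤ n ∧ n ≤ m ∧ A.Blk n m v ∧ ‖v‖ ≤ 4 ∧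
      ε / 2 < ‖φ v‖ := by
    intro N
    obtain ⟨n, hn, x, hx⟩ := hcon N
    have hx0 : x ≠ 0 := by
      intro h0
      rw [h0, map_zero, sub_zero, map_zero, norm_zero, norm_zero, mul_zero] at hx
      exact lt_irrefl _ hx
    have hn0 : 0 < ‖x‖ := norm_pos_iff.2 hx0
    set u : X := ‖x‖⁻¹ • x with hu
    have hun : ‖u‖ = 1 := by
      rw [hu, norm_smul, norm_inv, norm_norm, inv_mul_cancel₀ hn0.ne']
    have hux : ε / 2 < ‖φ (u - A.Q n u)‖ := by
      have h1 : ‖φ (u - A.Q n u)‖ = ‖x‖⁻¹ * ‖φ (x - A.Q n x)‖ := by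
        rw [hu, map_smul, ← smul_sub, map_smul, norm_smul, norm_inv, norm_norm]
      rw [h1]
      have h2 : ε < ‖x‖⁻¹ * ‖φ (x - A.Q n x)‖ := by
        rw [inv_mul_eq_div, lt_div_iff₀ hn0]
        exact hx
      linarith
    have h1 : Tendsto (fun m => ‖φ (A.Q m u - A.Q n u)‖) atTop (𝓝 ‖φ (u - A.Q n u)‖) :=
      ((φ.continuous.tendsto _).comp ((A.Q_tendsto u).sub_const (A.Q n u))).norm
    obtain ⟨m, hm1, hm2⟩ := ((h1.eventually (lt_mem_nhds hux)).and
      (eventually_ge_atTop n)).exists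
    refine ⟨n, m, A.Q m u - A.Q n u, hn, hm2, A.blk_cut hm2 u, ?_, hm1⟩
    have h2 := A.Q_norm m u
    have h3 := A.Q_norm n u
    have h4 := norm_sub_le (A.Q m u) (A.Q n u)
    linarith
  choose fn fm fv h1 h2 h3 h4 h5 using hex
  -- the recursion
  let B : ℕ → ℕ := fun k => Nat.rec 0 (fun _ b => fm b) k
  have hB : ∀ k, B (k + 1) = fm (B k) := fun k => rfl
  have hnull := A.block_weak_null φ (x := fun k => fv (B k)) (s := fun k => fn (B k))
    (t := fun k => fm (B k)) (C := 4) (fun k => h3 _) (fun k => h2 _)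
    (fun k => by
      have := h1 (B (k + 1))
      rw [hB] at this
      exact this) (fun k => h4 _)
  rw [Metric.tendsto_atTop] at hnull
  obtain ⟨N, hN⟩ := hnull (ε / 2) (by linarith)
  have h6 := hN N le_rfl
  rw [dist_zero_right] at h6
  exact absurd h6 (not_lt.2 (h5 (B N)).le)

end AHData

end Pool.Agent.MP8c9cbf
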