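import Pool.Agent.Lib.MP_8c9cbf_an.SPl
import Pool.Agent.Lib.MP_8c9cbf_an.Shr
import Pool.Agent.Lib.MP_8c9cbf_an.K.KS
import Pool.Agent.Lib.MP_8c9cbf_an.S.SE
import Pool.Agent.Lib.MP_8c9cbf_an.Tr.Tree
import Pool.Agent.Lib.MP_8c9cbf_an.F.Pow
import Pool.Agent.Lib.MP_8c9cbf_an.F.Dual
import Pool.Agent.Lib.MP_8c9cbf_an.F.Sep

/-! The main theorem of project C0R. -/

namespace Pool.Agent.MP8c9cbf

open Finset Filter Topology

theorem exists_FS (𝕜 : Type) [RCLike 𝕜] : ∃ (X : Type) (_ : NormedAddCommGroup X)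
    (_ : NormedSpace 𝕜 X) (_ : CompleteSpace X), Nonempty (FS 𝕜 X) := by
  obtain ⟨T, ⟨D⟩⟩ := exists_tree
  obtain ⟨X, i1, i2, i3, ⟨A⟩⟩ := exists_AHData D
  obtain ⟨F⟩ := A.exists_FS A.scalar_plus A.shrinking
  exact ⟨KX 𝕜 X, inferInstance, inferInstance, inferInstance, F.exists_K⟩

end Pool.Agent.MP8c9cbf
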