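import Pool.Agent.Lib.MP_8c9cbf_an.Defs

/-! Task P1: numerical facts on `m_j`, `n_j`, `N_j`. -/

namespace Pool.Agent.MP8c9cbf

open Finset Filter Topology

theorem mm_pos (j : ℕ) : 0 < mm j := by
  unfold mm
  positivity

theorem four_le_mm (j : ℕ) : 4 ≤ mm j := by
  unfold mm
  calc 4 = 4 ^ 1 := by norm_num
    _ ≤ 4 ^ (2 ^ j) := Nat.pow_le_pow_right (by norm_num) Nat.one_le_two_pow

theorem mm_succ (j : ℕ) : mm (j + 1) = mm j ^ 2 := by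
  unfold mm
  rw [pow_succ 2 j, pow_mul]

theorem mm_strictMono : StrictMono mm := by
  refine strictMono_nat_of_lt_succ fun j => ?_
  rw [mm_succ]
  have := four_le_mm j
  nlinarith

theorem mm_sq_le {i j : ℕ} (h : i < j) : mm i ^ 2 ≤ mm j := by
  rw [← mm_succ]
  exact mm_strictMono.monotone h

theorem three_mul_le_mm (j : ℕ) : 3 * j ≤ mm j := by
  induction j with
  | zero => simp
  | succ j ih =>
    rw [mm_succ]
    have := four_le_mm j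
    nlinarith

theorem sixteen_le_mm {j : ℕ} (h : 1 ≤ j) : 16 ≤ mm j := by
  have h1 : mm 1 = 16 := by norm_num [mm]
  rw [← h1]
  exact mm_strictMono.monotone h

theorem nn_eq (j : ℕ) : nn j = mm j ^ 2 * (NN j) ^ (2 ^ (j + 1) + 1) := by
  cases j with
  | zero => simp [nn, NN]
  | succ j => rfl

theorem nn_pos (j : ℕ) : 0 < nn j := by
  induction j with
  | zero =>
    have := mm_pos 0
    show 0 < mm 0 ^ 2
    positivity
  | succ j ih =>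
    have := mm_pos (j + 1)
    show 0 < mm (j + 1) ^ 2 * (4 * nn j) ^ (2 ^ (j + 2) + 1)
    positivity

theorem one_le_NN (j : ℕ) : 1 ≤ NN j := by
  cases j with
  | zero => exact le_refl _
  | succ j =>
    have := nn_pos j
    show 1 ≤ 4 * nn j
    omega

theorem mm_sq_le_nn (j : ℕ) : mm j ^ 2 ≤ nn j := by
  rw [nn_eq]
  exact Nat.le_mul_of_pos_right _ (pow_pos (one_le_NN j) _)

theorem nn_strictMono : StrictMono nn := by
  refine strictMono_nat_of_lt_succ fun j => ?_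
  have h0 := nn_pos j
  have h1 : 4 * nn j ≤ (4 * nn j) ^ (2 ^ (j + 2) + 1) :=
    Nat.le_self_pow (Nat.succ_ne_zero _) _
  have h2 : (4 * nn j) ^ (2 ^ (j + 2) + 1) ≤ mm (j + 1) ^ 2 * (4 * nn j) ^ (2 ^ (j + 2) + 1) :=
    Nat.le_mul_of_pos_left _ (pow_pos (mm_pos _) 2)
  show nn j < mm (j + 1) ^ 2 * (4 * nn j) ^ (2 ^ (j + 2) + 1)
  omega

theorem four_nn_le_NN {i j : ℕ} (h : i < j) : 4 * nn i ≤ NN j := by
  cases j with
  | zero => omega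
  | succ j =>
    show 4 * nn i ≤ 4 * nn j
    have := nn_strictMono.monotone (Nat.lt_succ_iff.1 h)
    omega

theorem mm_tendsto : Tendsto (fun j => (mm j : ℝ)⁻¹) atTop (𝓝 0) :=
  tendsto_inv_atTop_zero.comp (tendsto_natCast_atTop_atTop.comp mm_strictMono.tendsto_atTop)

/-- real versions -/
theorem mm_inv_pos (j : ℕ) : (0 : ℝ) < (mm j : ℝ)⁻¹ :=
  inv_pos.2 (Nat.cast_pos.2 (mm_pos j))

theorem mm_inv_le_quarter (j : ℕ) : (mm j : ℝ)⁻¹ ≤ 1 / 4 := by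
  rw [one_div]
  refine inv_anti₀ (by norm_num) ?_
  exact_mod_cast four_le_mm j

theorem mm_inv_anti {i j : ℕ} (h : i ≤ j) : (mm j : ℝ)⁻¹ ≤ (mm i : ℝ)⁻¹ := by
  refine inv_anti₀ (Nat.cast_pos.2 (mm_pos i)) ?_
  exact_mod_cast mm_strictMono.monotone h

theorem mm_inv_le_sq {i j : ℕ} (h : i < j) : (mm j : ℝ)⁻¹ ≤ ((mm i : ℝ)⁻¹) ^ 2 := by
  rw [inv_pow]
  have h0 : (0 : ℝ) < mm i := Nat.cast_pos.2 (mm_pos i)
  refine inv_anti₀ (pow_pos h0 2) ?_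
  exact_mod_cast mm_sq_le h

theorem one_le_nn_mul_sq (j : ℕ) : (1 : ℝ) ≤ ((mm j : ℝ)⁻¹) ^ 2 * nn j := by
  have h0 : (0 : ℝ) < (mm j : ℝ) ^ 2 := pow_pos (Nat.cast_pos.2 (mm_pos j)) 2
  rw [inv_pow, ← div_eq_inv_mul, one_le_div h0]
  exact_mod_cast mm_sq_le_nn j

theorem one_le_nn_mul (j : ℕ) : (1 : ℝ) ≤ (mm j : ℝ)⁻¹ * nn j := by
  have h1 := one_le_nn_mul_sq j
  have h2 := mm_inv_pos j
  have h3 := mm_inv_le_quarter j
  have h4 : (0 : ℝ) ≤ nn j := Nat.cast_nonneg _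
  have h5 : ((mm j : ℝ)⁻¹) ^ 2 ≤ (mm j : ℝ)⁻¹ := by nlinarith
  calc (1 : ℝ) ≤ ((mm j : ℝ)⁻¹) ^ 2 * nn j := h1
    _ ≤ (mm j : ℝ)⁻¹ * nn j := mul_le_mul_of_nonneg_right h5 h4

end Pool.Agent.MP8c9cbf
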