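import Pool.Agent.Lib.MP_8c9cbf_an.R1
import Pool.Agent.Lib.MP_8c9cbf_an.R2

/-! Task S: separation of `y` from the line `ℝ x` by a rational combination of coordinates. -/

namespace Pool.Agent.MP8c9cbf

open Finset Filter Topology

variable {T X : Type} [NormedAddCommGroup X] [NormedSpace ℝ X] (A : AHData T X)

namespace AHData

theorem sep {x y : X} {t : ℕ} (hx : A.Q t x = x) {δ : ℝ} (hδ : 0 < δ)
    (hd : ∀ c : ℝ, δ ≤ ‖y - c • x‖) {ε : ℝ} (hε : 0 < ε) :
    ∃ b : T × ℕ →₀ ℝ, (∀ q, ∃ r : ℚ, (r : ℝ) = b q) ∧ ∑ q ∈ b.support, |b q| ≤ 1 ∧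
      |A.pair b x| ≤ ε ∧ δ / 2 - ε ≤ A.pair b y := by
  -- Hahn-Banach
  obtain ⟨f, u, hf1, hf2⟩ := geometric_hahn_banach_open (convex_ball y δ) Metric.isOpen_ball
    (Submodule.convex (Submodule.span ℝ {x})) (by
      rw [Set.disjoint_left]
      intro v hv1 hv2
      obtain ⟨c, rfl⟩ := Submodule.mem_span_singleton.1 hv2
      rw [Metric.mem_ball, dist_eq_norm, norm_sub_rev] at hv1
      exact absurd (hd c) (not_le.2 hv1))
  have hfx : f x = 0 := by
    by_contra hne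
    have h1 := hf2 (((u - 1) / f x) • x)
      (Submodule.mem_span_singleton.2 ⟨_, rfl⟩)
    rw [map_smul, smul_eq_mul, div_mul_cancel₀ _ hne] at h1
    linarith
  have hu : u ≤ 0 := by
    have := hf2 0 (Submodule.zero_mem _)
    simpa using this
  have hf0 : f ≠ 0 := by
    rintro rfl
    have h1 := hf1 y (Metric.mem_ball_self hδ)
    simp at h1
    linarith
  have hN : 0 < ‖f‖ := norm_pos_iff.2 hf0
  have hball : ‖f‖ * δ ≤ u - f y := by
    have h1 : ∀ w : X, ‖w‖ < δ → f w ≤ u - f y := by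
      intro w hw
      have h2 := hf1 (y + w) (by rw [Metric.mem_ball, dist_eq_norm]; simpa using hw)
      rw [map_add] at h2
      linarith
    have h0 : 0 ≤ u - f y := by simpa using h1 0 (by simpa using hδ)
    rw [← le_div_iff₀ hδ]
    refine f.opNorm_le_bound (div_nonneg h0 hδ.le) ?_
    intro w
    rcases eq_or_ne w 0 with hw | hw
    · rw [hw]; simp
    · have hw0 : 0 < ‖w‖ := norm_pos_iff.2 hw
      -- scale to norm `< δ`
      have h3 : ∀ r : ℝ, 0 < r → r < δ → |f w| * r ≤ (u - f y) * ‖w‖ := by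
        intro r hr hrδ
        have h4 : ‖(r / ‖w‖) • w‖ < δ := by
          rw [norm_smul, Real.norm_of_nonneg (by positivity), div_mul_cancel₀ _ hw0.ne']
          exact hrδ
        have h5 := h1 _ h4
        have h6 := h1 (-((r / ‖w‖) • w)) (by rw [norm_neg]; exact h4)
        rw [map_neg] at h6
        rw [map_smul, smul_eq_mul] at h5 h6
        have h7 : |r / ‖w‖ * f w| ≤ u - f y := abs_le.2 ⟨by linarith, h5⟩
        rw [abs_mul, abs_of_pos (by positivity)] at h7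
        calc |f w| * r = (r / ‖w‖ * |f w|) * ‖w‖ := by field_simp
          _ ≤ (u - f y) * ‖w‖ := mul_le_mul_of_nonneg_right h7 hw0.le
      rw [div_mul_eq_mul_div, le_div_iff₀ hδ, Real.norm_eq_abs]
      have h8 : Tendsto (fun r : ℝ => |f w| * r) (𝓝[<] δ) (𝓝 (|f w| * δ)) :=
        (tendsto_const_nhds.mul tendsto_id).mono_left nhdsWithin_le_nhds
      refine le_of_tendsto h8 ?_
      filter_upwards [Ioo_mem_nhdsLT hδ] with r hr
      exact h3 r hr.1 hr.2
  -- the normalised functional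
  obtain ⟨φ, hφ⟩ : ∃ φ : X →L[ℝ] ℝ, φ = (-‖f‖⁻¹) • f := ⟨_, rfl⟩
  have hφn : ∀ z, |φ z| ≤ ‖z‖ := by
    intro z
    rw [hφ, _root_.smul_apply, smul_eq_mul, abs_mul, abs_neg, abs_of_pos
      (inv_pos.2 hN)]
    have := f.le_opNorm z
    rw [Real.norm_eq_abs] at this
    rw [inv_mul_le_iff₀ hN]
    exact this
  have hφx : φ x = 0 := by
    rw [hφ, _root_.smul_apply, hfx, smul_zero]
  have hφy : δ ≤ φ y := by
    rw [hφ]
    simp only [_root_.smul_apply, smul_eq_mul]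
    have h2 : ‖f‖ * δ ≤ - f y := by linarith
    have h3 : δ ≤ ‖f‖⁻¹ * (- f y) := by
      rw [le_inv_mul_iff₀ hN]; exact h2
    linarith
  -- approximation
  obtain ⟨n, hnt, hny⟩ : ∃ n, t ≤ n ∧ ‖y - A.Q n y‖ ≤ ε := by
    have h1 := A.Q_tendsto y
    rw [Metric.tendsto_atTop] at h1
    obtain ⟨N, hN⟩ := h1 ε hε
    refine ⟨max N t, le_max_right _ _, ?_⟩
    have := hN (max N t) (le_max_left _ _)
    rw [dist_eq_norm, norm_sub_rev] at this
    exact this.le
  have hQx : A.Q n x = x := by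
    conv_lhs => rw [← hx]
    rw [A.Q_Q, min_eq_right hnt, hx]
  obtain ⟨b₀, hb1, hbx, hby⟩ := A.rep_functional φ hφn n x y (ε := ε / 2) (by positivity)
  rw [hQx, hφx, sub_zero] at hbx
  have hM : 0 < 4 * (‖x‖ + ‖y‖ + 1) := by positivity
  obtain ⟨b, hbr, hbl, hba⟩ := A.rat_approx b₀ hb1 (ε := ε / (4 * (‖x‖ + ‖y‖ + 1)))
    (div_pos hε hM)
  have hεx : ε / (4 * (‖x‖ + ‖y‖ + 1)) * ‖x‖ ≤ ε / 4 := by
    rw [div_mul_eq_mul_div, div_le_div_iff₀ hM (by norm_num)]
    nlinarith [norm_nonneg x, norm_nonneg y]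
  have hεy : ε / (4 * (‖x‖ + ‖y‖ + 1)) * ‖y‖ ≤ ε / 4 := by
    rw [div_mul_eq_mul_div, div_le_div_iff₀ hM (by norm_num)]
    nlinarith [norm_nonneg x, norm_nonneg y]
  refine ⟨b, hbr, hbl, ?_, ?_⟩
  · have h1 := abs_le.1 (hba x)
    have h2 := abs_le.1 hbx
    rw [abs_le]
    constructor <;> linarith
  · have h1 := (abs_le.1 (hba y)).1
    have h2 := (abs_le.1 (hφn (y - A.Q n y))).2
    have h3 := (abs_le.1 hby).1
    rw [map_sub] at h2
    linarith

end AHData

end Pool.Agent.MP8c9cbf
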