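import Pool.Agent.Lib.MP_8c9cbf_an.EP
import Pool.Agent.Lib.MP_8c9cbf_an.DC3
import Pool.Agent.Lib.MP_8c9cbf_an.Sep
import Pool.Agent.Lib.MP_8c9cbf_an.Tail

/-! Task M: on an RIS every operator is, up to a part in finitely many fibres, close to multiples
of the identity. -/

namespace Pool.Agent.MP8c9cbf

open Finset Filter Topology

variable {T X : Type} [NormedAddCommGroup X] [NormedSpace ℝ X] (A : AHData T X)

namespace AHData

theorem Good.tl {V : X →L[ℝ] X} {C κ δ : ℝ} {x : ℕ → X} {s t j : ℕ → ℕ}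
    {b : ℕ → ℕ → (T × ℕ →₀ ℝ)} (h : A.Good V C κ δ x s t j b) (p0 : ℕ) :
    A.Good ((A.tl p0).comp V) C κ δ x s t j (fun p k => b (max p p0) k) := by
  refine
    { ris := h.ris
      ne := h.ne
      rat := fun p k q => h.rat _ k q
      l1 := fun p k => h.l1 _ k
      small := fun p k => h.small _ k
      big := ?_ }
  intro p
  obtain ⟨K, hK⟩ := h.big (max p p0)
  refine ⟨K, fun k hk => ?_⟩
  have h1 := hK k hk
  rw [← A.tl_apply, ← A.tl_tl] at h1
  exact h1

theorem propM (V : X →L[ℝ] X) {C δ : ℝ} (hC : 1 ≤ C) (hδ : 0 < δ) {x : ℕ → X} {s t j : ℕ → ℕ}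
    (hR : ∀ N, A.RIS C N x s t j) :
    ∃ p, ∀ᶠ k in atTop, ∃ c : ℝ, ‖A.tl p (V (x k) - c • x k)‖ < δ := by
  have hC0 : 0 ≤ C := by linarith
  by_contra hcon
  push Not at hcon
  obtain ⟨f, hf, hfk⟩ := Filter.extraction_forall_of_frequently hcon
  have hR' := AHData.RIS.subseq A hR hf
  have hne : ∀ k, (x ∘ f) k ≠ 0 := by
    intro k hk
    have h1 := hfk k 0
    have h2 : x (f k) = 0 := hk
    rw [h2, map_zero, smul_zero, sub_zero, map_zero, norm_zero] at h1
    linarith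
  have hsk := AHData.RIS.le_s A hR' hne
  have hblk : ∀ k, A.Blk (s (f k)) (t (f k)) (x (f k)) := fun k =>
    (hR (f k + 1)).blk (f k) (Nat.lt_succ_self _)
  -- the constants
  obtain ⟨K, hK⟩ := exists_nat_gt (18 * (18 * C) * ‖V‖ * 24 / δ)
  set w : ℕ := 2 * K + 1 with hw
  have hwo : Odd w := ⟨K, rfl⟩
  have hmw : 18 * (18 * C) * ‖V‖ < δ / 24 * mm w := by
    have h1 : K ≤ mm w := by
      have := mm_strictMono.le_apply (x := w)
      omega
    have h2 : (K : ℝ) ≤ mm w := by exact_mod_cast h1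
    have h3 : 18 * (18 * C) * ‖V‖ * 24 / δ < mm w := lt_of_lt_of_le hK h2
    rw [div_lt_iff₀ hδ] at h3
    nlinarith
  have hn : (0 : ℝ) < nn w := by exact_mod_cast nn_pos w
  set ε0 : ℝ := min ((nn w : ℝ)⁻¹) (δ / 24) with hε0
  have hε0p : 0 < ε0 := by
    rw [hε0]; apply lt_min <;> positivity
  have hε1 : ε0 ≤ (nn w : ℝ)⁻¹ := min_le_left _ _
  have hε2 : ε0 ≤ δ / 24 := min_le_right _ _
  have hsep : ∀ p k, ∃ b : T × ℕ →₀ ℝ, (∀ q, ∃ r : ℚ, (r : ℝ) = b q) ∧
      ∑ q ∈ b.support, |b q| ≤ 1 ∧ |A.pair b (x (f k))| ≤ ε0 ∧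
      (p ≤ k → δ / 3 / 2 - ε0 ≤ A.pair b (A.tl p (V (x (f k))))) := by
    intro p k
    by_cases hpk : p ≤ k
    · have hd : ∀ c : ℝ, δ / 3 ≤ ‖A.tl p (V (x (f k))) - c • x (f k)‖ := by
        intro c
        have h1 := hfk k c
        have h2 := A.norm_tl_mono hpk (V (x (f k)) - c • x (f k))
        have h3 : A.tl p (V (x (f k)) - c • x (f k)) =
            A.tl p (V (x (f k))) - c • x (f k) := by
          rw [map_sub, map_smul, A.tl_blk (hblk k) (hpk.trans (hsk k))]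
        rw [h3] at h2
        linarith
      obtain ⟨b, h1, h2, h3, h4⟩ := A.sep (hblk k).2 (δ := δ / 3) (by positivity) hd hε0p
      exact ⟨b, h1, h2, h3, fun _ => h4⟩
    · refine ⟨0, fun q => ⟨0, by simp⟩, by simp, ?_, fun h => absurd h hpk⟩
      unfold AHData.pair
      simp only [Finsupp.support_zero, Finset.sum_empty, abs_zero]
      exact hε0p.le
  choose b hb1 hb2 hb3 hb4 using hsep
  have hgood : A.Good V C ((nn w : ℝ)⁻¹) (δ / 3 / 2 - ε0) (x ∘ f) (s ∘ f) (t ∘ f) (j ∘ f) b := by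
    refine
      { ris := hR'
        ne := hne
        rat := hb1
        l1 := hb2
        small := fun p k => (hb3 p k).trans hε1
        big := fun p => ⟨p, fun k hk => hb4 p k hk⟩ }
  have hsup : A.Supply V (18 * C) ((nn w : ℝ)⁻¹) (δ / 24) := by
    intro J hJ p0 φ ε hε
    obtain ⟨z, η, t0, a1, a2, a3, a4, a5, a6, a7⟩ := A.exists_exact hC0 (by positivity)
      (AHData.Good.tl A hgood p0) hJ p0 φ (lt_min hε (show (0 : ℝ) < δ / 24 by positivity))
    refine ⟨z, η, t0, a1, a2, a3, a4, ?_, a6.trans (min_le_left _ _), ?_⟩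
    · have h1 := min_le_right ε (δ / 24)
      have h2 : A.ev (η, 0) (((A.tl p0).comp V) z) = A.ev (η, 0) (V z - A.Q p0 (V z)) := rfl
      rw [← h2]
      linarith
    · have h1 : ((A.tl p0).comp V) z - A.Q t0 (((A.tl p0).comp V) z) = V z - A.Q t0 (V z) := by
        have : A.tl t0 (A.tl p0 (V z)) = A.tl t0 (V z) := A.tl_tl_of_le a1 _
        exact this
      rw [h1] at a7
      exact a7.trans (min_le_left _ _)
  have h9 := A.dep_contra (by linarith) hsup hwo le_rfl
  linarith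

end AHData

end Pool.Agent.MP8c9cbf
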