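import Pool.Agent.Lib.MP_8c9cbf_an.Basic

/-! Task R1: coordinates on `Q n X`, representation of functionals. -/

namespace Pool.Agent.MP8c9cbf

open Finset Filter Topology

variable {T X : Type} [NormedAddCommGroup X] [NormedSpace ℝ X] (A : AHData T X)

namespace AHData

/-- `‖Q n x‖ ≤ 2 sup_{rank < n} |ev (τ, 0) x|` -/
theorem Q_le_coord {n : ℕ} {x : X} {c : ℝ} (hc : 0 ≤ c)
    (h : ∀ τ : T, A.rank τ < n → |A.ev (τ, 0) x| ≤ c) : ‖A.Q n x‖ ≤ 2 * c := by
  classical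
  obtain ⟨x', h1, h2, h3⟩ := A.ext n (fun τ => if A.rank τ < n then A.ev (τ, 0) x else 0) c hc
    (fun τ => by
      by_cases hq : A.rank τ < n
      · simpa [hq] using h τ hq
      · simpa [hq] using hc)
    (fun ε hε => (A.c0 n x ε hε).subset (by
      rintro τ ⟨ha, hb⟩
      exact ⟨ha, by rwa [if_pos ha] at hb⟩))
  have h0 : A.Q n (x' - x) = 0 := by
    refine A.Q_eq_zero n _ ?_
    rintro ⟨τ, k⟩ hq
    rcases Nat.eq_zero_or_pos k with rfl | hk
    · rw [map_sub, h2 τ hq, if_pos hq, sub_self]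
    · exact A.ev_zero _ _ hk
  have h5 : A.Q n x = x' := by
    rw [map_sub, h1, sub_eq_zero] at h0
    exact h0.symm
  rw [h5]
  exact h3

open Classical in
/-- the dual vectors -/
theorem exists_dual (n : ℕ) : ∃ v : T → X,
    (∀ τ, A.Q n (v τ) = v τ) ∧
    (∀ τ σ, A.rank σ < n → A.ev (σ, 0) (v τ) = if σ = τ then 1 else 0) := by
  have hv : ∀ τ : T, ∃ x, A.Q n x = x ∧
      (∀ σ : T, A.rank σ < n → A.ev (σ, 0) x = if σ = τ then 1 else 0) := by
    intro τ
    obtain ⟨x, h1, h2, -⟩ := A.ext n (fun σ => if σ = τ then 1 else 0) 1 zero_le_one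
      (fun σ => by by_cases hq : σ = τ <;> simp [hq])
      (fun ε hε => (Set.finite_singleton τ).subset (by
        rintro σ ⟨-, hb⟩
        rw [Set.mem_singleton_iff]
        by_contra hne
        rw [if_neg hne, abs_zero] at hb
        linarith))
    exact ⟨x, h1, h2⟩
  choose v hv1 hv2 using hv
  exact ⟨v, hv1, hv2⟩

open Classical in
theorem R1_coord {n : ℕ} {v : T → X}
    (hv2 : ∀ τ σ, A.rank σ < n → A.ev (σ, 0) (v τ) = if σ = τ then 1 else 0)
    (F : Finset T) (c : T → ℝ) {σ : T} (hσ : A.rank σ < n) :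
    A.ev (σ, 0) (∑ τ ∈ F, c τ • v τ) = if σ ∈ F then c σ else 0 := by
  rw [map_sum]
  have h1 : ∀ τ ∈ F, A.ev (σ, 0) (c τ • v τ) = if σ = τ then c τ else 0 := by
    intro τ _
    rw [map_smul, hv2 τ σ hσ, smul_eq_mul]
    split_ifs <;> simp
  rw [Finset.sum_congr rfl h1, Finset.sum_ite_eq]

open Classical in
/-- `Q n x` is the limit of the finite partial sums of its expansion -/
theorem Q_approx {n : ℕ} {v : T → X} (hv1 : ∀ τ, A.Q n (v τ) = v τ)
    (hv2 : ∀ τ σ, A.rank σ < n → A.ev (σ, 0) (v τ) = if σ = τ then 1 else 0)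
    (x : X) {ε : ℝ} (hε : 0 < ε) : ∃ F₀ : Finset T, ∀ F : Finset T, F₀ ⊆ F →
      ‖A.Q n x - ∑ τ ∈ F, A.ev (τ, 0) x • v τ‖ ≤ ε := by
  refine ⟨(A.c0 n x (ε / 2) (by positivity)).toFinset, fun F hF => ?_⟩
  have h1 : A.Q n x - ∑ τ ∈ F, A.ev (τ, 0) x • v τ =
      A.Q n (x - ∑ τ ∈ F, A.ev (τ, 0) x • v τ) := by
    rw [map_sub, map_sum]
    congr 1
    exact Finset.sum_congr rfl fun τ _ => by rw [map_smul, hv1]
  rw [h1]
  have h2 := A.Q_le_coord (n := n) (x := x - ∑ τ ∈ F, A.ev (τ, 0) x • v τ) (c := ε / 2)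
    (by positivity) (by
      intro σ hσ
      rw [map_sub, A.R1_coord hv2 F (fun τ => A.ev (τ, 0) x) hσ]
      by_cases hF' : σ ∈ F
      · rw [if_pos hF', sub_self, abs_zero]
        positivity
      · rw [if_neg hF', sub_zero]
        by_contra hcon
        push Not at hcon
        exact hF' (hF ((Set.Finite.mem_toFinset _).2 ⟨hσ, hcon.le⟩)))
  linarith

open Classical in
/-- every functional of norm `≤ 1` composed with `Q n` is, up to `ε` on two given vectors, a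
combination of coordinates with `ℓ_1`-norm `≤ 2` -/
theorem rep_functional (φ : X →L[ℝ] ℝ) (hφ : ∀ x, |φ x| ≤ ‖x‖) (n : ℕ) (x y : X) {ε : ℝ}
    (hε : 0 < ε) :
    ∃ b : T × ℕ →₀ ℝ, ∑ q ∈ b.support, |b q| ≤ 2 ∧
      |A.pair b x - φ (A.Q n x)| ≤ ε ∧ |A.pair b y - φ (A.Q n y)| ≤ ε := by
  obtain ⟨v, hv1, hv2⟩ := A.exists_dual n
  obtain ⟨F1, hF1⟩ := A.Q_approx hv1 hv2 x hε
  obtain ⟨F2, hF2⟩ := A.Q_approx hv1 hv2 y hε
  set F : Finset T := (F1 ∪ F2).filter (fun τ => A.rank τ < n) with hF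
  have hFr : ∀ τ ∈ F, A.rank τ < n := fun τ hτ => (Finset.mem_filter.1 hτ).2
  -- dropping the indices of rank `≥ n` is harmless: use `Q_approx` in another form
  have key : ∀ (z : X) (F₀ : Finset T), (∀ F : Finset T, F₀ ⊆ F →
      ‖A.Q n z - ∑ τ ∈ F, A.ev (τ, 0) z • v τ‖ ≤ ε) → F₀ ⊆ F1 ∪ F2 →
      ‖A.Q n z - ∑ τ ∈ F, A.ev (τ, 0) z • v τ‖ ≤ ε := by
    intro z F₀ h1 h2
    have h3 := h1 (F1 ∪ F2) h2
    have h4 : ∑ τ ∈ F, A.ev (τ, 0) z • v τ = ∑ τ ∈ F1 ∪ F2, A.ev (τ, 0) z • v τ := by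
      rw [hF]
      apply Finset.sum_subset (Finset.filter_subset _ _)
      intro τ hτ hτ'
      have h5 : ¬ A.rank τ < n := fun h => hτ' (Finset.mem_filter.2 ⟨hτ, h⟩)
      have h6 : v τ = 0 := by
        rw [← hv1 τ]
        refine A.Q_eq_zero n _ ?_
        rintro ⟨σ, k⟩ hq
        rcases Nat.eq_zero_or_pos k with rfl | hk
        · rw [hv2 τ σ hq, if_neg]
          rintro rfl
          exact h5 hq
        · exact A.ev_zero _ _ hk
      rw [h6, smul_zero]
    rw [h4]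
    exact h3
  have kx := key x F1 hF1 Finset.subset_union_left
  have ky := key y F2 hF2 Finset.subset_union_right
  set b : T × ℕ →₀ ℝ := ∑ τ ∈ F, Finsupp.single (τ, 0) (φ (v τ)) with hb
  have hbq : ∀ τ : T, b (τ, 0) = if τ ∈ F then φ (v τ) else 0 := by
    intro τ
    rw [hb, Finsupp.finsetSum_apply]
    have h1 : ∀ σ ∈ F, (Finsupp.single (σ, 0) (φ (v σ)) : T × ℕ →₀ ℝ) (τ, 0) =
        if τ = σ then φ (v σ) else 0 := by
      intro σ _
      rw [Finsupp.single_apply]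
      by_cases h : τ = σ
      · subst h; simp
      · rw [if_neg h, if_neg]
        intro h'
        exact h (congrArg Prod.fst h').symm
    rw [Finset.sum_congr rfl h1, Finset.sum_ite_eq]
  have hsub : b.support ⊆ F.image (fun τ => (τ, 0)) := by
    rw [hb]
    refine (Finsupp.support_finsetSum).trans ?_
    intro q hq
    obtain ⟨τ, hτ, hq'⟩ := Finset.mem_biUnion.1 hq
    have := Finsupp.support_single_subset hq'
    rw [Finset.mem_singleton] at this
    rw [this]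
    exact Finset.mem_image_of_mem _ hτ
  have hinj : ∀ τ ∈ F, ∀ σ ∈ F, ((τ, 0) : T × ℕ) = (σ, 0) → τ = σ := by
    intro τ _ σ _ h
    exact congrArg Prod.fst h
  have hpair : ∀ z, A.pair b z = φ (∑ τ ∈ F, A.ev (τ, 0) z • v τ) := by
    intro z
    have h1 : A.pair b z = ∑ q ∈ F.image (fun τ => ((τ, 0) : T × ℕ)), b q * A.ev q z := by
      unfold AHData.pair
      apply Finset.sum_subset hsub
      intro q _ hq
      rw [Finsupp.notMem_support_iff.1 hq, zero_mul]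
    rw [h1, Finset.sum_image hinj, map_sum]
    refine Finset.sum_congr rfl fun τ hτ => ?_
    rw [hbq, if_pos hτ, map_smul, smul_eq_mul, mul_comm]
  refine ⟨b, ?_, ?_, ?_⟩
  · have h1 : ∑ q ∈ b.support, |b q| ≤ ∑ τ ∈ F, |φ (v τ)| := by
      calc ∑ q ∈ b.support, |b q| ≤ ∑ q ∈ F.image (fun τ => ((τ, 0) : T × ℕ)), |b q| :=
            Finset.sum_le_sum_of_subset_of_nonneg hsub fun _ _ _ => abs_nonneg _
        _ = ∑ τ ∈ F, |b (τ, 0)| := Finset.sum_image hinj
        _ = ∑ τ ∈ F, |φ (v τ)| := Finset.sum_congr rfl fun τ hτ => by rw [hbq, if_pos hτ]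
    refine h1.trans ?_
    set sg : T → ℝ := fun τ => if 0 ≤ φ (v τ) then 1 else -1 with hsg
    have hsg1 : ∀ τ, |sg τ| ≤ 1 := by
      intro τ
      by_cases h : 0 ≤ φ (v τ) <;> simp [hsg, h]
    have hsg2 : ∀ τ, sg τ * φ (v τ) = |φ (v τ)| := by
      intro τ
      by_cases h : 0 ≤ φ (v τ)
      · simp [hsg, h, abs_of_nonneg h]
      · push Not at h
        simp [hsg, not_le.2 h, abs_of_neg h]
    set z : X := ∑ τ ∈ F, sg τ • v τ with hz
    have hQz : A.Q n z = z := by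
      rw [hz, map_sum]
      exact Finset.sum_congr rfl fun τ _ => by rw [map_smul, hv1]
    have hφz : φ z = ∑ τ ∈ F, |φ (v τ)| := by
      rw [hz, map_sum]
      exact Finset.sum_congr rfl fun τ _ => by rw [map_smul, smul_eq_mul, hsg2]
    have hnz : ‖A.Q n z‖ ≤ 2 * 1 := by
      refine A.Q_le_coord zero_le_one fun σ hσ => ?_
      rw [hz, A.R1_coord hv2 F sg hσ]
      split_ifs
      · exact hsg1 σ
      · rw [abs_zero]; exact zero_le_one
    rw [← hφz]
    calc φ z ≤ |φ z| := le_abs_self _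
      _ ≤ ‖z‖ := hφ z
      _ = ‖A.Q n z‖ := by rw [hQz]
      _ ≤ 2 := by linarith
  · rw [hpair, abs_sub_comm, ← map_sub]
    exact (hφ _).trans kx
  · rw [hpair, abs_sub_comm, ← map_sub]
    exact (hφ _).trans ky

end AHData

end Pool.Agent.MP8c9cbf
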