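import Pool.Agent.Lib.MP_8c9cbf_an.Lam2
import Pool.Agent.Lib.MP_8c9cbf_an.Lam3
import Pool.Agent.Lib.MP_8c9cbf_an.ClE
import Pool.Agent.Lib.MP_8c9cbf_an.FSeq
import Pool.Agent.Lib.MP_8c9cbf_an.CM

/-! Row R8: the operator theorem over the reals. -/

namespace Pool.Agent.MP8c9cbf

open Finset Filter Topology

variable {T X : Type} [NormedAddCommGroup X] [NormedSpace ℝ X] (A : AHData T X)

namespace AHData

/-- `W = V - c`, `exists_lam`, `rnul_of_base`, `corner`, and `tl_comp_c0` for `W ∘ b`, where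
`Q n = b ∘ a` (`exists_Amap`, `exists_Bmap`, `exists_enum`, `Q_congr`) -/
theorem scalar_plus (V : X →L[ℝ] X) : ∃ c : ℝ, ∀ ε : ℝ, 0 < ε → ∃ n0 : ℕ,
      ∀ n ≥ n0, ∀ x, ‖(V x - c • x) - A.Q n (V x - c • x)‖ ≤ ε * ‖x‖ := by
  choose y hy using A.exists_base
  obtain ⟨c, hc⟩ := A.exists_lam V hy
  set W : X →L[ℝ] X := V - c • ContinuousLinearMap.id ℝ X with hW
  have hWx : ∀ x, W x = V x - c • x := fun x => rfl
  have hR : A.RNul W := A.rnul_of_base W hy hc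
  refine ⟨c, fun ε hε => ?_⟩
  obtain ⟨n1, hn1⟩ := A.corner W hR (show 0 < ε / 6 by positivity)
  obtain ⟨en⟩ := A.toTreeData.exists_enum
  obtain ⟨a, ha1, ha2⟩ := A.exists_Amap en n1
  obtain ⟨b, hb1, hb2, hb3⟩ := A.exists_Bmap en n1
  have hba : ∀ x, b (a x) = A.Q n1 x := by
    intro x
    rw [← hb2]
    apply A.Q_congr
    intro τ hτ
    obtain ⟨k, rfl⟩ := en.surjective τ
    rw [hb3 _ _ hτ, ha2, if_pos hτ]
  obtain ⟨p, hp⟩ := A.tl_comp_c0 (W.comp b) (show 0 < ε / 6 by positivity)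
  refine ⟨max n1 p, fun n hn x => ?_⟩
  rw [← hWx, ← A.tl_apply]
  have e1 : W x = W (A.tl n1 x) + W (A.Q n1 x) := by
    rw [← map_add, A.tl_apply, sub_add_cancel]
  have e2 := A.norm_tl_mono ((le_max_left n1 p).trans hn) (W (A.tl n1 x))
  have e3 := A.norm_tl_mono ((le_max_right n1 p).trans hn) (W (A.Q n1 x))
  have e4 := hn1 x
  have e5 := hp (a x)
  have e6 : (W.comp b) (a x) = W (A.Q n1 x) := by
    rw [ContinuousLinearMap.comp_apply, hba]
  rw [e6] at e5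
  have e7 : ε / 6 * ‖a x‖ ≤ ε / 6 * ‖x‖ := mul_le_mul_of_nonneg_left (ha1 x) (by positivity)
  rw [e1, map_add]
  have e8 := norm_add_le (A.tl n (W (A.tl n1 x))) (A.tl n (W (A.Q n1 x)))
  linarith

end AHData

end Pool.Agent.MP8c9cbf
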